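import Mathlib

/-!
# Numerical certificates for the contraction
-/

namespace Pool.H96.LT

/-- sum over the neighbours -/
noncomputable def sS (a : ℤ → ℝ) (i : ℤ) : ℝ := a (i - 1) + a i + a (i + 1)

/-- probability to go down / stay / go up -/
noncomputable def pl (a : ℤ → ℝ) (i : ℤ) : ℝ := a (i - 1) / sS a i
noncomputable def pm (a : ℤ → ℝ) (i : ℤ) : ℝ := a i / sS a i
noncomputable def pr (a : ℤ → ℝ) (i : ℤ) : ℝ := a (i + 1) / sS a i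

/-- mass moved over the link `(i,i+1)` -/
noncomputable def kk (a : ℤ → ℝ) (i : ℤ) : ℝ := 1 - pr a i - pl a (i + 1)

/-- Properties of the boundary weights -/
structure Weights (d : ℕ) (a : ℤ → ℝ) : Prop where
  pos : ∀ i, 0 < a i
  zero : a 0 = 1
  fix : ∀ i, a i = ((a (i - 1) + a i + a (i + 1)) / (a (-1) + a 0 + a 1)) ^ d
  lc : ∀ i, a (i - 1) * a (i + 1) ≤ a i ^ 2
  sum : Summable a

/-- certificate for `S = {0}` -/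
def Cert0 (d : ℕ) (a : ℤ → ℝ) : Prop :=
  ∃ (α κ β ρ H : ℝ) (g : ℕ → ℝ),
    1 / 2 ≤ α ∧ α < 1 ∧ 0 ≤ κ ∧ 2 * α - 1 ≤ κ * (1 - α) ∧ 0 < β ∧ 0 < ρ ∧ ρ < 1 ∧
    (∀ i, 1 ≤ g i) ∧
    α * (α * pr a 0 / (1 - α)) + β * α ≤ α * pm a 0 + (1 - α) * pl a 1 ∧
    β * (1 - α) + (1 - α) * pr a 1 ≤ α * pr a 0 + (1 - α) * pm a 1 ∧
    pr a 0 * (1 - α) / α + kk a 0 ^ 2 / β + 2 * α * pr a 1 ≤ H ∧
    (∑ m ∈ Finset.range d, (1 + κ * H) ^ m) *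
      ((pr a 0 * (1 - α) / α + kk a 0 ^ 2 / β) * g 0 + 2 * α * pr a 1 * g 1) ≤ ρ * g 0 ∧
    d * (pl a 1 / (2 * (1 - α)) * g 0 + kk a 1 * g 1 + pr a 2 * g 2) ≤ ρ * g 1 ∧
    ∀ i : ℕ, 2 ≤ i →
      d * (pl a i * g (i - 1) + kk a i * g i + pr a (i + 1) * g (i + 1)) ≤ ρ * g i

/-- certificate for `S = {0,1}` -/
def Cert1 (d : ℕ) (a : ℤ → ℝ) : Prop :=
  ∃ (ρ : ℝ) (g : ℕ → ℝ), 0 < ρ ∧ ρ < 1 ∧ (∀ i, 1 ≤ g i) ∧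
    d * (pr a 1 ^ 2 / (1 - 2 * pr a 1) * g 0 + 2 * pr a 1 * g 1) ≤ ρ * g 0 ∧
    ∀ i : ℕ, 1 ≤ i →
      d * (pl a i * g (i - 1) + kk a i * g i + pr a (i + 1) * g (i + 1)) ≤ ρ * g i

end Pool.H96.LT
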