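import Pool.Agent.H96.LT.DivBasic

/-!
# The divergence of a product of two measures
-/

namespace Pool.H96.LT
open Finset

theorem third_term {α p q M : ℝ} (hM : M = α * p + (1 - α) * q) (h : M ≠ 0) :
    p * q * (p - q) / M ^ 2 =
      (p - q) + (p - q) ^ 2 / M * ((1 - 2 * α) - α * (1 - α) * (p - q) / M) := by
  have key : p * q = M ^ 2 + (1 - 2 * α) * M * (p - q) - α * (1 - α) * (p - q) ^ 2 := by
    rw [hM]; ring
  rw [key]
  field_simp
  ring

/-- The third moment is bounded by the second one. -/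
theorem third_le {X : Type} {α : ℝ} {s : Finset X} {p q : X → ℝ} (h0 : 0 < α) (h1 : α < 1)
    (hp : ∀ x ∈ s, 0 ≤ p x) (hq : ∀ x ∈ s, 0 ≤ q x)
    (sp : ∑ x ∈ s, p x = 1) (sq : ∑ x ∈ s, q x = 1) :
    |∑ x ∈ s, p x * q x * (p x - q x) / (α * p x + (1 - α) * q x) ^ 2| ≤
      max α (1 - α) * ∑ x ∈ s, (p x - q x) ^ 2 / (α * p x + (1 - α) * q x) := by
  have h2 : 0 < 1 - α := by linarith
  have e1 : ∑ x ∈ s, p x * q x * (p x - q x) / (α * p x + (1 - α) * q x) ^ 2 =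
      ∑ x ∈ s, (p x - q x) ^ 2 / (α * p x + (1 - α) * q x) *
        ((1 - 2 * α) - α * (1 - α) * (p x - q x) / (α * p x + (1 - α) * q x)) := by
    have e2 : ∀ x ∈ s, p x * q x * (p x - q x) / (α * p x + (1 - α) * q x) ^ 2 =
        (p x - q x) + (p x - q x) ^ 2 / (α * p x + (1 - α) * q x) *
        ((1 - 2 * α) - α * (1 - α) * (p x - q x) / (α * p x + (1 - α) * q x)) := by
      intro x hx
      rcases eq_or_ne (α * p x + (1 - α) * q x) 0 with e | e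
      · obtain ⟨e1, e2⟩ := den_zero h0 h1 (hp x hx) (hq x hx) e
        simp [e1, e2]
      · exact third_term rfl e
    rw [sum_congr rfl e2, sum_add_distrib, sum_sub_distrib, sp, sq]
    ring
  rw [e1, mul_sum]
  refine (abs_sum_le_sum_abs _ _).trans (sum_le_sum fun x hx => ?_)
  have hM := den_nonneg h0 h1 (hp x hx) (hq x hx)
  rcases eq_or_ne (α * p x + (1 - α) * q x) 0 with e | e
  · rw [e]; simp
  have hM' : 0 < α * p x + (1 - α) * q x := lt_of_le_of_ne hM (Ne.symm e)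
  have hD : 0 ≤ (p x - q x) ^ 2 / (α * p x + (1 - α) * q x) := by positivity
  rw [abs_mul, abs_of_nonneg hD, mul_comm]
  refine mul_le_mul_of_nonneg_right ?_ hD
  have hu1 : α * (1 - α) * (p x - q x) / (α * p x + (1 - α) * q x) ≤ 1 - α := by
    rw [div_le_iff₀ hM']
    have := mul_nonneg h2.le (hq x hx)
    nlinarith
  have hu2 : -α ≤ α * (1 - α) * (p x - q x) / (α * p x + (1 - α) * q x) := by
    rw [le_div_iff₀ hM']
    have := mul_nonneg h0.le (hp x hx)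
    nlinarith
  rw [abs_le]
  constructor
  · have := le_max_left α (1 - α)
    linarith
  · have := le_max_right α (1 - α)
    linarith

theorem prod_term {α p q P Q : ℝ} (h0 : 0 < α) (h1 : α < 1) (hp : 0 ≤ p) (hq : 0 ≤ q)
    (hP : 0 ≤ P) (hQ : 0 ≤ Q) :
    (p * q / (α * p + (1 - α) * q)) * (P * Q / (α * P + (1 - α) * Q)) -
      α * (1 - α) * ((p * q * (p - q) / (α * p + (1 - α) * q) ^ 2) *
        (P * Q * (P - Q) / (α * P + (1 - α) * Q) ^ 2)) ≤
      (p * P) * (q * Q) / (α * (p * P) + (1 - α) * (q * Q)) := by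
  have h2 : 0 < 1 - α := by linarith
  rcases eq_or_ne (α * p + (1 - α) * q) 0 with e | e
  · obtain ⟨e1, e2⟩ := den_zero h0 h1 hp hq e
    simp [e1, e2]
  rcases eq_or_ne (α * P + (1 - α) * Q) 0 with e' | e'
  · obtain ⟨e1, e2⟩ := den_zero h0 h1 hP hQ e'
    simp [e1, e2]
  have hM : 0 < α * p + (1 - α) * q := lt_of_le_of_ne (den_nonneg h0 h1 hp hq) (Ne.symm e)
  have hN : 0 < α * P + (1 - α) * Q := lt_of_le_of_ne (den_nonneg h0 h1 hP hQ) (Ne.symm e')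
  rcases eq_or_ne (α * (p * P) + (1 - α) * (q * Q)) 0 with e'' | e''
  · obtain ⟨e1, e2⟩ := den_zero h0 h1 (mul_nonneg hp hP) (mul_nonneg hq hQ) e''
    rw [e'', div_zero]
    have e3 : p * q * (P * Q) = 0 := by
      calc p * q * (P * Q) = (p * P) * (q * Q) := by ring
        _ = 0 := by rw [e1, zero_mul]
    have e4 : (p * q / (α * p + (1 - α) * q)) * (P * Q / (α * P + (1 - α) * Q)) = 0 := by
      rw [div_mul_div_comm, e3, zero_div]
    have e5 : ((p * q * (p - q) / (α * p + (1 - α) * q) ^ 2) *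
        (P * Q * (P - Q) / (α * P + (1 - α) * Q) ^ 2)) = 0 := by
      rw [div_mul_div_comm]
      have : p * q * (p - q) * (P * Q * (P - Q)) = 0 := by
        calc p * q * (p - q) * (P * Q * (P - Q)) = (p * q * (P * Q)) * ((p - q) * (P - Q)) := by
              ring
          _ = 0 := by rw [e3, zero_mul]
      rw [this, zero_div]
    rw [e4, e5]
    simp
  have hR : 0 < α * (p * P) + (1 - α) * (q * Q) :=
    lt_of_le_of_ne (den_nonneg h0 h1 (mul_nonneg hp hP) (mul_nonneg hq hQ)) (Ne.symm e'')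
  have key : α * (1 - α) * ((p - q) * (P - Q)) =
      (α * (p * P) + (1 - α) * (q * Q)) -
        (α * p + (1 - α) * q) * (α * P + (1 - α) * Q) := by ring
  generalize hMM : α * p + (1 - α) * q = M at *
  generalize hNN : α * P + (1 - α) * Q = N at *
  generalize hRR : α * (p * P) + (1 - α) * (q * Q) = R at *
  have e6 : (p * q / M) * (P * Q / N) -
      α * (1 - α) * ((p * q * (p - q) / M ^ 2) * (P * Q * (P - Q) / N ^ 2)) =
      (p * P) * (q * Q) * ((2 * (M * N) - R) / (M * N) ^ 2) := by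
    have e7 : 2 * (M * N) - R = M * N - α * (1 - α) * ((p - q) * (P - Q)) := by
      rw [key]; ring
    rw [e7]
    field_simp
  rw [e6]
  have e8 : (2 * (M * N) - R) / (M * N) ^ 2 ≤ 1 / R := by
    have hMN : 0 < M * N := mul_pos hM hN
    rw [div_le_div_iff₀ (by positivity) hR]
    nlinarith [sq_nonneg (M * N - R)]
  have e9 : 0 ≤ (p * P) * (q * Q) := by positivity
  calc (p * P) * (q * Q) * ((2 * (M * N) - R) / (M * N) ^ 2) ≤ (p * P) * (q * Q) * (1 / R) :=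
        mul_le_mul_of_nonneg_left e8 e9
    _ = (p * P) * (q * Q) / R := by ring

theorem kappa {α κ : ℝ} (h0 : 0 < α) (h1 : α < 1) (hκ1 : 2 * α - 1 ≤ κ * (1 - α))
    (hκ2 : 1 - 2 * α ≤ κ * α) : (max α (1 - α)) ^ 2 ≤ (1 + κ) * (α * (1 - α)) := by
  have h2 : 0 < 1 - α := by linarith
  rcases max_cases α (1 - α) with ⟨h, h'⟩ | ⟨h, h'⟩
  · rw [h]
    nlinarith [mul_le_mul_of_nonneg_left hκ1 h0.le]
  · rw [h]
    nlinarith [mul_le_mul_of_nonneg_left hκ2 h2.le]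

theorem hat_prod {X Y : Type} {α κ : ℝ} {s : Finset X} {t : Finset Y} {p q : X → ℝ}
    {P Q : Y → ℝ} (h0 : 0 < α) (h1 : α < 1) (hp : ∀ x ∈ s, 0 ≤ p x) (hq : ∀ x ∈ s, 0 ≤ q x)
    (hP : ∀ y ∈ t, 0 ≤ P y) (hQ : ∀ y ∈ t, 0 ≤ Q y) (sp : ∑ x ∈ s, p x = 1)
    (sq : ∑ x ∈ s, q x = 1) (sP : ∑ y ∈ t, P y = 1) (sQ : ∑ y ∈ t, Q y = 1) (_hκ : 0 ≤ κ)
    (hκ1 : 2 * α - 1 ≤ κ * (1 - α)) (hκ2 : 1 - 2 * α ≤ κ * α) :
    hat α (s ×ˢ t) (fun z => p z.1 * P z.2) (fun z => q z.1 * Q z.2) ≤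
      hat α s p q + hat α t P Q + κ * hat α s p q * hat α t P Q := by
  have h2 : 0 < 1 - α := by linarith
  have s1 : ∑ z ∈ s ×ˢ t, p z.1 * P z.2 = 1 := by
    rw [sum_product, ← sum_mul_sum, sp, sP, one_mul]
  have s2 : ∑ z ∈ s ×ˢ t, q z.1 * Q z.2 = 1 := by
    rw [sum_product, ← sum_mul_sum, sq, sQ, one_mul]
  have hp1 : ∀ z ∈ s ×ˢ t, 0 ≤ (fun z : X × Y => p z.1 * P z.2) z := fun z hz =>
    mul_nonneg (hp _ (mem_product.1 hz).1) (hP _ (mem_product.1 hz).2)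
  have hq1 : ∀ z ∈ s ×ˢ t, 0 ≤ (fun z : X × Y => q z.1 * Q z.2) z := fun z hz =>
    mul_nonneg (hq _ (mem_product.1 hz).1) (hQ _ (mem_product.1 hz).2)
  have a12 := hat_eq h0 h1 hp1 hq1 s1 s2
  have a1 := hat_eq h0 h1 hp hq sp sq
  have a2 := hat_eq h0 h1 hP hQ sP sQ
  have b1 := third_le h0 h1 hp hq sp sq
  have b2 := third_le h0 h1 hP hQ sP sQ
  have d1 : hat α s p q = α * (1 - α) *
      ∑ x ∈ s, (p x - q x) ^ 2 / (α * p x + (1 - α) * q x) := rfl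
  have d2 : hat α t P Q = α * (1 - α) *
      ∑ x ∈ t, (P x - Q x) ^ 2 / (α * P x + (1 - α) * Q x) := rfl
  have hD1 : 0 ≤ ∑ x ∈ s, (p x - q x) ^ 2 / (α * p x + (1 - α) * q x) :=
    sum_nonneg fun x hx => div_nonneg (sq_nonneg _) (den_nonneg h0 h1 (hp x hx) (hq x hx))
  have hD2 : 0 ≤ ∑ x ∈ t, (P x - Q x) ^ 2 / (α * P x + (1 - α) * Q x) :=
    sum_nonneg fun x hx => div_nonneg (sq_nonneg _) (den_nonneg h0 h1 (hP x hx) (hQ x hx))
  have key : (∑ x ∈ s, p x * q x / (α * p x + (1 - α) * q x)) *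
      (∑ y ∈ t, P y * Q y / (α * P y + (1 - α) * Q y)) -
      α * (1 - α) * ((∑ x ∈ s, p x * q x * (p x - q x) / (α * p x + (1 - α) * q x) ^ 2) *
        (∑ y ∈ t, P y * Q y * (P y - Q y) / (α * P y + (1 - α) * Q y) ^ 2)) ≤
      ∑ z ∈ s ×ˢ t, (p z.1 * P z.2) * (q z.1 * Q z.2) /
        (α * (p z.1 * P z.2) + (1 - α) * (q z.1 * Q z.2)) := by
    rw [sum_mul_sum, sum_mul_sum, ← sum_product', ← sum_product', mul_sum, ← sum_sub_distrib]
    refine sum_le_sum fun z hz => ?_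
    exact prod_term h0 h1 (hp _ (mem_product.1 hz).1) (hq _ (mem_product.1 hz).1)
      (hP _ (mem_product.1 hz).2) (hQ _ (mem_product.1 hz).2)
  have a12' : hat α (s ×ˢ t) (fun z => p z.1 * P z.2) (fun z => q z.1 * Q z.2) =
      1 - ∑ z ∈ s ×ˢ t, (p z.1 * P z.2) * (q z.1 * Q z.2) /
        (α * (p z.1 * P z.2) + (1 - α) * (q z.1 * Q z.2)) := a12
  rw [a12']
  have hm : 0 ≤ max α (1 - α) := h0.le.trans (le_max_left _ _)
  have hk := kappa h0 h1 hκ1 hκ2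
  set A1 := ∑ x ∈ s, p x * q x / (α * p x + (1 - α) * q x) with hA1
  set A2 := ∑ y ∈ t, P y * Q y / (α * P y + (1 - α) * Q y) with hA2
  set T1 := ∑ x ∈ s, p x * q x * (p x - q x) / (α * p x + (1 - α) * q x) ^ 2 with hT1
  set T2 := ∑ y ∈ t, P y * Q y * (P y - Q y) / (α * P y + (1 - α) * Q y) ^ 2 with hT2
  set D1 := ∑ x ∈ s, (p x - q x) ^ 2 / (α * p x + (1 - α) * q x) with hD1'
  set D2 := ∑ x ∈ t, (P x - Q x) ^ 2 / (α * P x + (1 - α) * Q x) with hD2'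
  have c1 : T1 * T2 ≤ (max α (1 - α)) ^ 2 * (D1 * D2) := by
    calc T1 * T2 ≤ |T1 * T2| := le_abs_self _
      _ = |T1| * |T2| := abs_mul _ _
      _ ≤ (max α (1 - α) * D1) * (max α (1 - α) * D2) :=
        mul_le_mul b1 b2 (abs_nonneg _) (mul_nonneg hm hD1)
      _ = _ := by ring
  have c2 : (max α (1 - α)) ^ 2 * (D1 * D2) ≤ (1 + κ) * (α * (1 - α)) * (D1 * D2) :=
    mul_le_mul_of_nonneg_right hk (mul_nonneg hD1 hD2)
  have c3 : α * (1 - α) * (T1 * T2) ≤ (1 + κ) * (hat α s p q * hat α t P Q) := by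
    rw [d1, d2]
    calc α * (1 - α) * (T1 * T2) ≤ α * (1 - α) * ((1 + κ) * (α * (1 - α)) * (D1 * D2)) :=
          mul_le_mul_of_nonneg_left (c1.trans c2) (by positivity)
      _ = _ := by ring
  have c4 : A1 = 1 - hat α s p q := by rw [a1]; ring
  have c5 : A2 = 1 - hat α t P Q := by rw [a2]; ring
  rw [c4, c5] at key
  nlinarith

end Pool.H96.LT
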