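import Pool.Agent.H96.LT.DivBasic
import Pool.Agent.H96.LT.DivProd

/-!
# The divergence and the `ℓ¹` distance of product laws
-/

namespace Pool.H96.LT
open Finset

/-- the `ℓ¹` distance of products -/
theorem l1_pi {X : Type} {s : Finset X} (d : ℕ) (p q : Fin d → X → ℝ)
    (hp : ∀ c, ∀ x ∈ s, 0 ≤ p c x) (hq : ∀ c, ∀ x ∈ s, 0 ≤ q c x)
    (sp : ∀ c, ∑ x ∈ s, p c x = 1) (sq : ∀ c, ∑ x ∈ s, q c x = 1) :
    ∑ y ∈ Fintype.piFinset (fun _ : Fin d => s), |∏ c, p c (y c) - ∏ c, q c (y c)|
      ≤ ∑ c, ∑ x ∈ s, |p c x - q c x| := by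
  classical
  set r : Finset (Fin d) → Fin d → X → ℝ := fun T c => if c ∈ T then p c else q c with hr
  have hrn : ∀ T c, ∀ x ∈ s, 0 ≤ r T c x := by
    intro T c x hx
    simp only [hr]
    split_ifs
    · exact hp c x hx
    · exact hq c x hx
  have hrs : ∀ T c, ∑ x ∈ s, r T c x = 1 := by
    intro T c
    simp only [hr]
    split_ifs
    · exact sp c
    · exact sq c
  have key : ∀ T : Finset (Fin d), ∑ y ∈ Fintype.piFinset (fun _ : Fin d => s),
      |∏ c, r T c (y c) - ∏ c, q c (y c)| ≤ ∑ c ∈ T, ∑ x ∈ s, |p c x - q c x| := by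
    intro T
    induction T using Finset.induction_on with
    | empty => simp [hr]
    | insert e T he ih =>
      set f : Fin d → X → ℝ := fun c x => if c = e then |p e x - q e x| else r T c x with hf
      have h2 : ∀ y ∈ Fintype.piFinset (fun _ : Fin d => s),
          |∏ c, r (insert e T) c (y c) - ∏ c, r T c (y c)| = ∏ c, f c (y c) := by
        intro y hy
        have hy' : ∀ c, y c ∈ s := by simpa using hy
        rw [← Finset.mul_prod_erase _ (fun c => r (insert e T) c (y c)) (Finset.mem_univ e),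
          ← Finset.mul_prod_erase _ (fun c => r T c (y c)) (Finset.mem_univ e),
          ← Finset.mul_prod_erase _ (fun c => f c (y c)) (Finset.mem_univ e)]
        have h3 : ∏ c ∈ Finset.univ.erase e, r (insert e T) c (y c)
            = ∏ c ∈ Finset.univ.erase e, r T c (y c) := by
          refine Finset.prod_congr rfl fun c hc => ?_
          have hce : c ≠ e := Finset.ne_of_mem_erase hc
          simp [hr, hce]
        have h4 : ∏ c ∈ Finset.univ.erase e, f c (y c)
            = ∏ c ∈ Finset.univ.erase e, r T c (y c) := by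
          refine Finset.prod_congr rfl fun c hc => ?_
          have hce : c ≠ e := Finset.ne_of_mem_erase hc
          simp [hf, hce]
        have h5 : 0 ≤ ∏ c ∈ Finset.univ.erase e, r T c (y c) :=
          Finset.prod_nonneg fun c _ => hrn T c _ (hy' c)
        have e1 : r (insert e T) e (y e) = p e (y e) := by simp [hr]
        have e2 : r T e (y e) = q e (y e) := by simp [hr, he]
        have e3 : f e (y e) = |p e (y e) - q e (y e)| := by simp [hf]
        rw [h3, h4, e1, e2, e3, ← sub_mul, abs_mul, abs_of_nonneg h5]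
      have h6 : ∑ y ∈ Fintype.piFinset (fun _ : Fin d => s),
          |∏ c, r (insert e T) c (y c) - ∏ c, r T c (y c)| = ∑ x ∈ s, |p e x - q e x| := by
        rw [Finset.sum_congr rfl h2, ← Finset.prod_univ_sum (fun _ => s) f,
          ← Finset.mul_prod_erase _ _ (Finset.mem_univ e)]
        have h7 : ∏ c ∈ Finset.univ.erase e, ∑ x ∈ s, f c x = 1 := by
          refine Finset.prod_eq_one fun c hc => ?_
          have hce : c ≠ e := Finset.ne_of_mem_erase hc
          simp only [hf, hce, if_false]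
          exact hrs T c
        rw [h7, mul_one]
        simp [hf]
      rw [Finset.sum_insert he, ← h6]
      calc _ ≤ ∑ y ∈ Fintype.piFinset (fun _ : Fin d => s),
          (|∏ c, r (insert e T) c (y c) - ∏ c, r T c (y c)|
            + |∏ c, r T c (y c) - ∏ c, q c (y c)|) :=
            Finset.sum_le_sum fun y _ => abs_sub_le _ _ _
        _ ≤ _ := by
            rw [Finset.sum_add_distrib]
            linarith
  simpa only [hr, Finset.mem_univ, if_true] using key Finset.univ

/-- the sum of a product law -/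
theorem sum_pi_one {X : Type} {s : Finset X} {p : X → ℝ} (sp : ∑ x ∈ s, p x = 1) (d : ℕ) :
    ∑ y ∈ Fintype.piFinset (fun _ : Fin d => s), ∏ c, p (y c) = 1 := by
  classical
  have := Finset.prod_univ_sum (fun _ : Fin d => s) (fun _ x => p x)
  rw [← this]
  simp [sp]

/-- splitting off the first coordinate -/
theorem sum_pi_succ {X : Type} {s : Finset X} (d : ℕ) (F : (Fin (d + 1) → X) → ℝ) :
    ∑ y ∈ Fintype.piFinset (fun _ : Fin (d + 1) => s), F y
      = ∑ z ∈ s ×ˢ Fintype.piFinset (fun _ : Fin d => s), F (Fin.cons z.1 z.2) := by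
  refine Finset.sum_nbij' (fun y => (y 0, Fin.tail y)) (fun z => Fin.cons z.1 z.2)
    ?_ ?_ ?_ ?_ ?_
  · intro y hy
    have hy' : ∀ c, y c ∈ s := by simpa using hy
    simp only [Finset.mem_product, Fintype.mem_piFinset]
    exact ⟨hy' 0, fun c => hy' c.succ⟩
  · intro z hz
    simp only [Finset.mem_product, Fintype.mem_piFinset] at hz
    simp only [Fintype.mem_piFinset]
    intro c
    refine Fin.cases ?_ (fun c => ?_) c
    · simpa using hz.1
    · simpa using hz.2 c
  · intro y _
    exact Fin.cons_self_tail y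
  · intro z _
    simp
  · intro y _
    simp only []
    rw [Fin.cons_self_tail]

theorem hat_pi_succ {X : Type} {α : ℝ} {s : Finset X} {p q : X → ℝ} (d : ℕ) :
    hat α (Fintype.piFinset fun _ : Fin (d + 1) => s) (fun y => ∏ c, p (y c))
        (fun y => ∏ c, q (y c))
      = hat α (s ×ˢ Fintype.piFinset fun _ : Fin d => s)
        (fun z => p z.1 * (fun y : Fin d → X => ∏ c, p (y c)) z.2)
        (fun z => q z.1 * (fun y : Fin d → X => ∏ c, q (y c)) z.2) := by
  unfold hat
  rw [sum_pi_succ]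
  simp only [Fin.prod_univ_succ, Fin.cons_zero, Fin.cons_succ]

/-- the divergence of product laws -/
theorem hat_pi {X : Type} {α : ℝ} {s : Finset X} {p q : X → ℝ} (h0 : 0 < α) (h1 : α < 1)
    (hp : ∀ x ∈ s, 0 ≤ p x) (hq : ∀ x ∈ s, 0 ≤ q x)
    (sp : ∑ x ∈ s, p x = 1) (sq : ∑ x ∈ s, q x = 1) (d : ℕ) (κ H : ℝ) (hκ : 0 ≤ κ)
    (hκ1 : 2 * α - 1 ≤ κ * (1 - α)) (hκ2 : 1 - 2 * α ≤ κ * α) (hH : hat α s p q ≤ H) :
    hat α (Fintype.piFinset fun _ : Fin d => s) (fun y => ∏ c, p (y c))
        (fun y => ∏ c, q (y c))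
      ≤ (∑ m ∈ Finset.range d, (1 + κ * H) ^ m) * hat α s p q := by
  have hh : 0 ≤ hat α s p q := hat_nonneg h0 h1 hp hq
  have hH0 : 0 ≤ H := hh.trans hH
  have hκH : 0 ≤ κ * H := mul_nonneg hκ hH0
  induction d with
  | zero => simp [hat]
  | succ d ih =>
    have hP : ∀ y ∈ Fintype.piFinset (fun _ : Fin d => s), 0 ≤ ∏ c, p (y c) := by
      intro y hy
      have hy' : ∀ c, y c ∈ s := by simpa using hy
      exact Finset.prod_nonneg fun c _ => hp _ (hy' c)
    have hQ : ∀ y ∈ Fintype.piFinset (fun _ : Fin d => s), 0 ≤ ∏ c, q (y c) := by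
      intro y hy
      have hy' : ∀ c, y c ∈ s := by simpa using hy
      exact Finset.prod_nonneg fun c _ => hq _ (hy' c)
    have h2 := hat_prod (κ := κ) h0 h1 hp hq hP hQ sp sq (sum_pi_one sp d) (sum_pi_one sq d)
      hκ hκ1 hκ2
    rw [hat_pi_succ]
    have hm := hat_nonneg h0 h1 hP hQ
    refine h2.trans ?_
    rw [Finset.sum_range_succ']
    set h := hat α s p q with hhdef
    set hm' := hat α (Fintype.piFinset fun _ : Fin d => s) (fun y => ∏ c, p (y c))
        (fun y => ∏ c, q (y c)) with hmdef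
    have e1 : ∑ k ∈ Finset.range d, (1 + κ * H) ^ (k + 1)
        = (1 + κ * H) * ∑ k ∈ Finset.range d, (1 + κ * H) ^ k := by
      rw [Finset.mul_sum]
      exact Finset.sum_congr rfl fun k _ => by ring
    rw [e1]
    have e2 : κ * h * hm' ≤ κ * H * hm' :=
      mul_le_mul_of_nonneg_right (mul_le_mul_of_nonneg_left hH hκ) hm
    have e3 : (1 + κ * H) * hm' ≤ (1 + κ * H) * ((∑ m ∈ Finset.range d, (1 + κ * H) ^ m) * h) :=
      mul_le_mul_of_nonneg_left ih (by linarith)
    nlinarith [e2, e3]

end Pool.H96.LT
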