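import Pool.Agent.H96.LT.Defs
import Pool.Agent.H96.LT.Div

/-!
# The laws of the level values of the tree-indexed chain
-/

set_option autoImplicit false

open Filter Topology

namespace Pool.H96.LT

variable {d : ℕ} {a : ℤ → ℝ}

theorem mixt_nonneg {X : Type} (ha : ∀ i, 0 < a i) {L : ℤ → X → ℝ} (hL : ∀ i x, 0 ≤ L i x) (i : ℤ)
    (x : X) : 0 ≤ mixt a L i x := by
  unfold mixt
  have h1 := ha (i - 1)
  have h2 := ha i
  have h3 := ha (i + 1)
  have h4 := hL (i - 1) x
  have h5 := hL i x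
  have h6 := hL (i + 1) x
  positivity

theorem mixt_sum {X : Type} (ha : ∀ i, 0 < a i) {L : ℤ → X → ℝ} (i : ℤ) (s : Finset X)
    (h1 : ∑ x ∈ s, L (i - 1) x = 1) (h2 : ∑ x ∈ s, L i x = 1) (h3 : ∑ x ∈ s, L (i + 1) x = 1) :
    ∑ x ∈ s, mixt a L i x = 1 := by
  unfold mixt
  rw [← Finset.sum_div, Finset.sum_add_distrib, Finset.sum_add_distrib, ← Finset.mul_sum,
    ← Finset.mul_sum, ← Finset.mul_sum, h1, h2, h3, mul_one, mul_one, mul_one]
  have h1 := ha (i - 1)
  have h2 := ha i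
  have h3 := ha (i + 1)
  exact div_self (by positivity)

theorem Lam_nonneg (ha : ∀ i, 0 < a i) (k : ℕ) (i : ℤ) (y : Lv d k) : 0 ≤ Lam d a k i y := by
  induction k generalizing i with
  | zero =>
    unfold Lam
    split_ifs
    · exact zero_le_one
    · exact le_refl _
  | succ k ih =>
    unfold Lam
    exact Finset.prod_nonneg fun c _ => mixt_nonneg ha (fun i x => ih i x) i (y c)

theorem Lam_sum (ha : ∀ i, 0 < a i) (k : ℕ) (i : ℤ) (N : ℕ) (h : |i| + k ≤ N) :
    ∑ y ∈ Om d N k, Lam d a k i y = 1 := by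
  induction k generalizing i with
  | zero =>
    have h1 : |i| ≤ N := by simpa using h
    have h2 : ∑ y ∈ Om d N 0, Lam d a 0 i y =
        ∑ y ∈ Finset.Icc (-(N : ℤ)) N, (if y = i then (1 : ℝ) else 0) := rfl
    rw [h2, Finset.sum_ite_eq', if_pos]
    rw [Finset.mem_Icc]
    exact abs_le.1 h1
  | succ k ih =>
    have h0 : |i| + (k + 1) ≤ N := by
      push_cast at h
      exact h
    have h1 : |i - 1| ≤ |i| + 1 := by
      have := abs_sub i 1
      simpa using this
    have h2 : |i + 1| ≤ |i| + 1 := by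
      have := abs_add_le i 1
      simpa using this
    have h3 : ∑ y ∈ Om d N (k + 1), Lam d a (k + 1) i y =
        ∑ y ∈ Fintype.piFinset (fun _ : Fin d => Om d N k), ∏ c : Fin d, mixt a (Lam d a k) i (y c) := rfl
    rw [h3, ← Finset.prod_univ_sum (fun _ : Fin d => Om d N k) (fun _ x => mixt a (Lam d a k) i x)]
    refine Finset.prod_eq_one fun c _ => ?_
    exact mixt_sum ha i _ (ih _ (by linarith)) (ih _ (by linarith)) (ih _ (by linarith))

theorem LamB_nonneg (ha : ∀ i, 0 < a i) (k m : ℕ) (g : V d → ℤ) (y : Lv d (k + m)) :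
    0 ≤ LamB d a k m g y := by
  induction m generalizing g with
  | zero => exact Lam_nonneg ha k (g []) y
  | succ m ih => exact Finset.prod_nonneg fun c _ => ih (fun w => g (c :: w)) (y c)

theorem LamB_sum (ha : ∀ i, 0 < a i) (k m : ℕ) (g : V d → ℤ) :
    ∃ N0 : ℕ, ∀ N ≥ N0, ∑ y ∈ Om d N (k + m), LamB d a k m g y = 1 := by
  induction m generalizing g with
  | zero =>
    refine ⟨(g []).natAbs + k, fun N hN => Lam_sum ha k (g []) N ?_⟩
    have h1 : (((g []).natAbs + k : ℕ) : ℤ) ≤ N := by exact_mod_cast hN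
    push_cast at h1
    simpa using h1
  | succ m ih =>
    choose N0 hN0 using ih
    refine ⟨∑ c : Fin d, N0 (fun w => g (c :: w)), fun N hN => ?_⟩
    have h3 : ∑ y ∈ Om d N (k + (m + 1)), LamB d a k (m + 1) g y =
        ∑ y ∈ Fintype.piFinset (fun _ : Fin d => Om d N (k + m)),
          ∏ c : Fin d, LamB d a k m (fun w => g (c :: w)) (y c) := rfl
    rw [h3, ← Finset.prod_univ_sum (fun _ : Fin d => Om d N (k + m))
      (fun c x => LamB d a k m (fun w => g (c :: w)) x)]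
    refine Finset.prod_eq_one fun c _ => hN0 _ N (le_trans ?_ hN)
    exact Finset.single_le_sum (f := fun c : Fin d => N0 (fun w => g (c :: w)))
      (fun _ _ => Nat.zero_le _) (Finset.mem_univ c)

theorem hTV_line
    (hL : ∀ i : ℤ, ∀ ε > (0 : ℝ), ∃ k0 : ℕ, ∀ k ≥ k0, ∃ N0 : ℕ, ∀ N ≥ N0,
      ∑ y ∈ Om d N k, |Lam d a k i y - Lam d a k (i + 1) y| ≤ ε) (n : ℕ) :
    ∀ i : ℤ, ∀ ε > (0 : ℝ), ∃ k0 : ℕ, ∀ k ≥ k0, ∃ N0 : ℕ, ∀ N ≥ N0,
      ∑ y ∈ Om d N k, |Lam d a k i y - Lam d a k (i + n) y| ≤ ε := by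
  induction n with
  | zero =>
    intro i ε hε
    refine ⟨0, fun k _ => ⟨0, fun N _ => ?_⟩⟩
    simpa using hε.le
  | succ n ih =>
    intro i ε hε
    obtain ⟨k1, hk1⟩ := ih i (ε / 2) (half_pos hε)
    obtain ⟨k2, hk2⟩ := hL (i + n) (ε / 2) (half_pos hε)
    refine ⟨max k1 k2, fun k hk => ?_⟩
    obtain ⟨N1, hN1⟩ := hk1 k (le_trans (le_max_left _ _) hk)
    obtain ⟨N2, hN2⟩ := hk2 k (le_trans (le_max_right _ _) hk)
    refine ⟨max N1 N2, fun N hN => ?_⟩
    have h1 := hN1 N (le_trans (le_max_left _ _) hN)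
    have h2 := hN2 N (le_trans (le_max_right _ _) hN)
    have h3 : i + ((n + 1 : ℕ) : ℤ) = i + n + 1 := by push_cast; ring
    rw [h3]
    calc ∑ y ∈ Om d N k, |Lam d a k i y - Lam d a k (i + n + 1) y|
        ≤ ∑ y ∈ Om d N k, (|Lam d a k i y - Lam d a k (i + n) y| +
          |Lam d a k (i + n) y - Lam d a k (i + n + 1) y|) :=
          Finset.sum_le_sum fun y _ => abs_sub_le _ _ _
      _ ≤ ε := by
          rw [Finset.sum_add_distrib]
          linarith

theorem hTV_of (ha : ∀ i, 0 < a i)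
    (hL : ∀ i : ℤ, ∀ ε > (0 : ℝ), ∃ k0 : ℕ, ∀ k ≥ k0, ∃ N0 : ℕ, ∀ N ≥ N0,
      ∑ y ∈ Om d N k, |Lam d a k i y - Lam d a k (i + 1) y| ≤ ε) :
    ∀ (m : ℕ) (g g' : V d → ℤ), ∀ ε > (0 : ℝ), ∃ k0 : ℕ, ∀ k ≥ k0, ∃ N0 : ℕ, ∀ N ≥ N0,
      ∑ y ∈ Om d N (k + m), |LamB d a k m g y - LamB d a k m g' y| ≤ ε := by
  intro m
  induction m with
  | zero =>
    intro g g' ε hε
    rcases le_total (g []) (g' []) with h | h
    · obtain ⟨n, hn⟩ := Int.eq_ofNat_of_zero_le (sub_nonneg.2 h)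
      obtain ⟨k0, hk0⟩ := hTV_line hL n (g []) ε hε
      refine ⟨k0, fun k hk => ?_⟩
      obtain ⟨N0, hN0⟩ := hk0 k hk
      refine ⟨N0, fun N hN => ?_⟩
      have h1 := hN0 N hN
      have h2 : g [] + (n : ℤ) = g' [] := by linarith
      rw [h2] at h1
      exact h1
    · obtain ⟨n, hn⟩ := Int.eq_ofNat_of_zero_le (sub_nonneg.2 h)
      obtain ⟨k0, hk0⟩ := hTV_line hL n (g' []) ε hε
      refine ⟨k0, fun k hk => ?_⟩
      obtain ⟨N0, hN0⟩ := hk0 k hk
      refine ⟨N0, fun N hN => ?_⟩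
      have h1 := hN0 N hN
      have h2 : g' [] + (n : ℤ) = g [] := by linarith
      rw [h2] at h1
      refine le_trans (le_of_eq ?_) h1
      refine Finset.sum_congr rfl fun y _ => ?_
      exact abs_sub_comm _ _
  | succ m ih =>
    intro g g' ε hε
    have hd : (0 : ℝ) < d + 1 := by positivity
    have hε' : 0 < ε / (d + 1) := div_pos hε hd
    choose k0 hk0 using fun c : Fin d => ih (fun w => g (c :: w)) (fun w => g' (c :: w)) _ hε'
    refine ⟨∑ c, k0 c, fun k hk => ?_⟩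
    have hkc : ∀ c, k0 c ≤ k := fun c => le_trans
      (Finset.single_le_sum (f := k0) (fun _ _ => Nat.zero_le _) (Finset.mem_univ c)) hk
    choose N0 hN0 using fun c => hk0 c k (hkc c)
    choose N1 hN1 using fun c : Fin d => LamB_sum (d := d) ha k m (fun w => g (c :: w))
    choose N2 hN2 using fun c : Fin d => LamB_sum (d := d) ha k m (fun w => g' (c :: w))
    refine ⟨∑ c, (N0 c + N1 c + N2 c), fun N hN => ?_⟩
    have hNc : ∀ c, N0 c + N1 c + N2 c ≤ N := fun c => le_trans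
      (Finset.single_le_sum (f := fun c => N0 c + N1 c + N2 c) (fun _ _ => Nat.zero_le _)
        (Finset.mem_univ c)) hN
    have key := l1_pi (s := Om d N (k + m)) d (fun c x => LamB d a k m (fun w => g (c :: w)) x)
      (fun c x => LamB d a k m (fun w => g' (c :: w)) x)
      (fun c x _ => LamB_nonneg ha k m _ x) (fun c x _ => LamB_nonneg ha k m _ x)
      (fun c => hN1 c N (by have := hNc c; omega)) (fun c => hN2 c N (by have := hNc c; omega))
    have h1 : ∑ y ∈ Om d N (k + (m + 1)), |LamB d a k (m + 1) g y - LamB d a k (m + 1) g' y| =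
        ∑ y ∈ Fintype.piFinset (fun _ : Fin d => Om d N (k + m)),
          |∏ c, LamB d a k m (fun w => g (c :: w)) (y c) -
            ∏ c, LamB d a k m (fun w => g' (c :: w)) (y c)| := rfl
    rw [h1]
    refine key.trans ?_
    calc ∑ c : Fin d, ∑ x ∈ Om d N (k + m), |LamB d a k m (fun w => g (c :: w)) x -
          LamB d a k m (fun w => g' (c :: w)) x|
        ≤ ∑ _c : Fin d, ε / (d + 1) :=
          Finset.sum_le_sum fun c _ => hN0 c N (by have := hNc c; omega)
      _ = d * (ε / (d + 1)) := by simp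
      _ ≤ (d + 1) * (ε / (d + 1)) := by
          refine mul_le_mul_of_nonneg_right ?_ hε'.le
          linarith
      _ = ε := mul_div_cancel₀ _ hd.ne'

end Pool.H96.LT
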