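import Pool.Agent.H96.LT.Fam

/-!
# Contraction
-/

namespace Pool.H96.LT
open Finset

variable {d : ℕ} {a : ℤ → ℝ}

theorem fam_cross0 (d : ℕ) (a : ℤ → ℝ) (b : Bool) (k : ℕ) :
    fam d a 0 b k 0 = fam d a 0 (!b) k 0 ∧ fam d a 0 b k (-1) = fam d a 0 (!b) k 1 := by
  cases b <;> simp [fam]

theorem fam_cross1 (d : ℕ) (a : ℤ → ℝ) (b : Bool) (k : ℕ) :
    fam d a 1 b k 0 = fam d a 1 (!b) k 1 ∧ fam d a 1 b k (-1) = fam d a 1 (!b) k 2 := by
  cases b <;> simp [fam]

theorem fam_hat_le_one (h : ∀ i, 0 < a i) {c : ℤ} (hc : |c| ≤ 1) (b : Bool) (k N : ℕ) (i : ℤ)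
    (hi : 0 ≤ i) (hN : i + 2 + k ≤ N) {α : ℝ} (h0 : 0 < α) (h1 : α < 1) :
    hat α (Om d N k) (fam d a c b k i) (fam d a c b k (i + 1)) ≤ 1 := by
  refine hat_le_one h0 h1 (fun x _ => fam_nonneg h c b k _ x) (fun x _ => fam_nonneg h c b k _ x)
    (fam_sum h hc b k N _ ?_) (fam_sum h hc b k N _ ?_)
  · rw [abs_of_nonneg hi]; linarith
  · rw [abs_of_nonneg (by linarith)]; linarith

theorem contr0 (W : Weights d a) (hsym : ∀ i, a (-i) = a i) (C : Cert0 d a) :
    ∃ (α ρ : ℝ) (g : ℕ → ℝ), 0 < α ∧ α < 1 ∧ 0 < ρ ∧ ρ < 1 ∧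
      ∀ (k N i : ℕ) (b : Bool), (i : ℤ) + 3 + k ≤ N →
        hat (if i = 0 then α else 1 / 2) (Om d N k) (fam d a 0 b k i) (fam d a 0 b k (i + 1))
          ≤ ρ ^ k * g i := by
  obtain ⟨α, κ, β, ρ, H, g, hα, hα', hκ, hκ1, hβ, hρ, hρ', hg, c1, c2, cH, r0, r1, r2⟩ := C
  have hpos := W.pos
  have hlc := W.lc
  have hα0 : 0 < α := by linarith
  have hc0 : |(0 : ℤ)| ≤ 1 := by norm_num
  have hs : ∀ i, a (0 - i) = a i := by intro i; rw [zero_sub]; exact hsym i
  refine ⟨α, ρ, g, hα0, hα', hρ, hρ', ?_⟩
  intro k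
  induction k with
  | zero =>
    intro N i b hN
    rw [pow_zero, one_mul]
    refine le_trans ?_ (hg i)
    push_cast at hN
    have : ∀ γ : ℝ, 0 < γ → γ < 1 →
        hat γ (Om d N 0) (fam d a 0 b 0 i) (fam d a 0 b 0 (i + 1)) ≤ 1 := fun γ h0 h1 =>
      fam_hat_le_one hpos hc0 b 0 N i (by positivity) (by push_cast; linarith) h0 h1
    split_ifs
    · exact this α hα0 hα'
    · exact this _ (by norm_num) (by norm_num)
  | succ k ih =>
    intro N i b hN
    push_cast at hN
    have hLn : ∀ (b : Bool) (i : ℤ), ∀ x ∈ Om d N k, 0 ≤ fam d a 0 b k i x := fun b i x _ =>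
      fam_nonneg hpos 0 b k i x
    rcases Nat.lt_or_ge i 2 with hi | hi
    · interval_cases i
      · -- row 0
        simp only [if_true, Nat.cast_zero, zero_add]
        have T0 := ih N 0 b (by push_cast; push_cast at hN; linarith)
        have T0' := ih N 0 (!b) (by push_cast; push_cast at hN; linarith)
        have T1 := ih N 1 b (by push_cast; push_cast at hN; linarith)
        simp only [if_true, Nat.cast_zero, zero_add] at T0 T0'
        norm_num at T1
        have U0 := fam_hat_le_one (d := d) hpos hc0 b k N 0 le_rfl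
          (by push_cast at hN; linarith) hα0 hα'
        have U0' := fam_hat_le_one (d := d) hpos hc0 (!b) k N 0 le_rfl
          (by push_cast at hN; linarith) hα0 hα'
        have U1 := fam_hat_le_one (d := d) hpos hc0 b k N 1 (by norm_num)
          (by push_cast at hN; linarith) (α := 1 / 2) (by norm_num) (by norm_num)
        rw [zero_add] at U0 U0'
        norm_num at U1
        have main := hat_zero (s := Om d N k) (L := fam d a 0 b k) hpos (by simpa using hsym 1)
          (hLn b) hα hα' hβ c1 c2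
        have cr := fam_cross0 d a b k
        have e : hat α (Om d N k) (fam d a 0 b k 0) (fam d a 0 b k (-1))
            = hat α (Om d N k) (fam d a 0 (!b) k 0) (fam d a 0 (!b) k 1) := by
          rw [← cr.1, cr.2]
        rw [e] at main
        have pr0 := pr_pos hpos 0
        have pr1 := pr_pos hpos 1
        have k0 := kk_pos hpos 0
        have hα1 : 0 < 1 - α := by linarith
        have A1 : 0 ≤ pr a 0 * (1 - α) / α := by positivity
        have A2 : 0 ≤ kk a 0 ^ 2 / β := by positivity
        have A3 : 0 ≤ 2 * α * pr a 1 := by positivity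
        set t0 := hat α (Om d N k) (fam d a 0 b k 0) (fam d a 0 b k 1) with ht0
        set t0' := hat α (Om d N k) (fam d a 0 (!b) k 0) (fam d a 0 (!b) k 1) with ht0'
        set t1 := hat (1 / 2) (Om d N k) (fam d a 0 b k 1) (fam d a 0 b k 2) with ht1
        have n0 : 0 ≤ t0 := hat_nonneg hα0 hα' (hLn _ _) (hLn _ _)
        have hH : hat α (Om d N k) (mx a (fam d a 0 b k) 0) (mx a (fam d a 0 b k) 1) ≤ H := by
          refine main.trans (le_trans ?_ cH)
          have i1 := mul_le_mul_of_nonneg_left U0' A1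
          have i2 := mul_le_mul_of_nonneg_left U0 A2
          have i3 := mul_le_mul_of_nonneg_left U1 A3
          linarith
        have hH0 : 0 ≤ H := by
          refine le_trans ?_ cH
          linarith
        have step := fam_step (d := d) (a := a) hpos hc0 hs b k N 0 le_rfl
          (by push_cast at hN; linarith) hα0 hα' hκ hκ1 (by nlinarith) (H := H)
          (by rw [zero_add]; exact hH)
        rw [zero_add] at step
        have hC : 0 ≤ ∑ m ∈ range d, (1 + κ * H) ^ m := by
          refine sum_nonneg fun m _ => ?_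
          positivity
        have hb : hat α (Om d N k) (mx a (fam d a 0 b k) 0) (mx a (fam d a 0 b k) 1) ≤
            ρ ^ k * ((pr a 0 * (1 - α) / α + kk a 0 ^ 2 / β) * g 0 + 2 * α * pr a 1 * g 1) := by
          refine main.trans ?_
          have i1 := mul_le_mul_of_nonneg_left T0' A1
          have i2 := mul_le_mul_of_nonneg_left T0 A2
          have i3 := mul_le_mul_of_nonneg_left T1 A3
          refine (add_le_add (add_le_add i1 i2) i3).trans (le_of_eq ?_)
          ring
        refine step.trans ?_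
        calc (∑ m ∈ range d, (1 + κ * H) ^ m) *
              hat α (Om d N k) (mx a (fam d a 0 b k) 0) (mx a (fam d a 0 b k) 1)
            ≤ (∑ m ∈ range d, (1 + κ * H) ^ m) * (ρ ^ k *
              ((pr a 0 * (1 - α) / α + kk a 0 ^ 2 / β) * g 0 + 2 * α * pr a 1 * g 1)) :=
              mul_le_mul_of_nonneg_left hb hC
          _ = ρ ^ k * ((∑ m ∈ range d, (1 + κ * H) ^ m) *
              ((pr a 0 * (1 - α) / α + kk a 0 ^ 2 / β) * g 0 + 2 * α * pr a 1 * g 1)) := by ring
          _ ≤ ρ ^ k * (ρ * g 0) := mul_le_mul_of_nonneg_left r0 (by positivity)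
          _ = ρ ^ (k + 1) * g 0 := by ring
      · -- row 1
        have e0 : (1 : ℕ) ≠ 0 := one_ne_zero
        simp only [if_neg e0, Nat.cast_one]
        have T0 := ih N 0 b (by push_cast; push_cast at hN; linarith)
        have T1 := ih N 1 b (by push_cast; push_cast at hN; linarith)
        have T2 := ih N 2 b (by push_cast; push_cast at hN; linarith)
        simp only [if_true, Nat.cast_zero, zero_add] at T0
        norm_num at T1 T2
        have main := hat_one (s := Om d N k) (L := fam d a 0 b k) hpos hlc (hLn b) hα hα'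
        have l1 := pl_pos hpos 1
        have k1 := kk_pos hpos 1
        have q2 := pr_pos hpos 2
        have hα1 : 0 < 1 - α := by linarith
        have A1 : 0 ≤ pl a 1 / (2 * (1 - α)) := by positivity
        have step := fam_step (d := d) (a := a) hpos hc0 hs b k N 1 (by norm_num)
          (by push_cast at hN; linarith) (α := 1 / 2) (κ := 0) (by norm_num) (by norm_num) le_rfl
          (by norm_num) (by norm_num) le_rfl
        have e2 : (1 + 1 : ℤ) = 2 := by norm_num
        rw [e2] at step
        rw [e2]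
        simp only [zero_mul, add_zero, one_pow, sum_const, card_range, nsmul_eq_mul, mul_one]
          at step
        refine step.trans ?_
        have hb : hat (1 / 2) (Om d N k) (mx a (fam d a 0 b k) 1) (mx a (fam d a 0 b k) 2) ≤
            ρ ^ k * (pl a 1 / (2 * (1 - α)) * g 0 + kk a 1 * g 1 + pr a 2 * g 2) := by
          refine main.trans ?_
          have i1 := mul_le_mul_of_nonneg_left T0 A1
          have i2 := mul_le_mul_of_nonneg_left T1 k1.le
          have i3 := mul_le_mul_of_nonneg_left T2 q2.le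
          refine (add_le_add (add_le_add i1 i2) i3).trans (le_of_eq ?_)
          ring
        calc (d : ℝ) * hat (1 / 2) (Om d N k) (mx a (fam d a 0 b k) 1) (mx a (fam d a 0 b k) 2)
            ≤ d * (ρ ^ k * (pl a 1 / (2 * (1 - α)) * g 0 + kk a 1 * g 1 + pr a 2 * g 2)) :=
              mul_le_mul_of_nonneg_left hb (by positivity)
          _ = ρ ^ k * (d * (pl a 1 / (2 * (1 - α)) * g 0 + kk a 1 * g 1 + pr a 2 * g 2)) := by
              ring
          _ ≤ ρ ^ k * (ρ * g 1) := mul_le_mul_of_nonneg_left r1 (by positivity)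
          _ = ρ ^ (k + 1) * g 1 := by ring
    · -- rows i ≥ 2
      obtain ⟨j, rfl⟩ : ∃ j, i = j + 1 := ⟨i - 1, by omega⟩
      have e0 : j + 1 ≠ 0 := by omega
      have e1 : j ≠ 0 := by omega
      have e3 : j + 2 ≠ 0 := by omega
      simp only [if_neg e0]
      have T0 := ih N j b (by push_cast; push_cast at hN; linarith)
      have T1 := ih N (j + 1) b (by push_cast; push_cast at hN; linarith)
      have T2 := ih N (j + 2) b (by push_cast; push_cast at hN; linarith)
      rw [if_neg e1] at T0
      rw [if_neg e0] at T1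
      rw [if_neg e3] at T2
      have main := hat_tail (s := Om d N k) (L := fam d a 0 b k) hpos hlc (hLn b)
        (((j + 1 : ℕ) : ℤ))
      have l1 := pl_pos hpos ((j + 1 : ℕ) : ℤ)
      have k1 := kk_pos hpos ((j + 1 : ℕ) : ℤ)
      have q2 := pr_pos hpos (((j + 1 : ℕ) : ℤ) + 1)
      have step := fam_step (d := d) (a := a) hpos hc0 hs b k N ((j + 1 : ℕ) : ℤ) (by positivity)
        (by push_cast at hN; push_cast; linarith) (α := 1 / 2) (κ := 0) (by norm_num)
        (by norm_num) le_rfl
        (by norm_num) (by norm_num) le_rfl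
      simp only [zero_mul, add_zero, one_pow, sum_const, card_range, nsmul_eq_mul, mul_one]
        at step
      refine step.trans ?_
      have f0 : ((j + 1 : ℕ) : ℤ) - 1 = (j : ℤ) := by push_cast; ring
      have f1 : (j : ℤ) + 1 = ((j + 1 : ℕ) : ℤ) := by push_cast; ring
      have f2 : ((j + 1 : ℕ) : ℤ) + 1 = ((j + 2 : ℕ) : ℤ) := by push_cast; ring
      have f3 : ((j + 1 : ℕ) : ℤ) + 2 = ((j + 2 : ℕ) : ℤ) + 1 := by push_cast; ring
      rw [f1] at T0
      rw [f0, f3] at main
      have row := r2 (j + 1) hi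
      have f4 : j + 1 - 1 = j := by omega
      have f5 : j + 1 + 1 = j + 2 := by omega
      rw [f4, f5] at row
      rw [f2] at T1 main step q2 row ⊢
      have hb : hat (1 / 2) (Om d N k) (mx a (fam d a 0 b k) ((j + 1 : ℕ) : ℤ))
          (mx a (fam d a 0 b k) ((j + 2 : ℕ) : ℤ)) ≤
          ρ ^ k * (pl a ((j + 1 : ℕ) : ℤ) * g j + kk a ((j + 1 : ℕ) : ℤ) * g (j + 1)
            + pr a ((j + 2 : ℕ) : ℤ) * g (j + 2)) := by
        refine main.trans ?_
        have i1 := mul_le_mul_of_nonneg_left T0 l1.le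
        have i2 := mul_le_mul_of_nonneg_left T1 k1.le
        have i3 := mul_le_mul_of_nonneg_left T2 q2.le
        refine (add_le_add (add_le_add i1 i2) i3).trans (le_of_eq ?_)
        ring
      calc (d : ℝ) * hat (1 / 2) (Om d N k) (mx a (fam d a 0 b k) ((j + 1 : ℕ) : ℤ))
            (mx a (fam d a 0 b k) ((j + 2 : ℕ) : ℤ))
          ≤ d * (ρ ^ k * (pl a ((j + 1 : ℕ) : ℤ) * g j + kk a ((j + 1 : ℕ) : ℤ) * g (j + 1)
            + pr a ((j + 2 : ℕ) : ℤ) * g (j + 2))) :=
            mul_le_mul_of_nonneg_left hb (by positivity)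
        _ = ρ ^ k * (d * (pl a ((j + 1 : ℕ) : ℤ) * g j + kk a ((j + 1 : ℕ) : ℤ) * g (j + 1)
            + pr a ((j + 2 : ℕ) : ℤ) * g (j + 2))) := by
            ring
        _ ≤ ρ ^ k * (ρ * g (j + 1)) := mul_le_mul_of_nonneg_left row (by positivity)
        _ = ρ ^ (k + 1) * g (j + 1) := by ring

end Pool.H96.LT
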