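import Pool.Agent.H96.LT.Contr

/-!
# Contraction for the boundary set {0,1}
-/

namespace Pool.H96.LT
open Finset

variable {d : ℕ} {a : ℤ → ℝ}

theorem contr1 (W : Weights d a) (hsym : ∀ i, a (1 - i) = a i) (C : Cert1 d a) :
    ∃ (ρ : ℝ) (g : ℕ → ℝ), 0 < ρ ∧ ρ < 1 ∧
      ∀ (k N i : ℕ) (b : Bool), (i : ℤ) + 3 + k ≤ N →
        hat (1 / 2) (Om d N k) (fam d a 1 b k i) (fam d a 1 b k (i + 1)) ≤ ρ ^ k * g i := by
  obtain ⟨ρ, g, hρ, hρ', hg, r0, r1⟩ := C
  have hpos := W.pos
  have hlc := W.lc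
  have hc0 : |(1 : ℤ)| ≤ 1 := by norm_num
  have h0 := W.zero
  have hs0 : a 1 = 1 := by
    have := hsym 0
    rw [sub_zero] at this
    rw [this, h0]
  have hs1 : a (-1) = a 2 := by
    have := hsym 2
    norm_num at this
    exact this
  refine ⟨ρ, g, hρ, hρ', ?_⟩
  intro k
  induction k with
  | zero =>
    intro N i b hN
    rw [pow_zero, one_mul]
    refine le_trans ?_ (hg i)
    push_cast at hN
    exact fam_hat_le_one hpos hc0 b 0 N i (by positivity) (by push_cast; linarith) (by norm_num)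
      (by norm_num)
  | succ k ih =>
    intro N i b hN
    push_cast at hN
    have hLn : ∀ (b : Bool) (i : ℤ), ∀ x ∈ Om d N k, 0 ≤ fam d a 1 b k i x := fun b i x _ =>
      fam_nonneg hpos 1 b k i x
    rcases Nat.eq_zero_or_pos i with hi | hi
    · subst hi
      simp only [Nat.cast_zero, zero_add]
      have T0 := ih N 0 b (by push_cast; push_cast at hN; linarith)
      have T1 := ih N 1 b (by push_cast; push_cast at hN; linarith)
      have T1' := ih N 1 (!b) (by push_cast; push_cast at hN; linarith)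
      simp only [Nat.cast_zero, zero_add] at T0
      norm_num at T1 T1'
      have main := hat_zero' (s := Om d N k) (L := fam d a 1 b k) hpos hlc h0 hs0 hs1 (hLn b)
      have cr := fam_cross1 d a b k
      have e : hat (1 / 2) (Om d N k) (fam d a 1 b k 0) (fam d a 1 b k (-1))
          = hat (1 / 2) (Om d N k) (fam d a 1 (!b) k 1) (fam d a 1 (!b) k 2) := by
        rw [← cr.1, cr.2]
      rw [e] at main
      have pr1 := pr_pos hpos 1
      have hv : a 2 ≤ 1 := by
        have := hlc 1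
        norm_num [h0, hs0] at this
        exact this
      have hv0 := hpos 2
      have epr1 : pr a 1 = a 2 / (2 + a 2) := by
        unfold pr sS; norm_num [h0, hs0, hs1]
      have hx : pr a 1 < 1 / 2 := by
        rw [epr1, div_lt_iff₀ (by positivity)]; linarith
      have hb' : 0 < 1 - 2 * pr a 1 := by linarith
      have A2 : 0 ≤ pr a 1 ^ 2 / (1 - 2 * pr a 1) := by positivity
      have step := fam_step (d := d) (a := a) hpos hc0 hsym b k N 0 le_rfl
        (by push_cast at hN; linarith) (α := 1 / 2) (κ := 0) (by norm_num) (by norm_num) le_rfl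
        (by norm_num) (by norm_num) le_rfl
      simp only [zero_mul, add_zero, one_pow, sum_const, card_range, nsmul_eq_mul, mul_one,
        zero_add] at step
      refine step.trans ?_
      have hb : hat (1 / 2) (Om d N k) (mx a (fam d a 1 b k) 0) (mx a (fam d a 1 b k) 1) ≤
          ρ ^ k * (pr a 1 ^ 2 / (1 - 2 * pr a 1) * g 0 + 2 * pr a 1 * g 1) := by
        refine main.trans ?_
        have i1 := mul_le_mul_of_nonneg_left T1' pr1.le
        have i2 := mul_le_mul_of_nonneg_left T0 A2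
        have i3 := mul_le_mul_of_nonneg_left T1 pr1.le
        refine (add_le_add (add_le_add i1 i2) i3).trans (le_of_eq ?_)
        ring
      calc (d : ℝ) * hat (1 / 2) (Om d N k) (mx a (fam d a 1 b k) 0) (mx a (fam d a 1 b k) 1)
          ≤ d * (ρ ^ k * (pr a 1 ^ 2 / (1 - 2 * pr a 1) * g 0 + 2 * pr a 1 * g 1)) :=
            mul_le_mul_of_nonneg_left hb (by positivity)
        _ = ρ ^ k * (d * (pr a 1 ^ 2 / (1 - 2 * pr a 1) * g 0 + 2 * pr a 1 * g 1)) := by
            ring
        _ ≤ ρ ^ k * (ρ * g 0) := mul_le_mul_of_nonneg_left r0 (by positivity)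
        _ = ρ ^ (k + 1) * g 0 := by ring
    · -- rows i ≥ 1
      obtain ⟨j, rfl⟩ : ∃ j, i = j + 1 := ⟨i - 1, by omega⟩
      have T0 := ih N j b (by push_cast; push_cast at hN; linarith)
      have T1 := ih N (j + 1) b (by push_cast; push_cast at hN; linarith)
      have T2 := ih N (j + 2) b (by push_cast; push_cast at hN; linarith)
      have main := hat_tail (s := Om d N k) (L := fam d a 1 b k) hpos hlc (hLn b)
        (((j + 1 : ℕ) : ℤ))
      have l1 := pl_pos hpos ((j + 1 : ℕ) : ℤ)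
      have k1 := kk_pos hpos ((j + 1 : ℕ) : ℤ)
      have q2 := pr_pos hpos (((j + 1 : ℕ) : ℤ) + 1)
      have step := fam_step (d := d) (a := a) hpos hc0 hsym b k N ((j + 1 : ℕ) : ℤ)
        (by positivity)
        (by push_cast at hN; push_cast; linarith) (α := 1 / 2) (κ := 0) (by norm_num)
        (by norm_num) le_rfl
        (by norm_num) (by norm_num) le_rfl
      simp only [zero_mul, add_zero, one_pow, sum_const, card_range, nsmul_eq_mul, mul_one]
        at step
      refine step.trans ?_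
      have f0 : ((j + 1 : ℕ) : ℤ) - 1 = (j : ℤ) := by push_cast; ring
      have f1 : (j : ℤ) + 1 = ((j + 1 : ℕ) : ℤ) := by push_cast; ring
      have f2 : ((j + 1 : ℕ) : ℤ) + 1 = ((j + 2 : ℕ) : ℤ) := by push_cast; ring
      have f3 : ((j + 1 : ℕ) : ℤ) + 2 = ((j + 2 : ℕ) : ℤ) + 1 := by push_cast; ring
      rw [f1] at T0
      rw [f0, f3] at main
      have row := r1 (j + 1) hi
      have f4 : j + 1 - 1 = j := by omega
      have f5 : j + 1 + 1 = j + 2 := by omega
      rw [f4, f5] at row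
      rw [f2] at T1 main q2 row ⊢
      have hb : hat (1 / 2) (Om d N k) (mx a (fam d a 1 b k) ((j + 1 : ℕ) : ℤ))
          (mx a (fam d a 1 b k) ((j + 2 : ℕ) : ℤ)) ≤
          ρ ^ k * (pl a ((j + 1 : ℕ) : ℤ) * g j + kk a ((j + 1 : ℕ) : ℤ) * g (j + 1)
            + pr a ((j + 2 : ℕ) : ℤ) * g (j + 2)) := by
        refine main.trans ?_
        have i1 := mul_le_mul_of_nonneg_left T0 l1.le
        have i2 := mul_le_mul_of_nonneg_left T1 k1.le
        have i3 := mul_le_mul_of_nonneg_left T2 q2.le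
        refine (add_le_add (add_le_add i1 i2) i3).trans (le_of_eq ?_)
        ring
      calc (d : ℝ) * hat (1 / 2) (Om d N k) (mx a (fam d a 1 b k) ((j + 1 : ℕ) : ℤ))
            (mx a (fam d a 1 b k) ((j + 2 : ℕ) : ℤ))
          ≤ d * (ρ ^ k * (pl a ((j + 1 : ℕ) : ℤ) * g j + kk a ((j + 1 : ℕ) : ℤ) * g (j + 1)
            + pr a ((j + 2 : ℕ) : ℤ) * g (j + 2))) :=
            mul_le_mul_of_nonneg_left hb (by positivity)
        _ = ρ ^ k * (d * (pl a ((j + 1 : ℕ) : ℤ) * g j + kk a ((j + 1 : ℕ) : ℤ) * g (j + 1)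
            + pr a ((j + 2 : ℕ) : ℤ) * g (j + 2))) := by
            ring
        _ ≤ ρ ^ k * (ρ * g (j + 1)) := mul_le_mul_of_nonneg_left row (by positivity)
        _ = ρ ^ (k + 1) * g (j + 1) := by ring

/-- from the contraction to the total variation distance -/
theorem tv_of_contr {c : ℤ} (hc : |c| ≤ 1) (hpos : ∀ i, 0 < a i) (αf : ℕ → ℝ)
    (hαf : ∀ i, 0 < αf i ∧ αf i < 1) {ρ : ℝ} {g : ℕ → ℝ} (hρ : 0 < ρ) (hρ' : ρ < 1)
    (h : ∀ (k N i : ℕ) (b : Bool), (i : ℤ) + 3 + k ≤ N →
        hat (αf i) (Om d N k) (fam d a c b k i) (fam d a c b k (i + 1)) ≤ ρ ^ k * g i)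
    (b : Bool) (i : ℕ) : ∀ ε > 0, ∃ k0 : ℕ, ∀ k ≥ k0, ∃ N0 : ℕ, ∀ N ≥ N0,
      ∑ y ∈ Om d N k, |fam d a c b k i y - fam d a c b k (i + 1) y| ≤ ε := by
  intro ε hε
  obtain ⟨h0, h1⟩ := hαf i
  have h1' : 0 < 1 - αf i := by linarith
  set K := 1 / (αf i * (1 - αf i)) with hK
  have hKpos : 0 < K := by positivity
  have hlim : Filter.Tendsto (fun k : ℕ => K * (ρ ^ k * g i)) Filter.atTop (nhds 0) := by
    have := (tendsto_pow_atTop_nhds_zero_of_lt_one hρ.le hρ').mul_const (g i)
    have := this.const_mul K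
    simpa using this
  have hev : ∀ᶠ k : ℕ in Filter.atTop, K * (ρ ^ k * g i) < ε ^ 2 :=
    hlim.eventually (gt_mem_nhds (by positivity))
  obtain ⟨k0, hk0⟩ := Filter.eventually_atTop.mp hev
  refine ⟨k0, fun k hk => ⟨i + 3 + k, fun N hN => ?_⟩⟩
  have hN' : (i : ℤ) + 3 + k ≤ N := by exact_mod_cast hN
  have hh := h k N i b hN'
  have sq := l1_sq (s := Om d N k) h0 h1 (fun x _ => fam_nonneg hpos c b k i x)
    (fun x _ => fam_nonneg hpos c b k (i + 1) x)
    (fam_sum hpos hc b k N i (by rw [abs_of_nonneg (by positivity)]; linarith))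
    (fam_sum hpos hc b k N (i + 1) (by rw [abs_of_nonneg (by positivity)]; linarith))
  have h2 : (∑ y ∈ Om d N k, |fam d a c b k i y - fam d a c b k (i + 1) y|) ^ 2 ≤ ε ^ 2 := by
    refine sq.trans ?_
    have := mul_le_mul_of_nonneg_left hh hKpos.le
    exact this.trans (hk0 k hk).le
  exact abs_le_of_sq_le_sq' h2 hε.le |>.2

end Pool.H96.LT
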