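import Mathlib

/-!
# Uniform Lipschitz functions on the d-ary tree: definitions

Vertices of the `d`-ary tree are words over `Fin d`; the root is the empty word and the
children of the vertex `v` are the words `v ++ [c]`.
-/

open MeasureTheory Filter Topology

namespace Pool.H96.LT

/-- The vertices of the `d`-ary tree. -/
abbrev V (d : ℕ) := List (Fin d)

/-- `f` is 1-Lipschitz on the subtree of vertices of depth at most `n`. -/
def LipUpTo (d n : ℕ) (f : V d → ℤ) : Prop :=
  ∀ (v : V d) (c : Fin d), v.length < n → |f (v ++ [c]) - f v| ≤ 1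

/-- `f` is 1-Lipschitz on the whole tree. -/
def Lip (d : ℕ) (f : V d → ℤ) : Prop :=
  ∀ (v : V d) (c : Fin d), |f (v ++ [c]) - f v| ≤ 1

/-- The Lipschitz functions on the finite tree of depth `n` with all leaf values in `S`
(a function on the finite tree is extended by `0` to the other vertices). -/
def Conf (d n : ℕ) (S : Set ℤ) : Set (V d → ℤ) :=
  {f | LipUpTo d n f ∧ (∀ v : V d, v.length = n → f v ∈ S) ∧ ∀ v : V d, n < v.length → f v = 0}

/-- `μ` is the local limit of the uniform measures `μ_{n,d}^S`: for every finite set `U` of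
vertices and every pattern `g` the probability that a uniform element of `Conf d n S` agrees
with `g` on `U` converges to the `μ`-probability of the same event. -/
def IsLocalLimit (d : ℕ) (S : Set ℤ) (μ : Measure (V d → ℤ)) : Prop :=
  ∀ (U : Finset (V d)) (g : V d → ℤ),
    Tendsto (fun n : ℕ => (({f ∈ Conf d n S | ∀ v ∈ U, f v = g v}.ncard : ℝ)
        / ((Conf d n S).ncard : ℝ))) atTop
      (𝓝 (μ.real {f | ∀ v ∈ U, f v = g v}))

/-- The Lipschitz functions on the tree that agree with `f` outside `U`. -/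
def Ext (d : ℕ) (U : Finset (V d)) (f : V d → ℤ) : Set (V d → ℤ) :=
  {g | Lip d g ∧ ∀ v, v ∉ U → g v = f v}

/-- Gibbs measures for the uniform Lipschitz specification (DLR equations): `μ` is a
probability measure on Lipschitz functions, and for every finite vertex set `U`
resampling `f` on `U` uniformly among the values which keep it Lipschitz preserves `μ`. -/
def IsGibbs (d : ℕ) (μ : Measure (V d → ℤ)) : Prop :=
  IsProbabilityMeasure μ ∧ (∀ᵐ f ∂μ, Lip d f) ∧
    ∀ (U : Finset (V d)) (E : Set (V d → ℤ)), MeasurableSet E →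
      μ E = ∫⁻ f, ((Ext d U f ∩ E).ncard : ENNReal) / ((Ext d U f).ncard : ENNReal) ∂μ

/-- Extremal Gibbs measures: not a non-trivial mixture of two distinct Gibbs measures. -/
def IsExtremalGibbs (d : ℕ) (μ : Measure (V d → ℤ)) : Prop :=
  IsGibbs d μ ∧ ∀ ν₁ ν₂ : Measure (V d → ℤ), IsGibbs d ν₁ → IsGibbs d ν₂ →
    ∀ t : ENNReal, 0 < t → t < 1 → μ = t • ν₁ + (1 - t) • ν₂ → ν₁ = ν₂

/-! ### Auxiliary notions (not needed to read the result) -/

/-- weight of the pattern `g` on the ball of radius `m` with boundary weights `b` -/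
noncomputable def R (d : ℕ) : ℕ → (ℤ → ℝ) → (V d → ℤ) → ℝ
  | 0, b, g => b (g [])
  | m + 1, b, g => ∏ c : Fin d, if |g [c] - g []| ≤ 1 then R d m b (fun w => g (c :: w)) else 0

/-- agreement on the ball of radius `m` -/
def pat (d m : ℕ) (g : V d → ℤ) : Set (V d → ℤ) := {f | ∀ v : V d, v.length ≤ m → f v = g v}

/-- marginals of `μ` on balls are given by the boundary weights `a` -/
structure Marg (d : ℕ) (a : ℤ → ℝ) (w : ℕ → ℝ) (μ : Measure (V d → ℤ)) : Prop where
  pos : ∀ i, 0 < a i
  wpos : ∀ m, 0 < w m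
  fix : ∀ i, a i = ((a (i - 1) + a i + a (i + 1)) / (a (-1) + a 0 + a 1)) ^ d
  marg : ∀ m g, μ.real (pat d m g) = w m * R d m a g

/-- level-`k` values below a vertex -/
def Lv (d : ℕ) : ℕ → Type
  | 0 => ℤ
  | k + 1 => Fin d → Lv d k

/-- the level-`k` values of a configuration -/
def lvl (d : ℕ) : (k : ℕ) → (V d → ℤ) → Lv d k
  | 0, f => f []
  | k + 1, f => fun c => lvl d k (fun w => f (c :: w))

/-- transition probabilities of the tree-indexed chain -/
noncomputable def P (a : ℤ → ℝ) (i j : ℤ) : ℝ :=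
  if |i - j| ≤ 1 then a j / (a (i - 1) + a i + a (i + 1)) else 0

/-- mixture over the child's value -/
noncomputable def mixt {X : Type} (a : ℤ → ℝ) (L : ℤ → X → ℝ) (i : ℤ) (x : X) : ℝ :=
  (a (i - 1) * L (i - 1) x + a i * L i x + a (i + 1) * L (i + 1) x)
    / (a (i - 1) + a i + a (i + 1))

/-- the law of the level-`k` values of a subtree whose top vertex has value `i` -/
noncomputable def Lam (d : ℕ) (a : ℤ → ℝ) : (k : ℕ) → ℤ → Lv d k → ℝ
  | 0, i, y => if (show ℤ from y) = i then 1 else 0
  | k + 1, i, y => ∏ c : Fin d, mixt a (Lam d a k) i (y c)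

/-- level values bounded by `N` -/
noncomputable def Om (d : ℕ) (N : ℕ) : (k : ℕ) → Finset (Lv d k)
  | 0 => (Finset.Icc (-(N : ℤ)) N : Finset ℤ)
  | k + 1 => Fintype.piFinset (fun _ : Fin d => Om d N k)

/-- law of the level `k + m` values given the pattern `g` on the ball of radius `m` -/
noncomputable def LamB (d : ℕ) (a : ℤ → ℝ) (k : ℕ) : (m : ℕ) → (V d → ℤ) → Lv d (k + m) → ℝ
  | 0, g, y => Lam d a k (g []) y
  | m + 1, g, y => ∏ c : Fin d, LamB d a k m (fun w => g (c :: w)) (y c)

end Pool.H96.LT
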