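import Pool.Agent.H96.LT.DivDefs

/-!
# Basic properties of the divergence
-/

namespace Pool.H96.LT
open Finset

variable {X : Type} {α : ℝ} {s : Finset X} {p q : X → ℝ}

theorem den_nonneg (h0 : 0 < α) (h1 : α < 1) {x y : ℝ} (hx : 0 ≤ x) (hy : 0 ≤ y) :
    0 ≤ α * x + (1 - α) * y := by
  have : 0 ≤ 1 - α := by linarith
  positivity

theorem den_zero (h0 : 0 < α) (h1 : α < 1) {x y : ℝ} (hx : 0 ≤ x) (hy : 0 ≤ y)
    (e : α * x + (1 - α) * y = 0) : x = 0 ∧ y = 0 := by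
  have h'' : 0 < 1 - α := by linarith
  have e1 : 0 ≤ α * x := by positivity
  have e2 : 0 ≤ (1 - α) * y := by positivity
  have e3 : α * x = 0 := by linarith
  have e4 : (1 - α) * y = 0 := by linarith
  constructor
  · rcases mul_eq_zero.mp e3 with h | h
    · linarith
    · exact h
  · rcases mul_eq_zero.mp e4 with h | h
    · linarith
    · exact h

theorem hat_nonneg (h0 : 0 < α) (h1 : α < 1) (hp : ∀ x ∈ s, 0 ≤ p x) (hq : ∀ x ∈ s, 0 ≤ q x) :
    0 ≤ hat α s p q := by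
  unfold hat
  have : 0 ≤ 1 - α := by linarith
  refine mul_nonneg (by positivity) (sum_nonneg fun x hx => ?_)
  exact div_nonneg (sq_nonneg _) (den_nonneg h0 h1 (hp x hx) (hq x hx))

theorem hat_eq (h0 : 0 < α) (h1 : α < 1) (hp : ∀ x ∈ s, 0 ≤ p x) (hq : ∀ x ∈ s, 0 ≤ q x)
    (sp : ∑ x ∈ s, p x = 1) (sq : ∑ x ∈ s, q x = 1) :
    hat α s p q = 1 - ∑ x ∈ s, p x * q x / (α * p x + (1 - α) * q x) := by
  unfold hat
  rw [mul_sum]
  have : ∀ x ∈ s, α * (1 - α) * ((p x - q x) ^ 2 / (α * p x + (1 - α) * q x))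
      = (1 - α) * p x + α * q x - p x * q x / (α * p x + (1 - α) * q x) := by
    intro x hx
    rcases eq_or_ne (α * p x + (1 - α) * q x) 0 with e | e
    · obtain ⟨e1, e2⟩ := den_zero h0 h1 (hp x hx) (hq x hx) e
      simp [e1, e2]
    · field_simp
      ring
  rw [sum_congr rfl this, sum_sub_distrib, sum_add_distrib, ← mul_sum, ← mul_sum, sp, sq]
  ring

theorem hat_le_one (h0 : 0 < α) (h1 : α < 1) (hp : ∀ x ∈ s, 0 ≤ p x) (hq : ∀ x ∈ s, 0 ≤ q x)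
    (sp : ∑ x ∈ s, p x = 1) (sq : ∑ x ∈ s, q x = 1) : hat α s p q ≤ 1 := by
  rw [hat_eq h0 h1 hp hq sp sq]
  have : 0 ≤ ∑ x ∈ s, p x * q x / (α * p x + (1 - α) * q x) :=
    sum_nonneg fun x hx => div_nonneg (mul_nonneg (hp x hx) (hq x hx))
      (den_nonneg h0 h1 (hp x hx) (hq x hx))
  linarith

theorem l1_sq (h0 : 0 < α) (h1 : α < 1) (hp : ∀ x ∈ s, 0 ≤ p x) (hq : ∀ x ∈ s, 0 ≤ q x)
    (sp : ∑ x ∈ s, p x = 1) (sq : ∑ x ∈ s, q x = 1) :
    (∑ x ∈ s, |p x - q x|) ^ 2 ≤ (1 / (α * (1 - α))) * hat α s p q := by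
  have h2 : 0 < 1 - α := by linarith
  have hM : ∑ x ∈ s, (α * p x + (1 - α) * q x) = 1 := by
    rw [sum_add_distrib, ← mul_sum, ← mul_sum, sp, sq]; ring
  have key := Finset.sum_mul_sq_le_sq_mul_sq s
    (fun x => |p x - q x| / Real.sqrt (α * p x + (1 - α) * q x))
    (fun x => Real.sqrt (α * p x + (1 - α) * q x))
  have e1 : ∑ x ∈ s, |p x - q x| / Real.sqrt (α * p x + (1 - α) * q x)
      * Real.sqrt (α * p x + (1 - α) * q x) = ∑ x ∈ s, |p x - q x| := by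
    refine sum_congr rfl fun x hx => ?_
    rcases eq_or_ne (α * p x + (1 - α) * q x) 0 with e | e
    · obtain ⟨e1, e2⟩ := den_zero h0 h1 (hp x hx) (hq x hx) e
      simp [e1, e2]
    · have hpos : 0 < α * p x + (1 - α) * q x :=
        lt_of_le_of_ne (den_nonneg h0 h1 (hp x hx) (hq x hx)) (Ne.symm e)
      exact div_mul_cancel₀ _ (Real.sqrt_pos.mpr hpos).ne'
  have e2 : ∑ x ∈ s, (|p x - q x| / Real.sqrt (α * p x + (1 - α) * q x)) ^ 2
      = ∑ x ∈ s, (p x - q x) ^ 2 / (α * p x + (1 - α) * q x) := by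
    refine sum_congr rfl fun x hx => ?_
    rw [div_pow, sq_abs, Real.sq_sqrt (den_nonneg h0 h1 (hp x hx) (hq x hx))]
  have e3 : ∑ x ∈ s, (Real.sqrt (α * p x + (1 - α) * q x)) ^ 2 = 1 := by
    refine Eq.trans (sum_congr rfl fun x hx => ?_) hM
    rw [Real.sq_sqrt (den_nonneg h0 h1 (hp x hx) (hq x hx))]
  rw [e1, e2, e3, mul_one] at key
  refine key.trans (le_of_eq ?_)
  unfold hat
  generalize ∑ x ∈ s, (p x - q x) ^ 2 / (α * p x + (1 - α) * q x) = S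
  field_simp

end Pool.H96.LT
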