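import Mathlib

/-!
# A Le Cam type divergence
-/

namespace Pool.H96.LT

/-- `α (1-α) Σ (p-q)²/(αp+(1-α)q)` -/
noncomputable def hat {X : Type} (α : ℝ) (s : Finset X) (p q : X → ℝ) : ℝ :=
  α * (1 - α) * ∑ x ∈ s, (p x - q x) ^ 2 / (α * p x + (1 - α) * q x)

end Pool.H96.LT
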