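import Pool.Agent.H96.LT.GibbsAux

/-!
# Extremality from the level laws (DLR half)

For a Gibbs measure the law of the pattern on the ball of radius `m` given the values of level
`n ≥ m` does not depend on the measure.  Together with the formula for the joint law of the
pattern and the level values under `μ` and the decay of the distances of the level laws this
gives extremality of `μ`.
-/

set_option autoImplicit false

open MeasureTheory Filter Topology

namespace Pool.H96.LT

namespace DLR

variable {d : ℕ}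

instance countable_Lv (k : ℕ) : Countable (Lv d k) := by
  induction k with
  | zero => exact inferInstanceAs (Countable ℤ)
  | succ k ih => exact inferInstanceAs (Countable (Fin d → Lv d k))

lemma lvl_eq_iff (k : ℕ) (f f' : V d → ℤ) :
    lvl d k f = lvl d k f' ↔ ∀ v : V d, v.length = k → f v = f' v := by
  induction k generalizing f f' with
  | zero =>
    constructor
    · intro h v hv
      rw [List.length_eq_zero_iff] at hv
      subst hv
      exact h
    · intro h
      exact h [] rfl
  | succ k ih =>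
    constructor
    · intro h v hv
      cases v with
      | nil => simp at hv
      | cons c w =>
        have h1 := congrFun h c
        have h2 := (ih (fun w => f (c :: w)) (fun w => f' (c :: w))).1 h1
        exact h2 w (by simpa using hv)
    · intro h
      funext c
      exact (ih (fun w => f (c :: w)) (fun w => f' (c :: w))).2 fun v hv => h (c :: v) (by simp [hv])

lemma mem_Om (k : ℕ) (y : Lv d k) : ∃ N0 : ℕ, ∀ N ≥ N0, y ∈ Om d N k := by
  induction k with
  | zero =>
    refine ⟨Int.natAbs (show ℤ from y), fun N hN => ?_⟩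
    have : (show ℤ from y) ∈ Finset.Icc (-(N : ℤ)) N := by
      rw [Finset.mem_Icc]
      have h1 : |(show ℤ from y)| ≤ N := by
        rw [Int.abs_eq_natAbs]
        exact_mod_cast hN
      exact abs_le.1 h1
    exact this
  | succ k ih =>
    choose N0 hN0 using fun c : Fin d => ih (y c)
    refine ⟨Finset.univ.sup N0, fun N hN => ?_⟩
    exact (Fintype.mem_piFinset (t := fun _ : Fin d => Om d N k) (f := (y : Fin d → Lv d k))).2
      fun c => hN0 c N ((Finset.le_sup (f := N0) (Finset.mem_univ c)).trans hN)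

/-- vertices of depth less than `n` -/
noncomputable def Un (d n : ℕ) : Finset (V d) := (List.finite_length_lt (Fin d) n).toFinset

lemma mem_Un {n : ℕ} {v : V d} : v ∈ Un d n ↔ v.length < n := by simp [Un]

/-- gluing -/
def glue (n : ℕ) (h f : V d → ℤ) : V d → ℤ := fun v => if v.length < n then h v else f v

lemma glue_mem {n : ℕ} {f f' : V d → ℤ} (hf' : Lip d f') (hl : lvl d n f = lvl d n f')
    {h : V d → ℤ} (hh : h ∈ Ext d (Un d n) f) : glue n h f' ∈ Ext d (Un d n) f' := by
  obtain ⟨h1, h2⟩ := hh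
  rw [lvl_eq_iff] at hl
  refine ⟨fun v c => ?_, fun v hv => ?_⟩
  · unfold glue
    by_cases hv : (v ++ [c]).length < n
    · have hv2 : v.length < n := by
        have : v.length ≤ (v ++ [c]).length := by simp
        omega
      rw [if_pos hv, if_pos hv2]
      exact h1 v c
    · by_cases hv2 : v.length < n
      · have hv3 : (v ++ [c]).length = n := by
          have : (v ++ [c]).length = v.length + 1 := by simp
          omega
        rw [if_neg hv, if_pos hv2, ← hl _ hv3, ← h2 (v ++ [c]) (by rw [mem_Un]; exact hv)]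
        exact h1 v c
      · rw [if_neg hv, if_neg hv2]
        exact hf' v c
  · rw [mem_Un] at hv
    unfold glue
    rw [if_neg hv]

lemma glue_glue {n : ℕ} {f f' : V d → ℤ} {h : V d → ℤ} (hh : h ∈ Ext d (Un d n) f) :
    glue n (glue n h f') f = h := by
  funext v
  unfold glue
  by_cases hv : v.length < n
  · rw [if_pos hv, if_pos hv]
  · rw [if_neg hv]
    exact (hh.2 v (by rw [mem_Un]; exact hv)).symm

/-- the number of extensions with a given pattern depends only on the level values -/
lemma ncard_eq {m n : ℕ} (hmn : m ≤ n) (g : V d → ℤ) {f f' : V d → ℤ} (hf : Lip d f)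
    (hf' : Lip d f') (hl : lvl d n f = lvl d n f') :
    (Ext d (Un d n) f ∩ pat d m g).ncard = (Ext d (Un d n) f' ∩ pat d m g).ncard := by
  have key : ∀ f f' : V d → ℤ, Lip d f → Lip d f' → lvl d n f = lvl d n f' →
      ∀ h ∈ Ext d (Un d n) f ∩ pat d m g, glue n h f' ∈ Ext d (Un d n) f' ∩ pat d m g := by
    intro f f' _ hf' hl h hh
    refine ⟨glue_mem hf' hl hh.1, fun v hv => ?_⟩
    unfold glue
    by_cases hv2 : v.length < n
    · rw [if_pos hv2]
      exact hh.2 v hv
    · rw [if_neg hv2]
      have hv3 : v.length = n := by omega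
      rw [← (lvl_eq_iff n f f').1 hl v hv3, ← hh.1.2 v (by rw [mem_Un]; exact hv2)]
      exact hh.2 v hv
  refine Set.ncard_congr (fun h _ => glue n h f') (fun h hh => key f f' hf hf' hl h hh) ?_ ?_
  · intro h h' hh hh' he
    rw [← glue_glue (f' := f') hh.1, ← glue_glue (f' := f') hh'.1]
    rw [he]
  · intro h hh
    exact ⟨glue n h f, key f' f hf' hf hl.symm h hh, glue_glue hh.1⟩

lemma pat_zero_univ (n : ℕ) (f f' : V d → ℤ) (hf : Lip d f)
    (hf' : Lip d f') (hl : lvl d n f = lvl d n f') :
    (Ext d (Un d n) f).ncard = (Ext d (Un d n) f').ncard := by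
  refine Set.ncard_congr (fun h _ => glue n h f') (fun h hh => glue_mem hf' hl hh) ?_ ?_
  · intro h h' hh hh' he
    rw [← glue_glue (f' := f') hh, ← glue_glue (f' := f') hh']
    rw [he]
  · intro h hh
    exact ⟨glue n h f, glue_mem hf hl.symm hh, glue_glue hh⟩

open Classical in
/-- conditional probability of the pattern given the level values -/
noncomputable def gam (d m n : ℕ) (g : V d → ℤ) (y : Lv d n) : ENNReal :=
  if h : ∃ f, Lip d f ∧ lvl d n f = y then
    ((Ext d (Un d n) h.choose ∩ pat d m g).ncard : ENNReal) /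
      ((Ext d (Un d n) h.choose).ncard : ENNReal)
  else 0

lemma gibbs_gam {m n : ℕ} (hmn : m ≤ n) (g : V d → ℤ) (y : Lv d n) (ν : Measure (V d → ℤ))
    (hν : IsGibbs d ν) :
    ν (pat d m g ∩ {f | lvl d n f = y}) = ν {f | lvl d n f = y} * gam d m n g y := by
  rw [hν.2.2 (Un d n) _ ((measurableSet_pat m g).inter (measurableSet_lvl n y))]
  have h1 : ∀ᵐ f ∂ν, ((Ext d (Un d n) f ∩ (pat d m g ∩ {f | lvl d n f = y})).ncard : ENNReal) /
      ((Ext d (Un d n) f).ncard : ENNReal) =
      Set.indicator {f : V d → ℤ | lvl d n f = y} (fun _ => gam d m n g y) f := by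
    filter_upwards [hν.2.1] with f hf
    have hlv : ∀ h ∈ Ext d (Un d n) f, lvl d n h = lvl d n f := by
      intro h hh
      rw [lvl_eq_iff]
      intro v hv
      exact hh.2 v (by rw [mem_Un]; omega)
    by_cases hy : lvl d n f = y
    · rw [Set.indicator_of_mem (by exact hy)]
      have hex : ∃ f, Lip d f ∧ lvl d n f = y := ⟨f, hf, hy⟩
      have e1 : Ext d (Un d n) f ∩ (pat d m g ∩ {f | lvl d n f = y}) =
          Ext d (Un d n) f ∩ pat d m g := by
        ext h
        constructor
        · rintro ⟨h1, h2, _⟩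
          exact ⟨h1, h2⟩
        · rintro ⟨h1, h2⟩
          exact ⟨h1, h2, (hlv h h1).trans hy⟩
      rw [e1, gam, dif_pos hex]
      have hs := hex.choose_spec
      rw [ncard_eq hmn g hf hs.1 (hy.trans hs.2.symm),
        pat_zero_univ n f _ hf hs.1 (hy.trans hs.2.symm)]
    · rw [Set.indicator_of_notMem (by exact hy)]
      have e1 : Ext d (Un d n) f ∩ (pat d m g ∩ {f | lvl d n f = y}) = ∅ := by
        ext h
        simp only [Set.mem_inter_iff, Set.mem_setOf_eq, Set.mem_empty_iff_false, iff_false]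
        rintro ⟨h1, _, h3⟩
        exact hy ((hlv h h1).symm.trans h3)
      rw [e1]
      simp
  rw [lintegral_congr_ae h1, lintegral_indicator (measurableSet_lvl n y)]
  simp [mul_comm]


/-- the limit of the distances of the level laws, as a statement on the full sums -/
lemma tsum_le {n : ℕ} {L L' : Lv d n → ℝ} {ε : ℝ}
    (h : ∃ N0 : ℕ, ∀ N ≥ N0, ∑ y ∈ Om d N n, |L y - L' y| ≤ ε) :
    Summable (fun y => |L y - L' y|) ∧ ∑' y, |L y - L' y| ≤ ε := by
  obtain ⟨N0, hN0⟩ := h
  have key : ∀ F : Finset (Lv d n), ∑ y ∈ F, |L y - L' y| ≤ ε := by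
    intro F
    choose M hM using fun y : Lv d n => mem_Om n y
    have h1 : F ⊆ Om d (max N0 (F.sup M)) n := by
      intro y hy
      exact hM y _ ((Finset.le_sup (f := M) hy).trans (le_max_right _ _))
    exact (Finset.sum_le_sum_of_subset_of_nonneg h1 fun _ _ _ => abs_nonneg _).trans
      (hN0 _ (le_max_left _ _))
  have hs : Summable (fun y => |L y - L' y|) :=
    summable_of_sum_le (fun _ => abs_nonneg _) key
  exact ⟨hs, hs.tsum_le_of_sum_le key⟩

/-- decomposition over the level values -/
lemma hasSum_lvl (n : ℕ) (A : Set (V d → ℤ)) (hA : MeasurableSet A) (ν : Measure (V d → ℤ))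
    [IsFiniteMeasure ν] :
    HasSum (fun y : Lv d n => ν.real (A ∩ {f | lvl d n f = y})) (ν.real A) := by
  have h1 : ν A = ∑' y : Lv d n, ν (A ∩ {f | lvl d n f = y}) := by
    rw [← measure_iUnion]
    · congr 1
      ext f
      simp
    · intro y y' hne
      refine Set.disjoint_left.2 fun f hf hf' => hne ?_
      exact hf.2.symm.trans hf'.2
    · exact fun y => hA.inter (measurableSet_lvl n y)
  have h2 : ∑' y : Lv d n, ν (A ∩ {f | lvl d n f = y}) ≠ ⊤ := by
    rw [← h1]
    exact measure_ne_top ν A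
  have h3 := ENNReal.hasSum_toReal h2
  have h4 : (∑' y : Lv d n, (ν (A ∩ {f | lvl d n f = y})).toReal) = ν.real A := by
    rw [← ENNReal.tsum_toReal_eq (fun y => measure_ne_top ν _), ← h1]
    rfl
  rw [h4] at h3
  exact h3

/-- the main step -/
lemma prop {a : ℤ → ℝ} {μ ν : Measure (V d → ℤ)} (hμ : IsGibbs d μ)
    (hν : IsGibbs d ν) (t : ENNReal) (ht : 0 < t)
    (hle : ∀ A, t * ν A ≤ μ A)
    (hLam : ∀ (m k : ℕ) (g : V d → ℤ) (y : Lv d (k + m)),
      μ.real (pat d m g ∩ {f | lvl d (k + m) f = y}) = μ.real (pat d m g) * LamB d a k m g y)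
    (hTV : ∀ m (g g' : V d → ℤ), ∀ ε > 0, ∃ k0, ∀ k ≥ k0, ∃ N0 : ℕ, ∀ N ≥ N0,
      ∑ y ∈ Om d N (k + m), |LamB d a k m g y - LamB d a k m g' y| ≤ ε)
    (m : ℕ) (g g' : V d → ℤ) :
    ν.real (pat d m g) * μ.real (pat d m g') = ν.real (pat d m g') * μ.real (pat d m g) := by
  have := hμ.1
  have := hν.1
  have htop : t ≠ ⊤ := by
    intro h
    have h1 := hle Set.univ
    rw [measure_univ, measure_univ, h] at h1
    simp at h1
  have ht0 : 0 < t.toReal := ENNReal.toReal_pos ht.ne' htop
  have hler : ∀ A, t.toReal * ν.real A ≤ μ.real A := by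
    intro A
    have h1 := ENNReal.toReal_mono (measure_ne_top μ A) (hle A)
    rwa [ENNReal.toReal_mul] at h1
  rw [← sub_eq_zero, ← abs_eq_zero]
  refine le_antisymm (le_of_forall_pos_le_add fun ε hε => ?_) (abs_nonneg _)
  rw [zero_add]
  obtain ⟨k, hk⟩ := hTV m g g' (t.toReal * ε) (mul_pos ht0 hε)
  obtain ⟨hs, hsum⟩ := tsum_le (hk k le_rfl)
  set n := k + m with hn
  have hmn : m ≤ n := by omega
  have d1 : ∀ (ρ : Measure (V d → ℤ)), IsGibbs d ρ → ∀ (g : V d → ℤ) (y : Lv d n),
      ρ.real (pat d m g ∩ {f | lvl d n f = y}) =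
        ρ.real {f | lvl d n f = y} * (gam d m n g y).toReal := by
    intro ρ hρ g y
    rw [Measure.real, gibbs_gam hmn g y ρ hρ, ENNReal.toReal_mul]
    rfl
  have s1 := hasSum_lvl n (pat d m g) (measurableSet_pat m g) ν
  have s2 := hasSum_lvl n (pat d m g') (measurableSet_pat m g') ν
  have s3 := (s1.mul_right (μ.real (pat d m g'))).sub (s2.mul_right (μ.real (pat d m g)))
  -- termwise bound
  have hb : ∀ y : Lv d n, |ν.real (pat d m g ∩ {f | lvl d n f = y}) * μ.real (pat d m g') -
      ν.real (pat d m g' ∩ {f | lvl d n f = y}) * μ.real (pat d m g)| ≤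
      (t.toReal)⁻¹ * |LamB d a k m g y - LamB d a k m g' y| := by
    intro y
    have e1 := d1 ν hν g y
    have e2 := d1 ν hν g' y
    have e3 := d1 μ hμ g y
    have e4 := d1 μ hμ g' y
    have e5 := hLam m k g y
    have e6 := hLam m k g' y
    have hA : t.toReal * ν.real {f : V d → ℤ | lvl d n f = y} ≤ μ.real {f | lvl d n f = y} :=
      hler _
    have hM : μ.real (pat d m g) ≤ 1 := measureReal_le_one
    have hM' : μ.real (pat d m g') ≤ 1 := measureReal_le_one
    have hM0 : 0 ≤ μ.real (pat d m g) := measureReal_nonneg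
    have hM0' : 0 ≤ μ.real (pat d m g') := measureReal_nonneg
    rw [e1, e2]
    set N := ν.real {f : V d → ℤ | lvl d n f = y} with hN
    set B := μ.real {f : V d → ℤ | lvl d n f = y} with hB
    set c := (gam d m n g y).toReal
    set c' := (gam d m n g' y).toReal
    set M := μ.real (pat d m g)
    set M' := μ.real (pat d m g')
    have hN0 : 0 ≤ N := measureReal_nonneg
    have f1 : N * c * M' - N * c' * M = N * (c * M' - c' * M) := by ring
    have f2 : B * (c * M' - c' * M) = M * M' * (LamB d a k m g y - LamB d a k m g' y) := by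
      have g1 : B * c = M * LamB d a k m g y := by rw [← e3]; exact e5
      have g2 : B * c' = M' * LamB d a k m g' y := by rw [← e4]; exact e6
      calc B * (c * M' - c' * M) = (B * c) * M' - (B * c') * M := by ring
        _ = M * M' * (LamB d a k m g y - LamB d a k m g' y) := by rw [g1, g2]; ring
    rw [f1, abs_mul, abs_of_nonneg hN0]
    have f3 : t.toReal * (N * |c * M' - c' * M|) ≤ |LamB d a k m g y - LamB d a k m g' y| := by
      calc t.toReal * (N * |c * M' - c' * M|) = (t.toReal * N) * |c * M' - c' * M| := by ring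
        _ ≤ B * |c * M' - c' * M| := mul_le_mul_of_nonneg_right hA (abs_nonneg _)
        _ = |B * (c * M' - c' * M)| := by
            rw [abs_mul, abs_of_nonneg (measureReal_nonneg : 0 ≤ B)]
        _ = M * M' * |LamB d a k m g y - LamB d a k m g' y| := by
            rw [f2, abs_mul, abs_of_nonneg (mul_nonneg hM0 hM0')]
        _ ≤ 1 * |LamB d a k m g y - LamB d a k m g' y| :=
            mul_le_mul_of_nonneg_right (mul_le_one₀ hM hM0' hM') (abs_nonneg _)
        _ = _ := one_mul _
    rw [inv_mul_eq_div, le_div_iff₀ ht0]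
    linarith
  have hsr : Summable (fun y : Lv d n => (t.toReal)⁻¹ * |LamB d a k m g y - LamB d a k m g' y|) :=
    hs.mul_left _
  have h5 := tsum_of_norm_bounded (f := fun y : Lv d n =>
    ν.real (pat d m g ∩ {f | lvl d n f = y}) * μ.real (pat d m g') -
      ν.real (pat d m g' ∩ {f | lvl d n f = y}) * μ.real (pat d m g)) hsr.hasSum
    (fun y => by rw [Real.norm_eq_abs]; exact hb y)
  rw [s3.tsum_eq, Real.norm_eq_abs, tsum_mul_left] at h5
  refine h5.trans ?_
  rw [inv_mul_le_iff₀ ht0]
  exact hsum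

/-- a component of a mixture is equal to the mixture -/
lemma comp_eq {a : ℤ → ℝ} {μ ν : Measure (V d → ℤ)} (hμ : IsGibbs d μ)
    (hν : IsGibbs d ν) (t : ENNReal) (ht : 0 < t)
    (hle : ∀ A, t * ν A ≤ μ A)
    (hLam : ∀ (m k : ℕ) (g : V d → ℤ) (y : Lv d (k + m)),
      μ.real (pat d m g ∩ {f | lvl d (k + m) f = y}) = μ.real (pat d m g) * LamB d a k m g y)
    (hTV : ∀ m (g g' : V d → ℤ), ∀ ε > 0, ∃ k0, ∀ k ≥ k0, ∃ N0 : ℕ, ∀ N ≥ N0,
      ∑ y ∈ Om d N (k + m), |LamB d a k m g y - LamB d a k m g' y| ≤ ε) :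
    ν = μ := by
  have := hμ.1
  have := hν.1
  refine ext_pat 0 fun m _ g => ?_
  have hall := fun g g' => prop hμ hν t ht hle hLam hTV m g g'
  have hsum : ∀ (ρ : Measure (V d → ℤ)) [IsProbabilityMeasure ρ],
      HasSum (fun u : Bl d m → ℤ => ρ.real (pat d m (ex0 m u))) 1 := by
    intro ρ _
    have h1 : ρ Set.univ = ∑' u : Bl d m → ℤ, ρ (pat d m (ex0 m u)) := by
      rw [← measure_iUnion]
      · congr 1
        symm
        rw [Set.eq_univ_iff_forall]
        intro f
        rw [Set.mem_iUnion]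
        exact ⟨(Bl d m).restrict f, restrict_eq_iff.1 rfl⟩
      · intro u u' hne
        refine Set.disjoint_left.2 fun f hf hf' => hne ?_
        exact (restrict_eq_iff.2 hf).symm.trans (restrict_eq_iff.2 hf')
      · exact fun u => measurableSet_pat m _
    have h2 : ∑' u : Bl d m → ℤ, ρ (pat d m (ex0 m u)) ≠ ⊤ := by
      rw [← h1]
      exact measure_ne_top ρ _
    have h3 := ENNReal.hasSum_toReal h2
    have h4 : (∑' u : Bl d m → ℤ, (ρ (pat d m (ex0 m u))).toReal) = 1 := by
      rw [← ENNReal.tsum_toReal_eq (fun y => measure_ne_top ρ _), ← h1, measure_univ]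
      rfl
    rw [h4] at h3
    exact h3
  have e1 := (hsum μ).mul_left (ν.real (pat d m g))
  have e2 := (hsum ν).mul_right (μ.real (pat d m g))
  have e3 : (fun u : Bl d m → ℤ => ν.real (pat d m g) * μ.real (pat d m (ex0 m u))) =
      fun u : Bl d m → ℤ => ν.real (pat d m (ex0 m u)) * μ.real (pat d m g) := by
    funext u
    exact hall g (ex0 m u)
  rw [e3] at e1
  have e4 := e1.unique e2
  rw [mul_one, one_mul] at e4
  exact (measureReal_eq_measureReal_iff (measure_ne_top _ _) (measure_ne_top _ _)).1 e4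

end DLR

/-- Extremality from the formula for the level laws and the decay of their distances. -/
theorem extremal_of_lam (d : ℕ) (a : ℤ → ℝ) (μ : Measure (V d → ℤ)) (hG : IsGibbs d μ)
    (hLam : ∀ (m k : ℕ) (g : V d → ℤ) (y : Lv d (k + m)),
      μ.real (pat d m g ∩ {f | lvl d (k + m) f = y}) = μ.real (pat d m g) * LamB d a k m g y)
    (hTV : ∀ m (g g' : V d → ℤ), ∀ ε > 0, ∃ k0, ∀ k ≥ k0, ∃ N0 : ℕ, ∀ N ≥ N0,
      ∑ y ∈ Om d N (k + m), |LamB d a k m g y - LamB d a k m g' y| ≤ ε) :
    IsExtremalGibbs d μ := by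
  refine ⟨hG, fun ν₁ ν₂ h1 h2 t ht0 ht1 he => ?_⟩
  have hle1 : ∀ A, t * ν₁ A ≤ μ A := by
    intro A
    rw [he]
    simp
  have hle2 : ∀ A, (1 - t) * ν₂ A ≤ μ A := by
    intro A
    rw [he]
    simp
  rw [DLR.comp_eq hG h1 t ht0 hle1 hLam hTV,
    DLR.comp_eq hG h2 (1 - t) (tsub_pos_of_lt ht1) hle2 hLam hTV]

end Pool.H96.LT
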