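import Pool.Agent.H96.LT.GibbsAux

/-!
# Uniform Lipschitz functions on the d-ary tree: the law of a level given a pattern
-/

open MeasureTheory Filter Topology

namespace Pool.H96.LT

variable {d : ℕ}

/-- finite measures which agree on all patterns of one ball have the same mass -/
lemma mass_of_pat {μ ν : Measure (V d → ℤ)} [IsFiniteMeasure μ] [IsFiniteMeasure ν] (m : ℕ)
    (h : ∀ g, μ (pat d m g) = ν (pat d m g)) : μ Set.univ = ν Set.univ := by
  have hms : Measurable ((Bl d m).restrict : (V d → ℤ) → (Bl d m → ℤ)) :=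
    Finset.measurable_restrict _
  have key : μ.map (Bl d m).restrict = ν.map (Bl d m).restrict := by
    refine Measure.ext_of_singleton fun y => ?_
    rw [Measure.map_apply hms (measurableSet_singleton _),
      Measure.map_apply hms (measurableSet_singleton _)]
    have : ((Bl d m).restrict : (V d → ℤ) → (Bl d m → ℤ)) ⁻¹' {y} = pat d m (ex0 m y) := by
      ext f
      exact restrict_eq_iff
    rw [this]
    exact h _
  have h2 := congrArg (fun ρ => ρ Set.univ) key
  simpa only [Measure.map_apply hms MeasurableSet.univ, Set.preimage_univ] using h2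

/-- glue `d` subtree configurations below a root with value `i` -/
def glue (d : ℕ) (i : ℤ) (x : Fin d → (V d → ℤ)) : V d → ℤ
  | [] => i
  | c :: w => x c w

lemma measurable_glue (i : ℤ) : Measurable (glue d i) := by
  refine measurable_pi_lambda _ fun v => ?_
  cases v with
  | nil => exact measurable_const
  | cons c w => exact (measurable_pi_apply w).comp (measurable_pi_apply c)

/-- root value near `i` -/
def nr (d : ℕ) (i : ℤ) : Set (V d → ℤ) := {h | |h [] - i| ≤ 1}

lemma measurableSet_root (s : Set ℤ) : MeasurableSet {f : V d → ℤ | f [] ∈ s} :=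
  measurable_pi_apply ([] : V d) (MeasurableSet.of_discrete (s := s))

lemma measurableSet_nr (i : ℤ) : MeasurableSet (nr d i) :=
  measurableSet_root (d := d) {x : ℤ | |x - i| ≤ 1}

lemma measurableSet_rt (i : ℤ) : MeasurableSet {f : V d → ℤ | f [] = i} :=
  measurableSet_root (d := d) {i}

lemma pat_inter_nr (m : ℕ) (g : V d → ℤ) (i : ℤ) :
    pat d m g ∩ nr d i = if |g [] - i| ≤ 1 then pat d m g else ∅ := by
  split_ifs with hc
  · refine Set.inter_eq_left.2 fun f hf => ?_
    show |f [] - i| ≤ 1
    rw [hf [] (Nat.zero_le _)]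
    exact hc
  · refine Set.eq_empty_iff_forall_notMem.2 fun f hf => hc ?_
    have h1 : |f [] - i| ≤ 1 := hf.2
    rwa [hf.1 [] (Nat.zero_le _)] at h1

lemma glue_preimage (m : ℕ) (g : V d → ℤ) :
    glue d (g []) ⁻¹' pat d (m + 1) g =
      Set.pi Set.univ (fun c : Fin d => pat d m (fun w => g (c :: w))) := by
  ext x
  constructor
  · intro h c _ v hv
    exact h (c :: v) (by simpa using hv)
  · intro h v hv
    cases v with
    | nil => rfl
    | cons c w => exact h c (Set.mem_univ _) w (by simpa using hv)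

variable {a : ℤ → ℝ} {w : ℕ → ℝ} {μ : Measure (V d → ℤ)}

lemma Marg.meas [IsProbabilityMeasure μ] (h : Marg d a w μ) (m : ℕ) (g : V d → ℤ) :
    μ (pat d m g) = ENNReal.ofReal (w m * R d m a g) := by
  rw [← h.marg m g, Measure.real, ENNReal.ofReal_toReal (measure_ne_top _ _)]

lemma pat_zero (g : V d → ℤ) : pat d 0 g = {f | f [] = g []} := by
  ext f
  constructor
  · intro h
    exact h [] le_rfl
  · intro h v hv
    have : v = [] := List.length_eq_zero_iff.1 (Nat.le_zero.1 hv)
    rw [this]
    exact h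

lemma Marg.root [IsProbabilityMeasure μ] (h : Marg d a w μ) (i : ℤ) :
    μ.real {f | f [] = i} = w 0 * a i := by
  have := h.marg 0 (fun _ => i)
  rw [pat_zero] at this
  exact this

lemma Marg.step [IsProbabilityMeasure μ] (h : Marg d a w μ) (m : ℕ) (g : V d → ℤ) (i : ℤ) :
    (μ.restrict {f | f [] = i}) (pat d (m + 1) g) =
      ENNReal.ofReal (w (m + 1) / (w m) ^ d) *
        ((Measure.pi (fun _ : Fin d => μ.restrict (nr d i))).map (glue d i))
          (pat d (m + 1) g) := by
  rw [Measure.restrict_apply (measurableSet_pat _ _),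
    Measure.map_apply (measurable_glue i) (measurableSet_pat _ _)]
  by_cases hi : g [] = i
  · subst hi
    have h1 : pat d (m + 1) g ∩ {f | f [] = g []} = pat d (m + 1) g :=
      Set.inter_eq_left.2 fun f hf => hf [] (Nat.zero_le _)
    rw [h1, glue_preimage, Measure.pi_pi, h.meas]
    have h2 : ∀ c : Fin d, (μ.restrict (nr d (g []))) (pat d m (fun w => g (c :: w))) =
        ENNReal.ofReal (w m * if |g [c] - g []| ≤ 1 then R d m a (fun w => g (c :: w)) else 0) := by
      intro c
      rw [Measure.restrict_apply (measurableSet_pat _ _), pat_inter_nr]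
      by_cases hc : |g [c] - g []| ≤ 1
      · rw [if_pos hc, if_pos hc, h.meas]
      · rw [if_neg hc, if_neg hc]
        simp
    have hnn : ∀ c : Fin d,
        0 ≤ w m * if |g [c] - g []| ≤ 1 then R d m a (fun w => g (c :: w)) else 0 := by
      intro c
      refine mul_nonneg (h.wpos m).le ?_
      split_ifs
      · exact R_nonneg h.pos _ _
      · exact le_rfl
    rw [Finset.prod_congr rfl (fun c _ => h2 c),
      ← ENNReal.ofReal_prod_of_nonneg (fun c _ => hnn c),
      ← ENNReal.ofReal_mul (div_nonneg (h.wpos _).le (pow_nonneg (h.wpos m).le _)),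
      Finset.prod_mul_distrib, Finset.prod_const, Finset.card_univ, Fintype.card_fin]
    congr 1
    rw [← mul_assoc, div_mul_cancel₀ _ (pow_ne_zero _ (h.wpos m).ne')]
    rfl
  · have h1 : pat d (m + 1) g ∩ {f | f [] = i} = ∅ := by
      refine Set.eq_empty_iff_forall_notMem.2 fun f hf => hi ?_
      rw [← hf.1 [] (Nat.zero_le _)]
      exact hf.2
    have h2 : glue d i ⁻¹' pat d (m + 1) g = ∅ := by
      refine Set.eq_empty_iff_forall_notMem.2 fun f hf => hi ?_
      exact (hf [] (Nat.zero_le _)).symm
    rw [h1, h2]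
    simp

lemma Marg.nr_ne [IsProbabilityMeasure μ] (h : Marg d a w μ) (i : ℤ) : μ (nr d i) ≠ 0 := by
  intro h0
  have h1 : μ.real {f : V d → ℤ | f [] = i} = 0 := by
    rw [Measure.real, measure_mono_null (fun f hf => ?_) h0, ENNReal.toReal_zero]
    show |f [] - i| ≤ 1
    rw [show f [] = i from hf]
    simp
  rw [h.root] at h1
  exact (mul_pos (h.wpos 0) (h.pos i)).ne' h1

theorem Marg.branch_meas [IsProbabilityMeasure μ] (h : Marg d a w μ) (i : ℤ) :
    μ.restrict {f | f [] = i} = ENNReal.ofReal (w 1 / (w 0) ^ d) •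
      (Measure.pi (fun _ : Fin d => μ.restrict (nr d i))).map (glue d i) := by
  have hfin : IsFiniteMeasure
      ((Measure.pi (fun _ : Fin d => μ.restrict (nr d i))).map (glue d i)) := by infer_instance
  have hsm : ∀ C : ℝ, IsFiniteMeasure (ENNReal.ofReal C •
      (Measure.pi (fun _ : Fin d => μ.restrict (nr d i))).map (glue d i)) := by
    intro C
    exact Measure.smul_finite _ ENNReal.ofReal_ne_top
  have hst : ∀ m g, (μ.restrict {f | f [] = i}) (pat d (m + 1) g) =
      (ENNReal.ofReal (w (m + 1) / (w m) ^ d) •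
        (Measure.pi (fun _ : Fin d => μ.restrict (nr d i))).map (glue d i))
          (pat d (m + 1) g) := by
    intro m g
    rw [Measure.smul_apply, smul_eq_mul]
    exact h.step m g i
  have huniv : ((Measure.pi (fun _ : Fin d => μ.restrict (nr d i))).map (glue d i)) Set.univ
      = (μ (nr d i)) ^ d := by
    rw [Measure.map_apply (measurable_glue i) MeasurableSet.univ, Set.preimage_univ,
      Measure.pi_univ]
    simp
  have hne : (μ (nr d i)) ^ d ≠ 0 := pow_ne_zero _ (h.nr_ne i)
  have hnt : (μ (nr d i)) ^ d ≠ ⊤ := ENNReal.pow_ne_top (measure_ne_top _ _)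
  have hmass : ∀ m, (μ.restrict {f | f [] = i}) Set.univ =
      ENNReal.ofReal (w (m + 1) / (w m) ^ d) * (μ (nr d i)) ^ d := by
    intro m
    haveI := hsm (w (m + 1) / (w m) ^ d)
    rw [mass_of_pat (m + 1) (hst m), Measure.smul_apply, smul_eq_mul, huniv]
  have hC : ∀ m, ENNReal.ofReal (w (m + 1) / (w m) ^ d) = ENNReal.ofReal (w 1 / (w 0) ^ d) := by
    intro m
    have h1 := (hmass m).symm.trans (hmass 0)
    exact (ENNReal.mul_left_inj hne hnt).1 h1
  haveI := hsm (w 1 / (w 0) ^ d)
  refine ext_pat 1 fun m hm g => ?_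
  obtain ⟨m, rfl⟩ : ∃ n, m = n + 1 := ⟨m - 1, by omega⟩
  rw [hst m g, hC m]

/-- the branching property -/
theorem Marg.branch [IsProbabilityMeasure μ] (h : Marg d a w μ) (i : ℤ) :
    ∃ K : ℝ, ∀ E : Fin d → Set (V d → ℤ), (∀ c, MeasurableSet (E c)) →
      μ.real {f | f [] = i ∧ ∀ c, (fun w => f (c :: w)) ∈ E c} =
        K * ∏ c, μ.real (E c ∩ nr d i) := by
  refine ⟨(ENNReal.ofReal (w 1 / (w 0) ^ d)).toReal, fun E hE => ?_⟩
  have hm : MeasurableSet {f : V d → ℤ | ∀ c, (fun w => f (c :: w)) ∈ E c} := by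
    have : {f : V d → ℤ | ∀ c, (fun w => f (c :: w)) ∈ E c} =
        ⋂ c : Fin d, (fun (f : V d → ℤ) (w : V d) => f (c :: w)) ⁻¹' E c := by
      ext f
      simp
    rw [this]
    exact MeasurableSet.iInter fun c => measurable_cons c (hE c)
  have h1 : {f : V d → ℤ | f [] = i ∧ ∀ c, (fun w => f (c :: w)) ∈ E c} =
      {f | ∀ c, (fun w => f (c :: w)) ∈ E c} ∩ {f | f [] = i} := by
    ext f
    exact and_comm
  have h2 : glue d i ⁻¹' {f | ∀ c, (fun w => f (c :: w)) ∈ E c} = Set.pi Set.univ E := by
    ext x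
    constructor
    · intro hx c _
      exact hx c
    · intro hx c
      exact hx c (Set.mem_univ _)
  rw [Measure.real, h1, ← Measure.restrict_apply hm, h.branch_meas i, Measure.smul_apply,
    smul_eq_mul, Measure.map_apply (measurable_glue i) hm, h2, Measure.pi_pi, ENNReal.toReal_mul,
    ENNReal.toReal_prod]
  congr 1
  refine Finset.prod_congr rfl fun c _ => ?_
  rw [Measure.restrict_apply (hE c)]
  rfl

lemma nr_split [IsProbabilityMeasure μ] (i : ℤ) {E : Set (V d → ℤ)} (hE : MeasurableSet E) :
    μ.real (E ∩ nr d i) = μ.real (E ∩ {f | f [] = i - 1}) + μ.real (E ∩ {f | f [] = i})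
      + μ.real (E ∩ {f | f [] = i + 1}) := by
  have h1 : E ∩ nr d i = ((E ∩ {f | f [] = i - 1}) ∪ (E ∩ {f | f [] = i}))
      ∪ (E ∩ {f | f [] = i + 1}) := by
    ext f
    simp only [Set.mem_inter_iff, Set.mem_union, Set.mem_setOf_eq, nr]
    constructor
    · rintro ⟨hf, h2⟩
      rw [abs_le] at h2
      have : f [] = i - 1 ∨ f [] = i ∨ f [] = i + 1 := by omega
      tauto
    · rintro ((⟨hf, h2⟩ | ⟨hf, h2⟩) | ⟨hf, h2⟩) <;> refine ⟨hf, ?_⟩ <;> rw [h2] <;> simp
  rw [h1, measureReal_union, measureReal_union]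
  · refine Set.disjoint_left.2 fun f h2 h3 => ?_
    have h4 : f [] = i - 1 := h2.2
    have h5 : f [] = i := h3.2
    omega
  · exact hE.inter (measurableSet_rt _)
  · refine Set.disjoint_left.2 fun f h2 h3 => ?_
    have h5 : f [] = i + 1 := h3.2
    rcases h2 with h2 | h2
    · have h4 : f [] = i - 1 := h2.2
      omega
    · have h4 : f [] = i := h2.2
      omega
  · exact hE.inter (measurableSet_rt _)

/-- the law of level `k` given the root -/
theorem Marg.root_lam [IsProbabilityMeasure μ] (h : Marg d a w μ) (k : ℕ) (i : ℤ) (y : Lv d k) :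
    μ.real ({f | lvl d k f = y} ∩ {f | f [] = i}) = w 0 * a i * Lam d a k i y := by
  induction k generalizing i with
  | zero =>
    show μ.real ({f | f [] = (show ℤ from y)} ∩ {f | f [] = i}) =
      w 0 * a i * (if (show ℤ from y) = i then 1 else 0)
    split_ifs with hy
    · rw [hy, Set.inter_self, h.root, mul_one]
    · have : {f : V d → ℤ | f [] = (show ℤ from y)} ∩ {f | f [] = i} = ∅ := by
        refine Set.eq_empty_iff_forall_notMem.2 fun f hf => hy ?_
        rw [← hf.1]
        exact hf.2
      rw [this]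
      simp
  | succ k ih =>
    obtain ⟨K, hK⟩ := h.branch i
    have hS : 0 < a (i - 1) + a i + a (i + 1) := by
      have := h.pos (i - 1)
      have := h.pos i
      have := h.pos (i + 1)
      positivity
    have h1 := hK (fun c => {f | lvl d k f = y c}) (fun c => measurableSet_lvl k _)
    have h2 := hK (fun _ => Set.univ) (fun _ => MeasurableSet.univ)
    have h3 : {f : V d → ℤ | lvl d (k + 1) f = y} ∩ {f | f [] = i} =
        {f | f [] = i ∧ ∀ c, (fun w => f (c :: w)) ∈ {f | lvl d k f = y c}} := by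
      ext f
      constructor
      · rintro ⟨h4, h5⟩
        exact ⟨h5, fun c => congrFun h4 c⟩
      · rintro ⟨h4, h5⟩
        exact ⟨funext h5, h4⟩
    have h6 : ∀ c : Fin d, μ.real ({f | lvl d k f = y c} ∩ nr d i) =
        w 0 * (a (i - 1) + a i + a (i + 1)) * mixt a (Lam d a k) i (y c) := by
      intro c
      rw [nr_split i (measurableSet_lvl k _), ih, ih, ih, mixt]
      field_simp
    have h7 : μ.real (Set.univ ∩ nr d i) = w 0 * (a (i - 1) + a i + a (i + 1)) := by
      rw [nr_split i MeasurableSet.univ, Set.univ_inter, Set.univ_inter, Set.univ_inter,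
        h.root, h.root, h.root]
      ring
    have h8 : {f : V d → ℤ | f [] = i ∧ ∀ c : Fin d, (fun w => f (c :: w)) ∈ (Set.univ : Set _)} =
        {f | f [] = i} := by
      ext f
      simp
    rw [h8, h.root, Finset.prod_congr rfl (fun c _ => h7), Finset.prod_const] at h2
    rw [h3, h1, Finset.prod_congr rfl (fun c _ => h6 c), Finset.prod_mul_distrib,
      Finset.prod_const, ← mul_assoc, ← h2]
    rfl

/-- **the law of level `k + m` given the pattern on the ball of radius `m`** -/
theorem lam_formula (d : ℕ) (_hd : 1 ≤ d) (a : ℤ → ℝ) (w : ℕ → ℝ) (μ : Measure (V d → ℤ))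
    [IsProbabilityMeasure μ] (h : Marg d a w μ) (m k : ℕ) (g : V d → ℤ) (y : Lv d (k + m)) :
    μ.real (pat d m g ∩ {f | lvl d (k + m) f = y}) = μ.real (pat d m g) * LamB d a k m g y := by
  induction m generalizing g with
  | zero =>
    rw [pat_zero, Set.inter_comm, h.root]
    exact h.root_lam k (g []) y
  | succ m ih =>
    obtain ⟨K, hK⟩ := h.branch (g [])
    have h1 := hK (fun c => pat d m (fun w => g (c :: w)) ∩ {f | lvl d (k + m) f = y c})
      (fun c => (measurableSet_pat _ _).inter (measurableSet_lvl _ _))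
    have h2 := hK (fun c => pat d m (fun w => g (c :: w))) (fun c => measurableSet_pat _ _)
    have h3 : {f : V d → ℤ | f [] = g [] ∧ ∀ c, (fun w => f (c :: w)) ∈
        pat d m (fun w => g (c :: w))} = pat d (m + 1) g := by
      ext f
      constructor
      · rintro ⟨h4, h5⟩ v hv
        cases v with
        | nil => exact h4
        | cons c v => exact h5 c v (by simpa using hv)
      · intro h4
        exact ⟨h4 [] (Nat.zero_le _), fun c v hv => h4 (c :: v) (by simpa using hv)⟩
    have h5 : {f : V d → ℤ | f [] = g [] ∧ ∀ c, (fun w => f (c :: w)) ∈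
        pat d m (fun w => g (c :: w)) ∩ {f | lvl d (k + m) f = y c}} =
        pat d (m + 1) g ∩ {f | lvl d (k + (m + 1)) f = y} := by
      rw [← h3]
      ext f
      constructor
      · rintro ⟨h4, h5⟩
        exact ⟨⟨h4, fun c => (h5 c).1⟩, funext fun c => (h5 c).2⟩
      · rintro ⟨⟨h4, h5⟩, h6⟩
        exact ⟨h4, fun c => ⟨h5 c, congrFun h6 c⟩⟩
    rw [h3] at h2
    rw [h5] at h1
    have h6 : ∀ c : Fin d, μ.real (pat d m (fun w => g (c :: w)) ∩ {f | lvl d (k + m) f = y c}
        ∩ nr d (g [])) = μ.real (pat d m (fun w => g (c :: w)) ∩ nr d (g [])) *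
          LamB d a k m (fun w => g (c :: w)) (y c) := by
      intro c
      rw [Set.inter_right_comm, pat_inter_nr]
      split_ifs
      · exact ih _ _
      · simp
    rw [h1, h2, Finset.prod_congr rfl (fun c _ => h6 c), Finset.prod_mul_distrib, mul_assoc]
    rfl

end Pool.H96.LT
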