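import Pool.Agent.H96.LT.Rows2
import Pool.Agent.H96.LT.Defs

/-!
# The level laws and their reflections
-/

namespace Pool.H96.LT
open Finset

variable {d : ℕ} {a : ℤ → ℝ}

theorem mixt_eq {X : Type} (a : ℤ → ℝ) (L : ℤ → X → ℝ) (i : ℤ) (x : X) :
    mixt a L i x = mx a L i x := by
  unfold mixt mx pl pm pr sS
  ring

theorem mx_nonneg {X : Type} {L : ℤ → X → ℝ} (h : ∀ i, 0 < a i) {x : X} (hL : ∀ i, 0 ≤ L i x)
    (i : ℤ) : 0 ≤ mx a L i x := by
  have := pl_pos h i; have := pm_pos h i; have := pr_pos h i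
  have := hL (i - 1); have := hL i; have := hL (i + 1)
  unfold mx
  positivity

theorem mx_sum {X : Type} {L : ℤ → X → ℝ} {s : Finset X} (h : ∀ i, 0 < a i) (i : ℤ)
    (h1 : ∑ x ∈ s, L (i - 1) x = 1) (h2 : ∑ x ∈ s, L i x = 1) (h3 : ∑ x ∈ s, L (i + 1) x = 1) :
    ∑ x ∈ s, mx a L i x = 1 := by
  unfold mx
  rw [sum_add_distrib, sum_add_distrib, ← mul_sum, ← mul_sum, ← mul_sum, h1, h2, h3]
  have := p_sum h i
  linarith

theorem lam_nonneg' (h : ∀ i, 0 < a i) (k : ℕ) (i : ℤ) (y : Lv d k) : 0 ≤ Lam d a k i y := by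
  induction k generalizing i with
  | zero =>
    unfold Lam
    split_ifs <;> norm_num
  | succ k ih =>
    show 0 ≤ ∏ c : Fin d, mixt a (Lam d a k) i (y c)
    refine prod_nonneg fun c _ => ?_
    rw [mixt_eq]
    exact mx_nonneg h (fun j => ih j (y c)) i

theorem lam_sum' (h : ∀ i, 0 < a i) (k N : ℕ) (i : ℤ) (hN : |i| + k ≤ N) :
    ∑ y ∈ Om d N k, Lam d a k i y = 1 := by
  induction k generalizing i with
  | zero =>
    show ∑ y ∈ (Finset.Icc (-(N : ℤ)) N : Finset ℤ), (if y = i then (1 : ℝ) else 0) = 1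
    rw [sum_ite_eq']
    have : i ∈ Finset.Icc (-(N : ℤ)) N := by
      rw [mem_Icc]
      have := abs_le.mp (show |i| ≤ N by simpa using hN)
      exact this
    rw [if_pos this]
  | succ k ih =>
    show ∑ y ∈ Fintype.piFinset (fun _ : Fin d => Om d N k),
      ∏ c : Fin d, mixt a (Lam d a k) i (y c) = 1
    rw [← Finset.prod_univ_sum (fun _ : Fin d => Om d N k) (fun _ x => mixt a (Lam d a k) i x)]
    refine prod_eq_one fun c _ => ?_
    simp only [mixt_eq]
    have b1 : |i - 1| ≤ |i| + 1 := by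
      have := abs_sub i 1
      simpa using this
    have b2 : |i + 1| ≤ |i| + 1 := by
      have := abs_add_le i 1
      simpa using this
    push_cast at hN
    exact mx_sum h i (ih _ (by linarith)) (ih _ (by linarith)) (ih _ (by linarith))

/-- the level laws (`b = true`) and their reflections `i ↦ c - i` (`b = false`) -/
noncomputable def fam (d : ℕ) (a : ℤ → ℝ) (c : ℤ) (b : Bool) (k : ℕ) (i : ℤ) : Lv d k → ℝ :=
  Lam d a k (if b = true then i else c - i)

theorem fam_succ {c : ℤ} (hsym : ∀ i, a (c - i) = a i) (b : Bool) (k : ℕ) (i : ℤ)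
    (y : Lv d (k + 1)) :
    fam d a c b (k + 1) i y = ∏ j : Fin d, mx a (fam d a c b k) i (y j) := by
  cases b with
  | true =>
    show ∏ j : Fin d, mixt a (Lam d a k) i (y j) = _
    refine prod_congr rfl fun j _ => ?_
    rw [mixt_eq]
    rfl
  | false =>
    show ∏ j : Fin d, mixt a (Lam d a k) (c - i) (y j) = _
    refine prod_congr rfl fun j _ => ?_
    unfold mixt mx pl pm pr sS
    have e1 : c - i - 1 = c - (i + 1) := by ring
    have e2 : c - i + 1 = c - (i - 1) := by ring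
    rw [e1, e2, hsym, hsym, hsym]
    unfold fam
    simp only [Bool.false_eq_true, if_false]
    have e3 : a (i + 1) + a i + a (i - 1) = a (i - 1) + a i + a (i + 1) := by ring
    rw [e3]
    ring

theorem fam_nonneg (h : ∀ i, 0 < a i) (c : ℤ) (b : Bool) (k : ℕ) (i : ℤ) (y : Lv d k) :
    0 ≤ fam d a c b k i y := lam_nonneg' h k _ y

theorem fam_sum (h : ∀ i, 0 < a i) {c : ℤ} (hc : |c| ≤ 1) (b : Bool) (k N : ℕ) (i : ℤ)
    (hN : |i| + 1 + k ≤ N) : ∑ y ∈ Om d N k, fam d a c b k i y = 1 := by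
  refine lam_sum' h k N _ ?_
  cases b with
  | true => simp only [if_true]; linarith
  | false =>
    simp only [Bool.false_eq_true, if_false]
    have := abs_sub c i
    linarith

/-- one level: from the product over the children to the mixtures -/
theorem fam_step (h : ∀ i, 0 < a i) {c : ℤ} (hc : |c| ≤ 1) (hsym : ∀ i, a (c - i) = a i)
    (b : Bool) (k N : ℕ) (i : ℤ) (hi : 0 ≤ i) (hN : i + 3 + k ≤ N)
    {α κ H : ℝ} (h0 : 0 < α) (h1 : α < 1) (hκ : 0 ≤ κ)
    (hκ1 : 2 * α - 1 ≤ κ * (1 - α)) (hκ2 : 1 - 2 * α ≤ κ * α)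
    (hH : hat α (Om d N k) (mx a (fam d a c b k) i) (mx a (fam d a c b k) (i + 1)) ≤ H) :
    hat α (Om d N (k + 1)) (fam d a c b (k + 1) i) (fam d a c b (k + 1) (i + 1)) ≤
      (∑ m ∈ range d, (1 + κ * H) ^ m) *
        hat α (Om d N k) (mx a (fam d a c b k) i) (mx a (fam d a c b k) (i + 1)) := by
  have e1 : fam d a c b (k + 1) i = fun y => ∏ j : Fin d, mx a (fam d a c b k) i (y j) := by
    funext y; exact fam_succ hsym b k i y
  have e2 : fam d a c b (k + 1) (i + 1)
      = fun y => ∏ j : Fin d, mx a (fam d a c b k) (i + 1) (y j) := by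
    funext y; exact fam_succ hsym b k (i + 1) y
  rw [e1, e2]
  have S : ∀ j : ℤ, -1 ≤ j → j ≤ i + 2 → ∑ y ∈ Om d N k, fam d a c b k j y = 1 := by
    intro j hj hj'
    refine fam_sum h hc b k N j ?_
    have : |j| ≤ i + 2 := abs_le.mpr ⟨by linarith, hj'⟩
    linarith
  have n1 : ∀ x ∈ Om d N k, 0 ≤ mx a (fam d a c b k) i x := fun x _ =>
    mx_nonneg h (fun j => fam_nonneg h c b k j x) i
  have n2 : ∀ x ∈ Om d N k, 0 ≤ mx a (fam d a c b k) (i + 1) x := fun x _ =>
    mx_nonneg h (fun j => fam_nonneg h c b k j x) (i + 1)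
  have s1 : ∑ x ∈ Om d N k, mx a (fam d a c b k) i x = 1 :=
    mx_sum h i (S _ (by linarith) (by linarith)) (S _ (by linarith) (by linarith))
      (S _ (by linarith) (by linarith))
  have s2 : ∑ x ∈ Om d N k, mx a (fam d a c b k) (i + 1) x = 1 :=
    mx_sum h (i + 1) (S _ (by linarith) (by linarith)) (S _ (by linarith) (by linarith))
      (S _ (by linarith) (by linarith))
  exact hat_pi h0 h1 n1 n2 s1 s2 d κ H hκ hκ1 hκ2 hH

end Pool.H96.LT
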