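import Pool.Agent.H96.LT.GibbsAux

/-!
# Uniform Lipschitz functions on the d-ary tree: the marginals give a Gibbs measure
-/

open MeasureTheory Filter Topology
open scoped ENNReal

namespace Pool.H96.LT

variable {d : ℕ}

/-! ### almost every function is Lipschitz -/

theorem ae_lipUpTo {a : ℤ → ℝ} {w : ℕ → ℝ} {μ : Measure (V d → ℤ)} [IsProbabilityMeasure μ]
    (h : Marg d a w μ) (m : ℕ) : ∀ᵐ f ∂μ, LipUpTo d m f := by
  have h1 : μ (⋃ y : {y : Bl d m → ℤ // ¬ LipUpTo d m (ex0 m y)}, pat d m (ex0 m y.1)) = 0 := by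
    refine measure_iUnion_null fun y => ?_
    have h2 := h.marg m (ex0 m y.1)
    rw [R_eq_zero y.2, mul_zero] at h2
    exact (measureReal_eq_zero_iff (measure_ne_top _ _)).1 h2
  refine measure_mono_null ?_ h1
  intro f hf
  have hf' : ¬ LipUpTo d m f := hf
  have h3 : f ∈ pat d m (ex0 m ((Bl d m).restrict f)) := restrict_eq_iff.1 rfl
  refine Set.mem_iUnion.2 ⟨⟨(Bl d m).restrict f, fun h4 => hf' ?_⟩, h3⟩
  exact lipUpTo_congr (fun v hv => (h3 v hv).symm) h4

theorem ae_lip {a : ℤ → ℝ} {w : ℕ → ℝ} {μ : Measure (V d → ℤ)} [IsProbabilityMeasure μ]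
    (h : Marg d a w μ) : ∀ᵐ f ∂μ, Lip d f := by
  have h1 : ∀ᵐ f ∂μ, ∀ m, LipUpTo d m f := ae_all_iff.2 fun m => ae_lipUpTo h m
  filter_upwards [h1] with f hf
  exact lip_iff.2 hf

/-! ### modification on a finite set -/

/-- the function `f` with the values on `U` replaced by `p` -/
def md (U : Finset (V d)) (p : U → ℤ) (f : V d → ℤ) : V d → ℤ :=
  fun v => if h : v ∈ U then p ⟨v, h⟩ else f v

lemma md_mem {U : Finset (V d)} (p : U → ℤ) (f : V d → ℤ) (u : U) : md U p f u.1 = p u := by
  simp [md]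

lemma md_not_mem {U : Finset (V d)} (p : U → ℤ) (f : V d → ℤ) {v : V d} (h : v ∉ U) :
    md U p f v = f v := by
  simp [md, h]

/-- the values on `U` -/
def rs (U : Finset (V d)) (f : V d → ℤ) : U → ℤ := fun u => f u.1

lemma rs_md (U : Finset (V d)) (p : U → ℤ) (f : V d → ℤ) : rs U (md U p f) = p :=
  funext fun u => md_mem p f u

lemma md_md (U : Finset (V d)) (p q : U → ℤ) (f : V d → ℤ) : md U p (md U q f) = md U p f := by
  funext v
  by_cases h : v ∈ U
  · simp [md, h]
  · simp [md, h]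

lemma md_rs (U : Finset (V d)) (f : V d → ℤ) : md U (rs U f) f = f := by
  funext v
  by_cases h : v ∈ U
  · simp [md, h, rs]
  · simp [md, h]

lemma measurable_md (U : Finset (V d)) (p : U → ℤ) : Measurable (md U p) := by
  refine measurable_pi_lambda _ fun v => ?_
  by_cases h : v ∈ U
  · simp only [md, h, dite_true]
    exact measurable_const
  · simp only [md, h, dite_false]
    exact measurable_pi_apply v

lemma measurable_rs (U : Finset (V d)) : Measurable (rs U) :=
  measurable_pi_lambda _ fun u => measurable_pi_apply u.1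

lemma ext_inter (U : Finset (V d)) (f : V d → ℤ) (E : Set (V d → ℤ)) :
    Ext d U f ∩ E = (fun p => md U p f) '' {p | md U p f ∈ {g | Lip d g} ∩ E} := by
  ext g
  constructor
  · rintro ⟨⟨h1, h2⟩, h3⟩
    have h4 : md U (rs U g) f = g := by
      funext v
      by_cases h : v ∈ U
      · simp [md, h, rs]
      · simp [md, h, h2 v h]
    refine ⟨rs U g, ?_, h4⟩
    show md U (rs U g) f ∈ {g | Lip d g} ∩ E
    rw [h4]
    exact ⟨h1, h3⟩
  · rintro ⟨p, ⟨hp1, hp2⟩, rfl⟩
    exact ⟨⟨hp1, fun v hv => md_not_mem p f hv⟩, hp2⟩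

lemma md_injective (U : Finset (V d)) (f : V d → ℤ) :
    Function.Injective (fun p => md U p f) := by
  intro p q h
  have := congrArg (rs U) h
  simpa [rs_md] using this

/-- counting the extensions as a sum over all patterns on `U` -/
lemma ncard_ext (hd : 1 ≤ d) (U : Finset (V d)) (f : V d → ℤ) (E : Set (V d → ℤ)) :
    ((Ext d U f ∩ E).ncard : ℝ≥0∞) =
      ∑' p : U → ℤ, ({g | Lip d g} ∩ E).indicator (fun _ => (1 : ℝ≥0∞)) (md U p f) := by
  set s : Set (U → ℤ) := {p | md U p f ∈ {g | Lip d g} ∩ E} with hs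
  have h1 : (Ext d U f ∩ E).ncard = s.ncard := by
    rw [ext_inter, Set.ncard_image_of_injective _ (md_injective U f)]
  have hfin : s.Finite := by
    have h2 : ((fun p => md U p f) '' s).Finite := by
      rw [← ext_inter]
      exact (ext_finite hd U f).subset Set.inter_subset_left
    exact Set.Finite.of_finite_image h2 (md_injective U f).injOn
  rw [h1]
  have h3 : ∀ p : U → ℤ, ({g | Lip d g} ∩ E).indicator (fun _ => (1 : ℝ≥0∞)) (md U p f) =
      s.indicator (fun _ => (1 : ℝ≥0∞)) p := fun p => rfl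
  rw [tsum_congr h3, ← tsum_subtype s (fun _ => (1 : ℝ≥0∞)), ENNReal.tsum_set_one,
    ← hfin.cast_ncard_eq]
  simp

/-- the number of Lipschitz extensions -/
noncomputable def NN (U : Finset (V d)) (f : V d → ℤ) : ℝ≥0∞ :=
  ∑' p : U → ℤ, ({g | Lip d g}).indicator (fun _ => (1 : ℝ≥0∞)) (md U p f)

lemma NN_eq (hd : 1 ≤ d) (U : Finset (V d)) (f : V d → ℤ) :
    ((Ext d U f).ncard : ℝ≥0∞) = NN U f := by
  have := ncard_ext hd U f Set.univ
  rw [Set.inter_univ, Set.inter_univ] at this
  exact this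

lemma NN_md (U : Finset (V d)) (p : U → ℤ) (f : V d → ℤ) : NN U (md U p f) = NN U f := by
  unfold NN
  simp only [md_md]

lemma NN_ne_top (hd : 1 ≤ d) (U : Finset (V d)) (f : V d → ℤ) : NN U f ≠ ⊤ := by
  rw [← NN_eq hd]
  exact ENNReal.natCast_ne_top _

lemma NN_ne_zero (hd : 1 ≤ d) (U : Finset (V d)) {f : V d → ℤ} (hf : Lip d f) : NN U f ≠ 0 := by
  rw [← NN_eq hd]
  have h1 : 0 < (Ext d U f).ncard :=
    (Set.ncard_pos (ext_finite hd U f)).2 ⟨f, mem_ext_self hf⟩
  exact_mod_cast h1.ne'

lemma measurable_NN (U : Finset (V d)) : Measurable (NN U : (V d → ℤ) → ℝ≥0∞) := by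
  refine Measurable.ennreal_tsum fun p => ?_
  exact (measurable_const.indicator measurableSet_lip).comp (measurable_md U p)

/-- the integrand -/
noncomputable def hh (U : Finset (V d)) (E : Set (V d → ℤ)) (g : V d → ℤ) : ℝ≥0∞ :=
  ({g | Lip d g} ∩ E).indicator (fun _ => (1 : ℝ≥0∞)) g / NN U g

lemma measurable_hh (U : Finset (V d)) {E : Set (V d → ℤ)} (hE : MeasurableSet E) :
    Measurable (hh U E) :=
  (measurable_const.indicator (measurableSet_lip.inter hE)).div (measurable_NN U)

lemma integrand_eq (hd : 1 ≤ d) (U : Finset (V d)) (f : V d → ℤ) (E : Set (V d → ℤ)) :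
    ((Ext d U f ∩ E).ncard : ℝ≥0∞) / ((Ext d U f).ncard : ℝ≥0∞) =
      ∑' p : U → ℤ, hh U E (md U p f) := by
  rw [ncard_ext hd, NN_eq hd, div_eq_mul_inv, ← ENNReal.tsum_mul_right]
  refine tsum_congr fun p => ?_
  rw [hh, NN_md, div_eq_mul_inv]

/-! ### the exchange -/

/-- Lipschitz functions with values `q` on `U` which stay Lipschitz with values `p` on `U` -/
def SS (U : Finset (V d)) (q p : U → ℤ) : Set (V d → ℤ) :=
  {f | Lip d f ∧ Lip d (md U p f) ∧ rs U f = q}

lemma measurableSet_SS (U : Finset (V d)) (q p : U → ℤ) : MeasurableSet (SS U q p) := by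
  have : SS U q p = {f | Lip d f} ∩ ((md U p) ⁻¹' {f | Lip d f} ∩ (rs U) ⁻¹' {q}) := rfl
  rw [this]
  exact measurableSet_lip.inter (((measurable_md U p) measurableSet_lip).inter
    ((measurable_rs U) (measurableSet_singleton _)))

open Classical in
lemma meas_SS {μ : Measure (V d → ℤ)} (hμ : ∀ᵐ f ∂μ, Lip d f) (U : Finset (V d)) (p q : U → ℤ)
    {m : ℕ} (hm : ∀ u ∈ U, u.length < m) (g : V d → ℤ) (hg : rs U g = p) :
    μ ((md U p) ⁻¹' pat d m g ∩ SS U q p) =
      if LipUpTo d m g then μ (pat d m (md U q g)) else 0 := by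
  split_ifs with hL
  · refine measure_congr ?_
    filter_upwards [hμ] with f hf
    refine propext ?_
    show (md U p f ∈ pat d m g ∧ f ∈ SS U q p) ↔ f ∈ pat d m (md U q g)
    constructor
    · rintro ⟨h1, _, _, h3⟩ v hv
      by_cases hvU : v ∈ U
      · rw [show md U q g v = q ⟨v, hvU⟩ from md_mem q g ⟨v, hvU⟩, ← h3]
        rfl
      · rw [md_not_mem q g hvU, ← h1 v hv, md_not_mem p f hvU]
    · intro h1
      have h2 : rs U f = q := by
        funext u
        have := h1 u.1 (hm u.1 u.2).le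
        rw [md_mem] at this
        exact this
      have h3 : md U p f ∈ pat d m g := by
        intro v hv
        by_cases hvU : v ∈ U
        · rw [show md U p f v = p ⟨v, hvU⟩ from md_mem p f ⟨v, hvU⟩, ← hg]
          rfl
        · rw [md_not_mem p f hvU, h1 v hv, md_not_mem q g hvU]
      refine ⟨h3, hf, ?_, h2⟩
      intro v c
      by_cases hv : v.length < m
      · rw [h3 v hv.le, h3 (v ++ [c]) (by simp; omega)]
        exact hL v c hv
      · have h4 : v ∉ U := fun h => hv (hm v h)
        have h5 : v ++ [c] ∉ U := fun h => hv (by have := hm _ h; simp at this; omega)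
        rw [md_not_mem p f h4, md_not_mem p f h5]
        exact hf v c
  · have : (md U p) ⁻¹' pat d m g ∩ SS U q p = ∅ := by
      rw [Set.eq_empty_iff_forall_notMem]
      rintro f ⟨h1, _, h2, _⟩
      exact hL (lipUpTo_congr h1 (lip_iff.1 h2 m))
    rw [this, measure_empty]

theorem exchange {a : ℤ → ℝ} {w : ℕ → ℝ} {μ : Measure (V d → ℤ)} [IsProbabilityMeasure μ]
    (h : Marg d a w μ) (U : Finset (V d)) (p q : U → ℤ) :
    (μ.restrict (SS U q p)).map (md U p) = μ.restrict (SS U p q) := by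
  classical
  have hμ := ae_lip h
  have hfin : IsFiniteMeasure ((μ.restrict (SS U q p)).map (md U p)) :=
    Measure.isFiniteMeasure_map _ _
  refine ext_pat (U.sup List.length + 1) fun m hm0 g => ?_
  have hm : ∀ u ∈ U, u.length < m := fun u hu =>
    lt_of_lt_of_le (Nat.lt_succ_of_le (Finset.le_sup (f := List.length) hu)) hm0
  rw [Measure.map_apply (measurable_md U p) (measurableSet_pat m g),
    Measure.restrict_apply ((measurable_md U p) (measurableSet_pat m g)),
    Measure.restrict_apply (measurableSet_pat m g)]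
  by_cases hg : rs U g = p
  · -- the right hand side
    have h1 : pat d m g ∩ SS U p q = (md U q) ⁻¹' pat d m (md U q g) ∩ SS U p q := by
      ext f
      constructor
      · rintro ⟨h1, h2⟩
        refine ⟨?_, h2⟩
        intro v hv
        by_cases hvU : v ∈ U
        · rw [show md U q f v = q ⟨v, hvU⟩ from md_mem q f ⟨v, hvU⟩,
            show md U q g v = q ⟨v, hvU⟩ from md_mem q g ⟨v, hvU⟩]
        · rw [md_not_mem q f hvU, md_not_mem q g hvU, h1 v hv]
      · rintro ⟨h1, h2⟩
        refine ⟨?_, h2⟩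
        intro v hv
        by_cases hvU : v ∈ U
        · have h3 := congrFun (h2.2.2.trans hg.symm) ⟨v, hvU⟩
          exact h3
        · have h3 := h1 v hv
          rwa [md_not_mem q f hvU, md_not_mem q g hvU] at h3
    have hgq : rs U (md U q g) = q := rs_md U q g
    have h2 : md U p (md U q g) = g := by
      rw [md_md, ← hg, md_rs]
    rw [h1, meas_SS hμ U p q hm g hg, meas_SS hμ U q p hm (md U q g) hgq, h2]
    have hz : ∀ g', ¬ LipUpTo d m g' → μ (pat d m g') = 0 := by
      intro g' hg'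
      have h3 := h.marg m g'
      rw [R_eq_zero hg', mul_zero] at h3
      exact (measureReal_eq_zero_iff (measure_ne_top _ _)).1 h3
    by_cases hL : LipUpTo d m g <;> by_cases hL' : LipUpTo d m (md U q g)
    · rw [if_pos hL, if_pos hL']
      have h3 : μ.real (pat d m (md U q g)) = μ.real (pat d m g) := by
        rw [h.marg, h.marg, R_congr hL' hL fun v hv => ?_]
        refine md_not_mem q g fun hvU => ?_
        have := hm v hvU
        omega
      exact (measureReal_eq_measureReal_iff (measure_ne_top _ _) (measure_ne_top _ _)).1 h3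
    · rw [if_pos hL, if_neg hL', hz _ hL']
    · rw [if_neg hL, if_pos hL', hz _ hL]
    · rw [if_neg hL, if_neg hL']
  · -- both sides are empty
    have h1 : (md U p) ⁻¹' pat d m g ∩ SS U q p = ∅ := by
      rw [Set.eq_empty_iff_forall_notMem]
      rintro f ⟨h1, _⟩
      refine hg (funext fun u => ?_)
      have := h1 u.1 (hm u.1 u.2).le
      rw [md_mem] at this
      exact this.symm
    have h2 : pat d m g ∩ SS U p q = ∅ := by
      rw [Set.eq_empty_iff_forall_notMem]
      rintro f ⟨h2, h3⟩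
      refine hg (funext fun u => ?_)
      have h4 := h2 u.1 (hm u.1 u.2).le
      have h5 := congrFun h3.2.2 u
      rw [← h5]
      exact h4.symm
    rw [h1, h2]

/-! ### the DLR equation -/

theorem dlr (hd : 1 ≤ d) {a : ℤ → ℝ} {w : ℕ → ℝ} {μ : Measure (V d → ℤ)}
    [IsProbabilityMeasure μ] (h : Marg d a w μ) (U : Finset (V d)) (E : Set (V d → ℤ))
    (hE : MeasurableSet E) :
    μ E = ∫⁻ f, ((Ext d U f ∩ E).ncard : ℝ≥0∞) / ((Ext d U f).ncard : ℝ≥0∞) ∂μ := by
  classical
  have hμ := ae_lip h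
  have hmh := measurable_hh U hE
  have hmc : ∀ p : U → ℤ, Measurable (fun f => hh U E (md U p f)) := fun p =>
    hmh.comp (measurable_md U p)
  -- the integral for one pattern
  have h1 : ∀ p : U → ℤ, ∫⁻ f, hh U E (md U p f) ∂μ =
      ∑' q : U → ℤ, ∫⁻ f, (SS U p q).indicator (hh U E) f ∂μ := by
    intro p
    have h2 : ∀ q : U → ℤ, ∫⁻ f, (SS U p q).indicator (hh U E) f ∂μ =
        ∫⁻ f, (SS U q p).indicator (fun f => hh U E (md U p f)) f ∂μ := by
      intro q
      rw [lintegral_indicator (measurableSet_SS U p q), lintegral_indicator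
        (measurableSet_SS U q p), ← exchange h U p q,
        lintegral_map hmh (measurable_md U p)]
    have h2' : ∑' q : U → ℤ, ∫⁻ f, (SS U q p).indicator (fun f => hh U E (md U p f)) f ∂μ =
        ∫⁻ f, ∑' q : U → ℤ, (SS U q p).indicator (fun f => hh U E (md U p f)) f ∂μ :=
      (lintegral_tsum fun q =>
        ((hmc p).indicator (measurableSet_SS U q p)).aemeasurable).symm
    rw [tsum_congr h2, h2']
    refine lintegral_congr_ae ?_
    filter_upwards [hμ] with f hf
    by_cases hp : Lip d (md U p f)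
    · rw [tsum_eq_single (rs U f)]
      · rw [Set.indicator_of_mem]
        exact ⟨hf, hp, rfl⟩
      · intro q hq
        rw [Set.indicator_of_notMem]
        exact fun h3 => hq h3.2.2.symm
    · have h3 : hh U E (md U p f) = 0 := by
        unfold hh
        rw [Set.indicator_of_notMem (fun h4 => hp h4.1), ENNReal.zero_div]
      rw [h3]
      symm
      rw [ENNReal.tsum_eq_zero]
      intro q
      rw [Set.indicator_of_notMem]
      exact fun h4 => hp h4.2.1
  have h2 : ∫⁻ f, ((Ext d U f ∩ E).ncard : ℝ≥0∞) / ((Ext d U f).ncard : ℝ≥0∞) ∂μ =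
      ∑' p : U → ℤ, ∫⁻ f, hh U E (md U p f) ∂μ := by
    have h2' : ∑' p : U → ℤ, ∫⁻ f, hh U E (md U p f) ∂μ =
        ∫⁻ f, ∑' p : U → ℤ, hh U E (md U p f) ∂μ :=
      (lintegral_tsum fun p => (hmc p).aemeasurable).symm
    rw [h2']
    refine lintegral_congr fun f => ?_
    exact integrand_eq hd U f E
  rw [h2, tsum_congr h1]
  have hmi : ∀ p q : U → ℤ, Measurable ((SS U p q).indicator (hh U E)) := fun p q =>
    hmh.indicator (measurableSet_SS U p q)
  have h3 : ∀ p : U → ℤ, ∑' q : U → ℤ, ∫⁻ f, (SS U p q).indicator (hh U E) f ∂μ =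
      ∫⁻ f, ∑' q : U → ℤ, (SS U p q).indicator (hh U E) f ∂μ := fun p =>
    (lintegral_tsum fun q => (hmi p q).aemeasurable).symm
  rw [tsum_congr h3, ← lintegral_tsum fun p =>
    (Measurable.ennreal_tsum fun q => hmi p q).aemeasurable, ← lintegral_indicator_one hE]
  refine lintegral_congr_ae ?_
  filter_upwards [hμ] with f hf
  rw [tsum_eq_single (rs U f)]
  · have h4 : ∀ q : U → ℤ, (SS U (rs U f) q).indicator (hh U E) f =
        ({g | Lip d g}).indicator (fun _ => (1 : ℝ≥0∞)) (md U q f) * hh U E f := by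
      intro q
      by_cases hq : Lip d (md U q f)
      · rw [Set.indicator_of_mem (show f ∈ SS U (rs U f) q from ⟨hf, hq, rfl⟩),
          Set.indicator_of_mem (show md U q f ∈ {g | Lip d g} from hq), one_mul]
      · rw [Set.indicator_of_notMem (fun h5 : f ∈ SS U (rs U f) q => hq h5.2.1),
          Set.indicator_of_notMem (fun h5 : md U q f ∈ {g | Lip d g} => hq h5), zero_mul]
    rw [tsum_congr h4, ENNReal.tsum_mul_right]
    show E.indicator 1 f = NN U f * hh U E f
    unfold hh
    rw [ENNReal.mul_div_cancel (NN_ne_zero hd U hf) (NN_ne_top hd U f)]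
    by_cases hfE : f ∈ E
    · rw [Set.indicator_of_mem hfE, Set.indicator_of_mem (show f ∈ {g | Lip d g} ∩ E from
        ⟨hf, hfE⟩)]
      rfl
    · rw [Set.indicator_of_notMem hfE, Set.indicator_of_notMem
        (fun h5 : f ∈ {g | Lip d g} ∩ E => hfE h5.2)]
  · intro p hp
    rw [ENNReal.tsum_eq_zero]
    intro q
    rw [Set.indicator_of_notMem]
    exact fun h5 => hp h5.2.2.symm

/-- The marginals determine a Gibbs measure. -/
theorem gibbs_of_marg (d : ℕ) (hd : 1 ≤ d) (a : ℤ → ℝ) (w : ℕ → ℝ) (μ : Measure (V d → ℤ))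
    [IsProbabilityMeasure μ] (h : Marg d a w μ) : IsGibbs d μ :=
  ⟨inferInstance, ae_lip h, fun U E hE => dlr hd h U E hE⟩

end Pool.H96.LT
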