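import Pool.Agent.H96.LT.Defs

/-!
# Uniform Lipschitz functions on the d-ary tree: patterns, measurability, finiteness
-/

open MeasureTheory Filter Topology

namespace Pool.H96.LT

variable {d : ℕ}

/-- the ball of radius `m` -/
noncomputable def Bl (d m : ℕ) : Finset (V d) := (List.finite_length_le (Fin d) m).toFinset

lemma mem_Bl {m : ℕ} {v : V d} : v ∈ Bl d m ↔ v.length ≤ m := by
  simp [Bl]

/-! ### the weight `R` -/

lemma lipUpTo_succ {m : ℕ} {g : V d → ℤ} : LipUpTo d (m + 1) g ↔
    (∀ c : Fin d, |g [c] - g []| ≤ 1) ∧ ∀ c : Fin d, LipUpTo d m (fun w => g (c :: w)) := by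
  constructor
  · intro h
    refine ⟨fun c => h [] c (by simp), fun c v e hv => ?_⟩
    have := h (c :: v) e (by simpa using hv)
    simpa using this
  · rintro ⟨h1, h2⟩ v c hv
    cases v with
    | nil => exact h1 c
    | cons e v => exact h2 e v c (by simpa using hv)

lemma lipUpTo_congr {m : ℕ} {g g' : V d → ℤ} (h : ∀ v : V d, v.length ≤ m → g v = g' v)
    (hg : LipUpTo d m g) : LipUpTo d m g' := by
  intro v c hv
  rw [← h v hv.le, ← h (v ++ [c]) (by simp; omega)]
  exact hg v c hv

lemma lip_iff {g : V d → ℤ} : Lip d g ↔ ∀ m, LipUpTo d m g :=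
  ⟨fun h _ v c _ => h v c, fun h v c => h (v.length + 1) v c (Nat.lt_succ_self _)⟩

lemma R_nonneg {b : ℤ → ℝ} (hb : ∀ i, 0 < b i) (m : ℕ) (g : V d → ℤ) : 0 ≤ R d m b g := by
  induction m generalizing g with
  | zero => exact (hb _).le
  | succ m ih =>
    refine Finset.prod_nonneg fun c _ => ?_
    split_ifs
    · exact ih _
    · exact le_rfl

lemma R_pos {b : ℤ → ℝ} (hb : ∀ i, 0 < b i) {m : ℕ} {g : V d → ℤ} (h : LipUpTo d m g) :
    0 < R d m b g := by
  induction m generalizing g with
  | zero => exact hb _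
  | succ m ih =>
    rw [lipUpTo_succ] at h
    refine Finset.prod_pos fun c _ => ?_
    rw [if_pos (h.1 c)]
    exact ih (h.2 c)

lemma R_eq_zero {b : ℤ → ℝ} {m : ℕ} {g : V d → ℤ} (h : ¬ LipUpTo d m g) : R d m b g = 0 := by
  induction m generalizing g with
  | zero => exact absurd (fun v c hv => absurd hv (Nat.not_lt_zero _)) h
  | succ m ih =>
    rw [lipUpTo_succ] at h
    by_cases h1 : ∀ c : Fin d, |g [c] - g []| ≤ 1
    · have h2 : ∃ c : Fin d, ¬ LipUpTo d m (fun w => g (c :: w)) := by
        by_contra hn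
        push Not at hn
        exact h ⟨h1, hn⟩
      obtain ⟨c, hc⟩ := h2
      refine Finset.prod_eq_zero (Finset.mem_univ c) ?_
      rw [if_pos (h1 c), ih hc]
    · push Not at h1
      obtain ⟨c, hc⟩ := h1
      exact Finset.prod_eq_zero (Finset.mem_univ c) (if_neg (not_le.2 hc))

lemma R_congr {b : ℤ → ℝ} {m : ℕ} {g g' : V d → ℤ} (h : LipUpTo d m g) (h' : LipUpTo d m g')
    (he : ∀ v : V d, v.length = m → g v = g' v) : R d m b g = R d m b g' := by
  induction m generalizing g g' with
  | zero => 
    show b (g []) = b (g' [])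
    rw [he [] rfl]
  | succ m ih =>
    rw [lipUpTo_succ] at h h'
    refine Finset.prod_congr rfl fun c _ => ?_
    rw [if_pos (h.1 c), if_pos (h'.1 c)]
    exact ih (h.2 c) (h'.2 c) (fun v hv => he (c :: v) (by simp [hv]))

/-! ### measurability -/

lemma measurableSet_pat (m : ℕ) (g : V d → ℤ) : MeasurableSet (pat d m g) := by
  have : pat d m g = ⋂ v : V d, {f | v.length ≤ m → f v = g v} := by
    ext f
    simp [pat]
  rw [this]
  refine MeasurableSet.iInter fun v => ?_
  by_cases hv : v.length ≤ m
  · have : {f : V d → ℤ | v.length ≤ m → f v = g v} = (fun f => f v) ⁻¹' {g v} := by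
      ext f
      simp [hv]
    rw [this]
    exact measurable_pi_apply v (measurableSet_singleton _)
  · have : {f : V d → ℤ | v.length ≤ m → f v = g v} = Set.univ := by
      ext f
      simp [hv]
    rw [this]
    exact MeasurableSet.univ

lemma measurable_cons (c : Fin d) : Measurable (fun (f : V d → ℤ) (w : V d) => f (c :: w)) :=
  measurable_pi_lambda _ fun w => measurable_pi_apply (c :: w)

lemma measurableSet_lvl (k : ℕ) (y : Lv d k) : MeasurableSet {f : V d → ℤ | lvl d k f = y} := by
  induction k with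
  | zero =>
    have : {f : V d → ℤ | lvl d 0 f = y} = (fun f => f []) ⁻¹' {(y : ℤ)} := rfl
    rw [this]
    exact measurable_pi_apply [] (measurableSet_singleton _)
  | succ k ih =>
    have : {f : V d → ℤ | lvl d (k + 1) f = y} =
        ⋂ c : Fin d, (fun (f : V d → ℤ) (w : V d) => f (c :: w)) ⁻¹' {f | lvl d k f = y c} := by
      ext f
      simp only [Set.mem_setOf_eq, Set.mem_iInter, Set.mem_preimage]
      exact ⟨fun h c => congrFun h c, fun h => funext h⟩
    rw [this]
    exact MeasurableSet.iInter fun c => measurable_cons c (ih (y c))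

lemma measurableSet_edge (v w : V d) : MeasurableSet {f : V d → ℤ | |f w - f v| ≤ 1} := by
  have h : Measurable (fun f : V d → ℤ => (f w, f v)) :=
    (measurable_pi_apply w).prodMk (measurable_pi_apply v)
  exact h (MeasurableSet.of_discrete (s := {x : ℤ × ℤ | |x.1 - x.2| ≤ 1}))

lemma measurableSet_lip : MeasurableSet {f : V d → ℤ | Lip d f} := by
  have : {f : V d → ℤ | Lip d f} = ⋂ v : V d, ⋂ c : Fin d, {f | |f (v ++ [c]) - f v| ≤ 1} := by
    ext f
    simp [Lip]
  rw [this]
  exact MeasurableSet.iInter fun v => MeasurableSet.iInter fun c => measurableSet_edge _ _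

lemma measurableSet_lipUpTo (m : ℕ) : MeasurableSet {f : V d → ℤ | LipUpTo d m f} := by
  have : {f : V d → ℤ | LipUpTo d m f} =
      ⋂ v : V d, ⋂ c : Fin d, ⋂ _ : v.length < m, {f | |f (v ++ [c]) - f v| ≤ 1} := by
    ext f
    simp [LipUpTo]
  rw [this]
  exact MeasurableSet.iInter fun v => MeasurableSet.iInter fun c =>
    MeasurableSet.iInter fun _ => measurableSet_edge _ _

/-! ### extension by zero of a pattern on a ball -/

/-- extension by zero -/
noncomputable def ex0 (m : ℕ) (y : Bl d m → ℤ) : V d → ℤ :=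
  fun v => if h : v ∈ Bl d m then y ⟨v, h⟩ else 0

lemma restrict_eq_iff {m : ℕ} {f : V d → ℤ} {y : Bl d m → ℤ} :
    (Bl d m).restrict f = y ↔ f ∈ pat d m (ex0 m y) := by
  constructor
  · rintro rfl v hv
    have : v ∈ Bl d m := mem_Bl.2 hv
    simp [ex0, this]
  · intro h
    funext v
    have := h v.1 (mem_Bl.1 v.2)
    simpa [ex0] using this

/-- finite measures which agree on all patterns of large balls are equal -/
theorem ext_pat {μ ν : Measure (V d → ℤ)} [IsFiniteMeasure μ] [IsFiniteMeasure ν] (m0 : ℕ)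
    (h : ∀ m, m0 ≤ m → ∀ g, μ (pat d m g) = ν (pat d m g)) : μ = ν := by
  have key : ∀ m, m0 ≤ m → μ.map (Bl d m).restrict = ν.map (Bl d m).restrict := by
    intro m hm
    refine Measure.ext_of_singleton fun y => ?_
    have hms : Measurable ((Bl d m).restrict : (V d → ℤ) → (Bl d m → ℤ)) :=
      Finset.measurable_restrict _
    rw [Measure.map_apply hms (measurableSet_singleton _),
      Measure.map_apply hms (measurableSet_singleton _)]
    have : ((Bl d m).restrict : (V d → ℤ) → (Bl d m → ℤ)) ⁻¹' {y} = pat d m (ex0 m y) := by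
      ext f
      exact restrict_eq_iff
    rw [this]
    exact h m hm _
  have hν : IsProjectiveLimit (α := fun _ : V d => ℤ) ν
      (fun I : Finset (V d) => ν.map I.restrict) := fun I => rfl
  refine IsProjectiveLimit.unique (α := fun _ : V d => ℤ) (fun I => ?_) hν
  -- a ball which contains `I`
  obtain ⟨m, hm, hI⟩ : ∃ m, m0 ≤ m ∧ I ⊆ Bl d m := by
    refine ⟨max m0 (I.sup List.length), le_max_left _ _, fun v hv => mem_Bl.2 ?_⟩
    exact (Finset.le_sup (f := List.length) hv).trans (le_max_right _ _)
  have h2 : (I.restrict : (V d → ℤ) → (I → ℤ)) =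
      (Finset.restrict₂ (π := fun _ : V d => ℤ) hI) ∘ (Bl d m).restrict := rfl
  rw [h2, ← Measure.map_map (Finset.measurable_restrict₂ _) (Finset.measurable_restrict _),
    ← Measure.map_map (Finset.measurable_restrict₂ _) (Finset.measurable_restrict _), key m hm]

/-! ### finiteness of the set of extensions -/

lemma lip_path {g : V d → ℤ} (hg : Lip d g) (u : V d) (z : Fin d) (k : ℕ) :
    |g (u ++ List.replicate k z) - g u| ≤ k := by
  induction k with
  | zero => simp
  | succ k ih =>
    have h1 := hg (u ++ List.replicate k z) z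
    have h2 : u ++ List.replicate (k + 1) z = (u ++ List.replicate k z) ++ [z] := by
      rw [List.replicate_succ', List.append_assoc]
    rw [h2]
    have h3 := abs_add_le (g (u ++ List.replicate k z ++ [z]) - g (u ++ List.replicate k z))
      (g (u ++ List.replicate k z) - g u)
    rw [sub_add_sub_cancel] at h3
    push_cast
    linarith

theorem ext_finite (hd : 1 ≤ d) (U : Finset (V d)) (f : V d → ℤ) : (Ext d U f).Finite := by
  classical
  set k := U.sup List.length + 1 with hk
  set z : Fin d := ⟨0, hd⟩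
  have hU : ∀ u : V d, u ++ List.replicate k z ∉ U := by
    intro u hu
    have := Finset.le_sup (f := List.length) hu
    simp at this
    omega
  have hfin : {p : U → ℤ | ∀ u, p u ∈ Set.Icc (f (u.1 ++ List.replicate k z) - k)
      (f (u.1 ++ List.replicate k z) + k)}.Finite := Set.Finite.pi' fun u => Set.finite_Icc _ _
  refine Set.Finite.of_injOn (f := fun (g : V d → ℤ) (u : U) => g u.1) ?_ ?_ hfin
  · intro g hg u
    have h1 := lip_path hg.1 u.1 z k
    rw [hg.2 _ (hU u.1)] at h1
    rw [abs_le] at h1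
    constructor <;> simp only <;> linarith [h1.1, h1.2]
  · intro g hg g' hg' he
    funext v
    by_cases hv : v ∈ U
    · exact congrFun he ⟨v, hv⟩
    · rw [hg.2 v hv, hg'.2 v hv]

lemma mem_ext_self {U : Finset (V d)} {f : V d → ℤ} (hf : Lip d f) : f ∈ Ext d U f :=
  ⟨hf, fun _ _ => rfl⟩

end Pool.H96.LT
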