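import Mathlib
import Pool.Agent.H96.LT.Defs

/-!
# The marginals of the local limits of the uniform Lipschitz functions
-/

open MeasureTheory Filter Topology

namespace Pool.H96.LT

namespace LimA

/-! ### Counting -/

/-- number of Lipschitz functions on the tree of depth `k` with root value `i` -/
noncomputable def cnt (S : Set ℤ) (d : ℕ) : ℕ → ℤ → ℝ
  | 0, i => S.indicator (fun _ => (1 : ℝ)) i
  | k + 1, i => (cnt S d k (i - 1) + cnt S d k i + cnt S d k (i + 1)) ^ d

lemma cnt_nonneg (S : Set ℤ) (d : ℕ) : ∀ k i, 0 ≤ cnt S d k i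
  | 0, i => Set.indicator_nonneg (fun _ _ => zero_le_one) i
  | k + 1, i => by
    have h1 := cnt_nonneg S d k (i - 1)
    have h2 := cnt_nonneg S d k i
    have h3 := cnt_nonneg S d k (i + 1)
    rw [cnt]; positivity

/-- the functions with root value `i` and subtrees in `A c` -/
def consSet (d : ℕ) (i : ℤ) (A : Fin d → Set (V d → ℤ)) : Set (V d → ℤ) :=
  {f | f [] = i ∧ ∀ c, (fun w => f (c :: w)) ∈ A c}

/-- decomposition at the root -/
def consEquiv (d : ℕ) (i : ℤ) (A : Fin d → Set (V d → ℤ)) :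
    (consSet d i A : Set (V d → ℤ)) ≃ (∀ c, A c) where
  toFun f c := ⟨fun w => f.1 (c :: w), f.2.2 c⟩
  invFun F := ⟨fun v => match v with
    | [] => i
    | c :: w => (F c).1 w, rfl, fun c => (F c).2⟩
  left_inv := by
    rintro ⟨f, hf, hA⟩
    apply Subtype.ext
    funext v
    cases v with
    | nil => exact hf.symm
    | cons c w => rfl
  right_inv := by
    intro F; funext c; rfl

lemma ncard_consSet (d : ℕ) (i : ℤ) (A : Fin d → Set (V d → ℤ)) :
    (consSet d i A).ncard = ∏ c, (A c).ncard := by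
  rw [← Nat.card_coe_set_eq, Nat.card_congr (consEquiv d i A), Nat.card_pi]
  simp only [Nat.card_coe_set_eq]

lemma finite_consSet (d : ℕ) (i : ℤ) (A : Fin d → Set (V d → ℤ)) (h : ∀ c, (A c).Finite) :
    (consSet d i A).Finite := by
  have : ∀ c, Finite (A c) := fun c => (h c).to_subtype
  have : Finite (consSet d i A : Set (V d → ℤ)) := Finite.of_equiv _ (consEquiv d i A).symm
  exact Set.toFinite _

lemma mem_conf_succ {d n : ℕ} {S : Set ℤ} {f : V d → ℤ} :
    f ∈ Conf d (n + 1) S ↔
      (∀ c, |f [c] - f []| ≤ 1) ∧ ∀ c, (fun w => f (c :: w)) ∈ Conf d n S := by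
  constructor
  · rintro ⟨h1, h2, h3⟩
    refine ⟨fun c => h1 [] c (by simp), fun c => ⟨fun v e hv => ?_, fun v hv => ?_, fun v hv => ?_⟩⟩
    · have := h1 (c :: v) e (by simpa using hv)
      simpa using this
    · exact h2 (c :: v) (by simpa using hv)
    · exact h3 (c :: v) (by simpa using hv)
  · rintro ⟨h1, h2⟩
    refine ⟨fun v e hv => ?_, fun v hv => ?_, fun v hv => ?_⟩
    · cases v with
      | nil => simpa using h1 e
      | cons c w =>
        have := (h2 c).1 w e (by simpa using hv)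
        simpa using this
    · cases v with
      | nil => simp at hv
      | cons c w => exact (h2 c).2.1 w (by simpa using hv)
    · cases v with
      | nil => simp at hv
      | cons c w => exact (h2 c).2.2 w (by simpa using hv)

lemma mem_conf_zero {d : ℕ} {S : Set ℤ} {f : V d → ℤ} :
    f ∈ Conf d 0 S ↔ f [] ∈ S ∧ ∀ v, v ≠ [] → f v = 0 := by
  constructor
  · rintro ⟨-, h2, h3⟩
    exact ⟨h2 [] rfl, fun v hv => h3 v (List.length_pos_iff.mpr hv)⟩
  · rintro ⟨h1, h2⟩
    refine ⟨fun v e hv => absurd hv (by simp), fun v hv => ?_, fun v hv => ?_⟩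
    · rw [List.length_eq_zero_iff.mp hv]; exact h1
    · exact h2 v (List.length_pos_iff.mp hv)

/-- configurations with root value `i` -/
def B (d n : ℕ) (S : Set ℤ) (i : ℤ) : Set (V d → ℤ) := {f ∈ Conf d n S | f [] = i}

lemma near_eq (d n : ℕ) (S : Set ℤ) (i : ℤ) :
    {f ∈ Conf d n S | |f [] - i| ≤ 1} = B d n S (i - 1) ∪ B d n S i ∪ B d n S (i + 1) := by
  ext f
  simp only [B, Set.mem_ofPred_eq, Set.mem_union]
  constructor
  · rintro ⟨h1, h2⟩
    rw [abs_le] at h2
    have : f [] = i - 1 ∨ f [] = i ∨ f [] = i + 1 := by omega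
    tauto
  · rintro ((⟨h1, h2⟩ | ⟨h1, h2⟩) | ⟨h1, h2⟩) <;> refine ⟨h1, ?_⟩ <;> rw [h2, abs_le] <;>
      constructor <;> linarith

lemma B_succ (d n : ℕ) (S : Set ℤ) (i : ℤ) :
    B d (n + 1) S i = consSet d i (fun _ => {f ∈ Conf d n S | |f [] - i| ≤ 1}) := by
  ext f
  simp only [B, consSet, Set.mem_ofPred_eq, mem_conf_succ]
  constructor
  · rintro ⟨⟨h1, h2⟩, h3⟩
    exact ⟨h3, fun c => ⟨h2 c, by rw [← h3]; exact h1 c⟩⟩
  · rintro ⟨h3, h4⟩
    exact ⟨⟨fun c => by rw [h3]; exact (h4 c).2, fun c => (h4 c).1⟩, h3⟩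

lemma count0 (d : ℕ) (S : Set ℤ) : ∀ n i, (B d n S i).Finite ∧ ((B d n S i).ncard : ℝ) = cnt S d n i
  | 0, i => by
    classical
    by_cases hi : i ∈ S
    · have : B d 0 S i = {fun v => if v = [] then i else 0} := by
        ext f
        simp only [B, Set.mem_ofPred_eq, mem_conf_zero, Set.mem_singleton_iff]
        constructor
        · rintro ⟨⟨h1, h2⟩, h3⟩
          funext v
          by_cases hv : v = []
          · rw [if_pos hv, hv, h3]
          · rw [if_neg hv, h2 v hv]
        · rintro rfl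
          refine ⟨⟨by simpa using hi, fun v hv => by simp [hv]⟩, by simp⟩
      rw [this]
      refine ⟨Set.finite_singleton _, ?_⟩
      rw [Set.ncard_singleton, cnt, Set.indicator_of_mem hi]; simp
    · have : B d 0 S i = ∅ := by
        ext f
        simp only [B, Set.mem_ofPred_eq, mem_conf_zero, Set.mem_empty_iff_false, iff_false]
        rintro ⟨⟨h1, h2⟩, h3⟩
        exact hi (h3 ▸ h1)
      rw [this]
      refine ⟨Set.finite_empty, ?_⟩
      rw [Set.ncard_empty, cnt, Set.indicator_of_notMem hi]; simp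
  | n + 1, i => by
    have h1 := count0 d S n (i - 1)
    have h2 := count0 d S n i
    have h3 := count0 d S n (i + 1)
    have hfin : ({f ∈ Conf d n S | |f [] - i| ≤ 1} : Set (V d → ℤ)).Finite := by
      rw [near_eq]; exact (h1.1.union h2.1).union h3.1
    refine ⟨?_, ?_⟩
    · rw [B_succ]; exact finite_consSet _ _ _ fun _ => hfin
    · have hc : ({f ∈ Conf d n S | |f [] - i| ≤ 1} : Set (V d → ℤ)).ncard
          = (B d n S (i - 1)).ncard + (B d n S i).ncard + (B d n S (i + 1)).ncard := by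
        rw [near_eq, Set.ncard_union_eq _ (h1.1.union h2.1) h3.1, Set.ncard_union_eq _ h1.1 h2.1]
        · rw [Set.disjoint_left]
          rintro f ⟨-, hf⟩ ⟨-, hf'⟩
          rw [hf] at hf'; omega
        · rw [Set.disjoint_left]
          rintro f (⟨-, hf⟩ | ⟨-, hf⟩) ⟨-, hf'⟩ <;> rw [hf] at hf' <;> omega
      rw [B_succ, ncard_consSet, cnt]
      simp only [Finset.prod_const, Finset.card_univ, Fintype.card_fin]
      rw [hc]
      push_cast
      rw [h1.2, h2.2, h3.2]

lemma mem_pat_succ {d m : ℕ} {f g : V d → ℤ} :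
    f ∈ pat d (m + 1) g ↔
      f [] = g [] ∧ ∀ c, (fun w => f (c :: w)) ∈ pat d m (fun w => g (c :: w)) := by
  constructor
  · intro h
    exact ⟨h [] (by simp), fun c v hv => h (c :: v) (by simpa using hv)⟩
  · rintro ⟨h1, h2⟩ v hv
    cases v with
    | nil => exact h1
    | cons c w => exact h2 c w (by simpa using hv)

lemma count (d : ℕ) (S : Set ℤ) : ∀ m k (g : V d → ℤ),
    (({f ∈ Conf d (k + m) S | f ∈ pat d m g} : Set (V d → ℤ)).ncard : ℝ) = R d m (cnt S d k) g
  | 0, k, g => by
    have : ({f ∈ Conf d (k + 0) S | f ∈ pat d 0 g} : Set (V d → ℤ)) = B d k S (g []) := by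
      ext f
      simp only [B, Set.mem_ofPred_eq, add_zero]
      refine and_congr_right fun _ => ⟨fun h => h [] (by simp), fun h v hv => ?_⟩
      rw [List.length_eq_zero_iff.mp (Nat.le_zero.mp hv)]; exact h
    rw [this, (count0 d S k _).2]; rfl
  | m + 1, k, g => by
    classical
    have : ({f ∈ Conf d (k + (m + 1)) S | f ∈ pat d (m + 1) g} : Set (V d → ℤ))
        = consSet d (g []) (fun c => {f ∈ Conf d (k + m) S |
            f ∈ pat d m (fun w => g (c :: w)) ∧ |g [c] - g []| ≤ 1}) := by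
      ext f
      simp only [consSet, Set.mem_ofPred_eq, ← add_assoc, mem_conf_succ, mem_pat_succ]
      constructor
      · rintro ⟨⟨h1, h2⟩, h3, h4⟩
        refine ⟨h3, fun c => ⟨h2 c, h4 c, ?_⟩⟩
        have h5 : f [c] = g [c] := h4 c [] (by simp)
        rw [← h5, ← h3]; exact h1 c
      · rintro ⟨h3, h4⟩
        refine ⟨⟨fun c => ?_, fun c => (h4 c).1⟩, h3, fun c => (h4 c).2.1⟩
        have h5 : f [c] = g [c] := (h4 c).2.1 [] (by simp)
        rw [h5, h3]; exact (h4 c).2.2
    rw [this, ncard_consSet, R]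
    push_cast
    refine Finset.prod_congr rfl fun c _ => ?_
    by_cases hc : |g [c] - g []| ≤ 1
    · rw [if_pos hc, ← count d S m k]
      congr 2
      ext f
      simp [hc]
    · rw [if_neg hc]
      have : ({f ∈ Conf d (k + m) S | f ∈ pat d m (fun w => g (c :: w)) ∧ |g [c] - g []| ≤ 1} :
          Set (V d → ℤ)) = ∅ := by
        ext f; simp [hc]
      rw [this]; simp


/-! ### Positivity, monotonicity, symmetry and log-concavity of the counts -/

lemma cnt_zero_pos {S : Set ℤ} (h0 : (0 : ℤ) ∈ S) (d : ℕ) : ∀ k, 0 < cnt S d k 0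
  | 0 => by rw [cnt, Set.indicator_of_mem h0]; exact one_pos
  | k + 1 => by
    have h1 := cnt_nonneg S d k (0 - 1)
    have h2 := cnt_zero_pos h0 d k
    have h3 := cnt_nonneg S d k (0 + 1)
    rw [cnt]; positivity

lemma cnt_symm0 (d : ℕ) : ∀ k i, cnt {0} d k (-i) = cnt {0} d k i
  | 0, i => by
    simp only [cnt]
    by_cases h : i = 0
    · subst h; simp
    · rw [Set.indicator_of_notMem (by simpa using h), Set.indicator_of_notMem (by simpa using h)]
  | k + 1, i => by
    simp only [cnt]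
    rw [show -i - 1 = -(i + 1) by ring, show -i + 1 = -(i - 1) by ring, cnt_symm0 d k (i + 1),
      cnt_symm0 d k i, cnt_symm0 d k (i - 1)]
    ring

lemma cnt_symm1 (d : ℕ) : ∀ k i, cnt {0, 1} d k (1 - i) = cnt {0, 1} d k i
  | 0, i => by
    simp only [cnt]
    by_cases h : i = 0 ∨ i = 1
    · rcases h with rfl | rfl <;> simp
    · have h1 : ¬ (i = 0) := fun hh => h (Or.inl hh)
      have h2 : ¬ (i = 1) := fun hh => h (Or.inr hh)
      rw [Set.indicator_of_notMem, Set.indicator_of_notMem]
      · simp [h1, h2]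
      · simp only [Set.mem_insert_iff, Set.mem_singleton_iff]; omega
  | k + 1, i => by
    simp only [cnt]
    rw [show 1 - i - 1 = 1 - (i + 1) by ring, show 1 - i + 1 = 1 - (i - 1) by ring,
      cnt_symm1 d k (i + 1), cnt_symm1 d k i, cnt_symm1 d k (i - 1)]
    ring

lemma cnt_anti0 (d : ℕ) : ∀ k i, 0 ≤ i → cnt {0} d k (i + 1) ≤ cnt {0} d k i
  | 0, i, hi => by
    simp only [cnt]
    rw [Set.indicator_of_notMem (by simp only [Set.mem_singleton_iff]; omega)]
    exact Set.indicator_nonneg (fun _ _ => zero_le_one) _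
  | k + 1, i, hi => by
    simp only [cnt]
    have h1 := cnt_nonneg {0} d k
    have key : cnt {0} d k (i + 1 + 1) ≤ cnt {0} d k (i - 1) := by
      rcases eq_or_lt_of_le hi with h | h
      · rw [← h, show (0 : ℤ) - 1 = -(0 + 1) by ring, cnt_symm0]
        exact cnt_anti0 d k (0 + 1) (by norm_num)
      · calc cnt {0} d k (i + 1 + 1) ≤ cnt {0} d k (i + 1) := cnt_anti0 d k _ (by omega)
          _ ≤ cnt {0} d k i := cnt_anti0 d k _ (by omega)
          _ = cnt {0} d k (i - 1 + 1) := by rw [sub_add_cancel]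
          _ ≤ cnt {0} d k (i - 1) := cnt_anti0 d k _ (by omega)
    apply pow_le_pow_left₀
    · have := h1 (i + 1 - 1); have := h1 (i + 1); have := h1 (i + 1 + 1); positivity
    · rw [add_sub_cancel_right]; linarith

lemma cnt_anti1 (d : ℕ) : ∀ k i, 1 ≤ i → cnt {0, 1} d k (i + 1) ≤ cnt {0, 1} d k i
  | 0, i, hi => by
    simp only [cnt]
    rw [Set.indicator_of_notMem (by simp only [Set.mem_insert_iff, Set.mem_singleton_iff]; omega)]
    exact Set.indicator_nonneg (fun _ _ => zero_le_one) _
  | k + 1, i, hi => by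
    simp only [cnt]
    have h1 := cnt_nonneg {0, 1} d k
    have key : cnt {0, 1} d k (i + 1 + 1) ≤ cnt {0, 1} d k (i - 1) := by
      rcases eq_or_lt_of_le hi with h | h
      · rw [← h, show (1 : ℤ) - 1 = 1 - (0 + 1) by ring, cnt_symm1]
        calc cnt {0, 1} d k (1 + 1 + 1) ≤ cnt {0, 1} d k (1 + 1) := cnt_anti1 d k _ (by norm_num)
          _ ≤ cnt {0, 1} d k 1 := cnt_anti1 d k _ (by norm_num)
          _ = cnt {0, 1} d k (0 + 1) := by norm_num
      · calc cnt {0, 1} d k (i + 1 + 1) ≤ cnt {0, 1} d k (i + 1) := cnt_anti1 d k _ (by omega)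
          _ ≤ cnt {0, 1} d k i := cnt_anti1 d k _ (by omega)
          _ = cnt {0, 1} d k (i - 1 + 1) := by rw [sub_add_cancel]
          _ ≤ cnt {0, 1} d k (i - 1) := cnt_anti1 d k _ (by omega)
    apply pow_le_pow_left₀
    · have := h1 (i + 1 - 1); have := h1 (i + 1); have := h1 (i + 1 + 1); positivity
    · rw [add_sub_cancel_right]; linarith

lemma cnt_le_zero {S : Set ℤ} (hS : S = {0} ∨ S = {0, 1}) (d k : ℕ) (i : ℤ) :
    cnt S d k i ≤ cnt S d k 0 := by
  rcases hS with rfl | rfl
  · have key : ∀ n : ℕ, cnt {0} d k (n : ℤ) ≤ cnt {0} d k 0 := by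
      intro n
      induction n with
      | zero => simp
      | succ n ih =>
        push_cast
        exact (cnt_anti0 d k _ (by positivity)).trans ih
    rcases le_total 0 i with h | h
    · obtain ⟨n, rfl⟩ := Int.eq_ofNat_of_zero_le h
      exact key n
    · obtain ⟨n, hn⟩ := Int.eq_ofNat_of_zero_le (neg_nonneg.mpr h)
      rw [← cnt_symm0, hn]; exact key n
  · have key : ∀ n : ℕ, cnt {0, 1} d k (1 + n : ℤ) ≤ cnt {0, 1} d k 1 := by
      intro n
      induction n with
      | zero => simp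
      | succ n ih =>
        push_cast
        rw [← add_assoc]
        exact (cnt_anti1 d k _ (by omega)).trans ih
    have h01 : cnt {0, 1} d k 1 = cnt {0, 1} d k 0 := by
      rw [← cnt_symm1 d k 0]; norm_num
    rw [← h01]
    rcases le_total 1 i with h | h
    · obtain ⟨n, hn⟩ := Int.eq_ofNat_of_zero_le (sub_nonneg.mpr h)
      rw [show i = 1 + (n : ℤ) by omega]
      exact key n
    · obtain ⟨n, hn⟩ := Int.eq_ofNat_of_zero_le (sub_nonneg.mpr h)
      rw [← cnt_symm1, hn]
      rcases Nat.eq_zero_or_pos n with h0 | h0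
      · subst h0
        simp only [Nat.cast_zero]
        rw [← cnt_symm1 d k 0]; norm_num
      · rw [show (n : ℤ) = 1 + ((n - 1 : ℕ) : ℤ) by omega]
        exact key _

/-- log-concavity in the strong form -/
def LC (h : ℤ → ℝ) : Prop := ∀ i j, i ≤ j → h (i - 1) * h (j + 1) ≤ h i * h j

lemma LC.gen {h : ℤ → ℝ} (H : LC h) : ∀ (k : ℕ) (i j : ℤ), i ≤ j →
    h (i - k) * h (j + k) ≤ h i * h j
  | 0, i, j, _ => by simp
  | k + 1, i, j, hij => by
    have h1 := H.gen k i j hij
    have h2 := H (i - k) (j + k) (by omega)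
    push_cast
    rw [show i - ((k : ℤ) + 1) = i - k - 1 by ring, show j + ((k : ℤ) + 1) = j + k + 1 by ring]
    exact h2.trans h1

/-- the more spread pair has the smaller product -/
lemma LC.spread {h : ℤ → ℝ} (H : LC h) (a b a' b' : ℤ) (h1 : a' + b' = a + b) (h2 : a' ≤ a)
    (h3 : a' ≤ b) : h a' * h b' ≤ h a * h b := by
  rcases le_total a b with hab | hab
  · obtain ⟨k, hk⟩ := Int.eq_ofNat_of_zero_le (sub_nonneg.mpr h2)
    have := H.gen k a b hab
    rwa [show a - (k : ℤ) = a' by omega, show b + (k : ℤ) = b' by omega] at this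
  · obtain ⟨k, hk⟩ := Int.eq_ofNat_of_zero_le (sub_nonneg.mpr h3)
    have := H.gen k b a hab
    rw [show b - (k : ℤ) = a' by omega, show a + (k : ℤ) = b' by omega] at this
    linarith [mul_comm (h a) (h b)]

lemma LC.step {h : ℤ → ℝ} (H : LC h) (h0 : ∀ i, 0 ≤ h i) (d : ℕ) :
    LC (fun i => (h (i - 1) + h i + h (i + 1)) ^ d) := by
  intro i j hij
  simp only
  rw [← mul_pow, ← mul_pow]
  apply pow_le_pow_left₀
  · have e1 := h0 (i - 1 - 1); have e2 := h0 (i - 1); have e3 := h0 (i - 1 + 1)
    have e4 := h0 (j + 1 - 1); have e5 := h0 (j + 1); have e6 := h0 (j + 1 + 1)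
    positivity
  · rw [show i - 1 + 1 = i by ring, show j + 1 - 1 = j by ring]
    have e1 := H.spread (i - 1) (j - 1) (i - 1 - 1) j (by ring) (by omega) (by omega)
    have e2 := H.spread i (j - 1) (i - 1 - 1) (j + 1) (by ring) (by omega) (by omega)
    have e3 := H.spread (i + 1) j (i - 1) (j + 1 + 1) (by ring) (by omega) (by omega)
    have e4 := H.spread (i + 1) (j + 1) i (j + 1 + 1) (by ring) (by omega) (by omega)
    have e5 := H.spread (i + 1) (j - 1) (i - 1 - 1) (j + 1 + 1) (by ring) (by omega) (by omega)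
    nlinarith [e1, e2, e3, e4, e5]

lemma lc_cnt {S : Set ℤ} (hS : S = {0} ∨ S = {0, 1}) (d : ℕ) : ∀ k, LC (cnt S d k)
  | 0 => by
    intro i j hij
    have hz : cnt S d 0 (i - 1) * cnt S d 0 (j + 1) = 0 := by
      by_contra hne
      have h1 : i - 1 ∈ S := by
        by_contra hh
        exact hne (by rw [cnt, Set.indicator_of_notMem hh, zero_mul])
      have h2 : j + 1 ∈ S := by
        by_contra hh
        apply hne
        have : cnt S d 0 (j + 1) = 0 := by rw [cnt, Set.indicator_of_notMem hh]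
        rw [this, mul_zero]
      rcases hS with rfl | rfl
      · simp only [Set.mem_singleton_iff] at h1 h2; omega
      · simp only [Set.mem_insert_iff, Set.mem_singleton_iff] at h1 h2; omega
    rw [hz]
    exact mul_nonneg (cnt_nonneg S d 0 i) (cnt_nonneg S d 0 j)
  | k + 1 => by
    have := (lc_cnt hS d k).step (cnt_nonneg S d k) d
    intro i j hij
    have h := this i j hij
    simpa only [cnt] using h

/-! ### The weights `R` -/

lemma R_smul (d : ℕ) (c : ℝ) (r : ℤ → ℝ) : ∀ m (g : V d → ℤ),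
    R d m (fun i => c * r i) g = c ^ (d ^ m) * R d m r g
  | 0, g => by simp [R]
  | m + 1, g => by
    simp only [R]
    have : ∀ e : Fin d, (if |g [e] - g []| ≤ 1 then
        R d m (fun i => c * r i) (fun w => g (e :: w)) else 0)
        = c ^ (d ^ m) * (if |g [e] - g []| ≤ 1 then R d m r (fun w => g (e :: w)) else 0) := by
      intro e
      split_ifs
      · exact R_smul d c r m _
      · rw [mul_zero]
    rw [Finset.prod_congr rfl fun e _ => this e, Finset.prod_mul_distrib]
    simp only [Finset.prod_const, Finset.card_univ, Fintype.card_fin]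
    rw [← pow_mul, ← pow_succ]

lemma R_const (d : ℕ) (r : ℤ → ℝ) (hr : r 0 = 1) : ∀ m, R d m r (fun _ => (0 : ℤ)) = 1
  | 0 => hr
  | m + 1 => by
    simp only [R, sub_self, abs_zero]
    rw [if_pos (by norm_num), R_const d r hr m]
    simp

lemma R_tendsto (d : ℕ) (r : ℕ → ℤ → ℝ) (a : ℤ → ℝ)
    (h : ∀ i, Tendsto (fun k => r k i) atTop (𝓝 (a i))) : ∀ m (g : V d → ℤ),
    Tendsto (fun k => R d m (r k) g) atTop (𝓝 (R d m a g))
  | 0, g => h _
  | m + 1, g => by
    simp only [R]
    refine tendsto_finsetProd _ fun c _ => ?_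
    split_ifs
    · exact R_tendsto d r a h m _
    · exact tendsto_const_nhds


/-! ### Patterns and measures -/

/-- the ball of radius `m` -/
noncomputable def ball (d m : ℕ) : Finset (V d) := (List.finite_length_le (Fin d) m).toFinset

lemma mem_ball {d m : ℕ} {v : V d} : v ∈ ball d m ↔ v.length ≤ m := by
  simp [ball]

lemma pat_eq (d m : ℕ) (g : V d → ℤ) : pat d m g = {f | ∀ v ∈ ball d m, f v = g v} := by
  ext f
  exact ⟨fun h v hv => h v (mem_ball.mp hv), fun h v hv => h v (mem_ball.mpr hv)⟩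

lemma measurableSet_agree (d : ℕ) (U : Finset (V d)) (g : V d → ℤ) :
    MeasurableSet {f : V d → ℤ | ∀ v ∈ U, f v = g v} := by
  have : {f : V d → ℤ | ∀ v ∈ U, f v = g v} = ⋂ v ∈ U, (fun f : V d → ℤ => f v) ⁻¹' {g v} := by
    ext f; simp
  rw [this]
  exact Finset.measurableSet_biInter _ fun v _ => measurable_pi_apply v (measurableSet_singleton _)

lemma measurableSet_pat (d m : ℕ) (g : V d → ℤ) : MeasurableSet (pat d m g) := by
  rw [pat_eq]; exact measurableSet_agree d _ g

/-- not all patterns on a ball have measure zero -/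
lemma exists_pat_pos (d m : ℕ) (μ : Measure (V d → ℤ)) [IsProbabilityMeasure μ] :
    ∃ g, μ.real (pat d m g) ≠ 0 := by
  classical
  by_contra hcon
  push Not at hcon
  have hz : ∀ g, μ (pat d m g) = 0 := fun g => (measureReal_eq_zero_iff).mp (hcon g)
  have hU : (⋃ φ : (ball d m) → ℤ, pat d m (fun v => if h : v ∈ ball d m then φ ⟨v, h⟩ else 0))
      = Set.univ := by
    ext f
    simp only [Set.mem_iUnion, Set.mem_univ, iff_true]
    refine ⟨fun v => f v, fun v hv => ?_⟩
    show f v = if h : v ∈ ball d m then f v else 0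
    rw [dif_pos (mem_ball.mpr hv)]
  have h0 : μ Set.univ = 0 := by
    rw [← hU]; exact measure_iUnion_null fun φ => hz _
  rw [measure_univ] at h0
  exact one_ne_zero h0

lemma lim_pat {d : ℕ} {S : Set ℤ} {μ : Measure (V d → ℤ)} (h : IsLocalLimit d S μ) (m : ℕ)
    (g : V d → ℤ) :
    Tendsto (fun k : ℕ => R d m (cnt S d k) g / ((Conf d (k + m) S).ncard : ℝ)) atTop
      (𝓝 (μ.real (pat d m g))) := by
  have h1 := (h (ball d m) g).comp (tendsto_add_atTop_nat m)
  rw [← pat_eq] at h1
  refine h1.congr fun k => ?_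
  simp only [Function.comp_apply]
  rw [← count d S m k g]
  congr 3
  ext f
  simp only [Set.mem_ofPred_eq, pat_eq]

end LimA

open LimA in
/-- The marginals of a local limit on balls are given by boundary weights `a`, which solve the
fixed point equation, are log-concave, summable and symmetric. -/
theorem marg_of_limit (d : ℕ) (hd : 2 ≤ d) (S : Set ℤ) (hS : S = {0} ∨ S = {0, 1})
    (μ : Measure (V d → ℤ)) [IsProbabilityMeasure μ] (h : IsLocalLimit d S μ) :
    ∃ (a : ℤ → ℝ) (w : ℕ → ℝ), Marg d a w μ ∧ a 0 = 1 ∧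
      (∀ i, a (i - 1) * a (i + 1) ≤ a i ^ 2) ∧ Summable a ∧
      (S = {0} → ∀ i, a (-i) = a i) ∧ (S = {0, 1} → ∀ i, a (1 - i) = a i) := by
  classical
  have h0S : (0 : ℤ) ∈ S := by rcases hS with rfl | rfl <;> simp
  -- root marginals
  set p : ℤ → ℝ := fun i => μ.real (pat d 0 (fun _ => i)) with hp
  set Z : ℕ → ℝ := fun k => ((Conf d k S).ncard : ℝ) with hZ
  have hZ0 : ∀ k, 0 ≤ Z k := fun k => Nat.cast_nonneg _
  have hlim0 : ∀ i, Tendsto (fun k => cnt S d k i / Z k) atTop (𝓝 (p i)) := by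
    intro i
    have := lim_pat h 0 (fun _ => i)
    simpa only [R, add_zero] using this
  have hpnn : ∀ i, 0 ≤ p i := fun i => measureReal_nonneg
  have hple : ∀ i, p i ≤ p 0 := fun i =>
    le_of_tendsto_of_tendsto' (hlim0 i) (hlim0 0) fun k =>
      div_le_div_of_nonneg_right (cnt_le_zero hS d k i) (hZ0 k)
  have hroot : ∀ (i : ℤ) (g : V d → ℤ), g [] = i → pat d 0 g = pat d 0 (fun _ => i) := by
    intro i g hg
    ext f
    constructor
    · intro hf v hv
      rw [hf v hv, List.length_eq_zero_iff.mp (Nat.le_zero.mp hv), hg]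
    · intro hf v hv
      have h1 := hf v hv
      rw [List.length_eq_zero_iff.mp (Nat.le_zero.mp hv)] at h1 ⊢
      rw [h1, hg]
  have hp0 : 0 < p 0 := by
    obtain ⟨g, hg⟩ := exists_pat_pos d 0 μ
    rw [hroot _ g rfl] at hg
    have h1 : 0 < p (g []) := lt_of_le_of_ne (hpnn _) (Ne.symm hg)
    exact h1.trans_le (hple _)
  -- the normalised counts
  have hc0 : ∀ k, 0 < cnt S d k 0 := cnt_zero_pos h0S d
  set r : ℕ → ℤ → ℝ := fun k i => cnt S d k i / cnt S d k 0 with hr
  set a : ℤ → ℝ := fun i => p i / p 0 with ha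
  have hra : ∀ i, Tendsto (fun k => r k i) atTop (𝓝 (a i)) := by
    intro i
    have h1 := (hlim0 i).div (hlim0 0) hp0.ne'
    refine h1.congr' ?_
    have h2 : ∀ᶠ k in atTop, 0 < cnt S d k 0 / Z k := (hlim0 0).eventually_const_lt hp0
    filter_upwards [h2] with k hk
    have hZk : Z k ≠ 0 := by
      intro hz
      rw [hz, div_zero] at hk
      exact lt_irrefl _ hk
    simp only [Pi.div_apply, hr]
    exact div_div_div_cancel_right₀ hZk _ _
  have hrnn : ∀ k i, 0 ≤ r k i := fun k i => div_nonneg (cnt_nonneg S d k i) (hc0 k).le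
  have hann : ∀ i, 0 ≤ a i := fun i => div_nonneg (hpnn i) hp0.le
  have ha0 : a 0 = 1 := div_self hp0.ne'
  have hr0 : ∀ k, r k 0 = 1 := fun k => div_self (hc0 k).ne'
  have hD : 0 < a (-1) + a 0 + a 1 := by
    have h1 := hann (-1); have h2 := hann 1
    rw [ha0]; linarith
  have hfix : ∀ i, a i = ((a (i - 1) + a i + a (i + 1)) / (a (-1) + a 0 + a 1)) ^ d := by
    intro i
    have h1 : Tendsto (fun k => r (k + 1) i) atTop (𝓝 (a i)) :=
      (hra i).comp (tendsto_add_atTop_nat 1)
    have h2 : Tendsto (fun k => ((r k (i - 1) + r k i + r k (i + 1))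
        / (r k (-1) + r k 0 + r k 1)) ^ d) atTop
        (𝓝 (((a (i - 1) + a i + a (i + 1)) / (a (-1) + a 0 + a 1)) ^ d)) :=
      ((((hra (i - 1)).add (hra i)).add (hra (i + 1))).div
        (((hra (-1)).add (hra 0)).add (hra 1)) hD.ne').pow d
    refine tendsto_nhds_unique h1 (h2.congr fun k => ?_)
    simp only [hr, cnt]
    rw [show (0 : ℤ) - 1 = -1 by norm_num, show (0 : ℤ) + 1 = 1 by norm_num, ← div_pow,
      ← add_div, ← add_div, ← add_div, ← add_div, div_div_div_cancel_right₀ (hc0 k).ne']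
  have hpos : ∀ i, 0 < a i := by
    have hup : ∀ i, 0 < a (i - 1) → 0 < a i := by
      intro i hi
      rw [hfix i]
      have h1 := hann i; have h2 := hann (i + 1)
      positivity
    have hdn : ∀ i, 0 < a (i + 1) → 0 < a i := by
      intro i hi
      rw [hfix i]
      have h1 := hann i; have h2 := hann (i - 1)
      positivity
    have hN : ∀ n : ℕ, 0 < a n ∧ 0 < a (-n) := by
      intro n
      induction n with
      | zero => simp [ha0]
      | succ n ih =>
        push_cast
        refine ⟨hup _ (by rw [add_sub_cancel_right]; exact ih.1), hdn _ ?_⟩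
        rw [show -((n : ℤ) + 1) + 1 = -n by ring]; exact ih.2
    intro i
    rcases le_total 0 i with hi | hi
    · obtain ⟨n, rfl⟩ := Int.eq_ofNat_of_zero_le hi
      exact (hN n).1
    · obtain ⟨n, hn⟩ := Int.eq_ofNat_of_zero_le (neg_nonneg.mpr hi)
      rw [show i = -(n : ℤ) by omega]; exact (hN n).2
  -- the marginals
  set w : ℕ → ℝ := fun m => μ.real (pat d m (fun _ => 0)) with hw
  have hfac : ∀ m k (g : V d → ℤ), R d m (cnt S d k) g / ((Conf d (k + m) S).ncard : ℝ)
      = (cnt S d k 0) ^ (d ^ m) / ((Conf d (k + m) S).ncard : ℝ) * R d m (r k) g := by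
    intro m k g
    have : cnt S d k = fun i => cnt S d k 0 * r k i := by
      funext i
      simp only [hr]
      rw [mul_div_cancel₀ _ (hc0 k).ne']
    conv_lhs => rw [this, R_smul]
    ring
  have hmarg : ∀ m g, μ.real (pat d m g) = w m * R d m a g := by
    intro m g
    have h1 : Tendsto (fun k : ℕ => (cnt S d k 0) ^ (d ^ m) / ((Conf d (k + m) S).ncard : ℝ))
        atTop (𝓝 (w m)) := by
      refine (lim_pat h m (fun _ => 0)).congr fun k => ?_
      rw [hfac, R_const d (r k) (hr0 k), mul_one]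
    have h2 := h1.mul (R_tendsto d r a hra m g)
    exact tendsto_nhds_unique ((lim_pat h m g).congr fun k => hfac m k g) h2
  have hwpos : ∀ m, 0 < w m := by
    intro m
    refine lt_of_le_of_ne measureReal_nonneg fun hz => ?_
    obtain ⟨g, hg⟩ := exists_pat_pos d m μ
    rw [hmarg, ← hz, zero_mul] at hg
    exact hg rfl
  -- log-concavity
  have hlc : ∀ i, a (i - 1) * a (i + 1) ≤ a i ^ 2 := by
    intro i
    rw [sq]
    refine le_of_tendsto_of_tendsto' ((hra (i - 1)).mul (hra (i + 1)))
      ((hra i).mul (hra i)) fun k => ?_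
    simp only [hr]
    rw [div_mul_div_comm, div_mul_div_comm]
    exact div_le_div_of_nonneg_right (lc_cnt hS d k i i le_rfl) (mul_self_nonneg _)
  -- summability
  have hsum : Summable a := by
    have hs : Summable p := by
      refine summable_of_sum_le (c := 1) hpnn fun s => ?_
      have hdisj : (s : Set ℤ).PairwiseDisjoint (fun i => pat d 0 (fun _ => i)) := by
        intro i _ j _ hij
        rw [Function.onFun, Set.disjoint_left]
        intro f hi hj
        exact hij ((hi [] (by simp)).symm.trans (hj [] (by simp)))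
      have := measureReal_biUnion_finset (μ := μ) hdisj
        (fun i _ => measurableSet_pat d 0 (fun _ => i))
      rw [← this]
      exact measureReal_le_one
    exact hs.div_const _
  refine ⟨a, w, ⟨hpos, hwpos, hfix, hmarg⟩, ha0, hlc, hsum, ?_, ?_⟩
  · rintro rfl i
    refine tendsto_nhds_unique (hra (-i)) ((hra i).congr fun k => ?_)
    simp only [hr, cnt_symm0]
  · rintro rfl i
    refine tendsto_nhds_unique (hra (1 - i)) ((hra i).congr fun k => ?_)
    simp only [hr, cnt_symm1]

end Pool.H96.LT
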