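import Pool.Agent.H96.LT.Num0Base

/-!
# Numerical certificates for `S = {0}`, `2 ≤ d ≤ 7`: the numbers
-/

namespace Pool.H96.LT

namespace N0

variable {d : ℕ} {a : ℤ → ℝ}

lemma bW (h : Weights d a) (hsym : ∀ i, a (-i) = a i) {W Q2 U : ℝ}
    (hv : nq a 2 ≤ Q2) (hW0 : 0 ≤ W) (hW : 1 + Q2 ≤ 2 * W)
    (hc : 1 ≤ W + W ^ d * (2 * W - 1 - Q2)) (hU : W ^ d ≤ U) : nq a 1 ≤ U :=
  (stepW h hsym hv hW0 hW hc).trans hU

lemma b2 (h : Weights d a) {U Q2 Q3 T R : ℝ} (h1 : nq a 1 ≤ U) (h2 : nq a 2 ≤ Q2)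
    (h3 : nq a 3 ≤ Q3) (hT : T ≤ 1) (hc : U * (1 + Q2 * (1 + Q3)) ≤ T * (1 + U * (1 + Q2)))
    (hR : T ^ d ≤ R) : nq a 2 ≤ R :=
  (stepT h 2 h1 h2 h3 hT hc).trans hR

lemma b3 (h : Weights d a) {Q2 Q3 T R : ℝ} (h2 : nq a 2 ≤ Q2)
    (h3 : nq a 3 ≤ Q3) (hT : T ≤ 1) (hc : Q2 * (1 + Q3 * (1 + Q3)) ≤ T * (1 + Q2 * (1 + Q3)))
    (hR : T ^ d ≤ R) : nq a 3 ≤ R :=
  (stepT h 3 h2 h3 ((nq_anti h 3).trans h3) hT hc).trans hR

end N0

open N0

variable {a : ℤ → ℝ}

theorem num0_2 (h : Weights 2 a) (hsym : ∀ i, a (-i) = a i) : Cert0 2 a := by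
  have v0 : nq a 2 ≤ (466489 / 1000000) := by
    obtain ⟨t, ht0, ht1, hq, hi⟩ := start h hsym (by norm_num)
    have k0 : 0 ≤ (1 - t) * (1 + t ^ 2 - (t ^ 1 + t ^ 2 + t ^ 3)) := by
      have e : (1 - t) * (1 + t ^ 2 - (t ^ 1 + t ^ 2 + t ^ 3)) = 1 + t ^ 2 + t ^ (2 * 2) - t * (2 + t ^ 2) := by ring
      rw [e]; linarith
    have k1 : 0 ≤ 1 + t ^ 2 - (t ^ 1 + t ^ 2 + t ^ 3) := (mul_nonneg_iff_of_pos_left (by linarith)).1 k0
    have k2 : t + t ^ 3 ≤ 1 := by linarith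
    have k3 : t ≤ (683 / 1000) := by
      by_contra hc
      push Not at hc
      have h3 : ((683 / 1000) : ℝ) ^ 3 ≤ t ^ 3 := pow_le_pow_left₀ (by norm_num) hc.le 3
      norm_num at h3
      linarith
    rw [hq]
    exact (pow_le_pow_left₀ ht0.le k3 2).trans (by norm_num)
  have z0 : nq a 3 ≤ (466489 / 1000000) := (nq_anti h 2).trans v0
  have u1 : nq a 1 ≤ (7112561 / 10000000) := bW h hsym (W := (5271 / 6250)) v0 (by norm_num) (by norm_num) (by norm_num) (by norm_num)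
  have v2 : nq a 2 ≤ (34374769 / 100000000) := b2 h (T := (5863 / 10000)) u1 v0 z0 (by norm_num) (by norm_num) (by norm_num)
  have z3 : nq a 3 ≤ (34374769 / 100000000) := (nq_anti h 2).trans v2
  have z4 : nq a 3 ≤ (121 / 1024) := b3 h (T := (11 / 32)) v2 z3 (by norm_num) (by norm_num) (by norm_num)
  have u5 : nq a 1 ≤ (1653073 / 2500000) := bW h hsym (W := (20329 / 25000)) v2 (by norm_num) (by norm_num) (by norm_num) (by norm_num)
  have v6 : nq a 2 ≤ (23494379 / 100000000) := b2 h (T := (48471 / 100000)) u5 v2 z4 (by norm_num) (by norm_num) (by norm_num)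
  have z7 : nq a 3 ≤ (17749369 / 400000000) := b3 h (T := (4213 / 20000)) v6 z4 (by norm_num) (by norm_num) (by norm_num)
  have u8 : nq a 1 ≤ (6210859 / 10000000) := bW h hsym (W := (78809 / 100000)) v6 (by norm_num) (by norm_num) (by norm_num) (by norm_num)
  have v9 : nq a 2 ≤ (19161631 / 100000000) := b2 h (T := (21887 / 50000)) u8 v6 z7 (by norm_num) (by norm_num) (by norm_num)
  have z10 : nq a 3 ≤ (279123849 / 10000000000) := b3 h (T := (16707 / 100000)) v9 z7 (by norm_num) (by norm_num) (by norm_num)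
  have u11 : nq a 1 ≤ (3030467 / 5000000) := bW h hsym (W := (19463 / 25000)) v9 (by norm_num) (by norm_num) (by norm_num) (by norm_num)
  have v12 : nq a 2 ≤ (8872157 / 50000000) := b2 h (T := (10531 / 25000)) u11 v9 z10 (by norm_num) (by norm_num) (by norm_num)
  have z13 : nq a 3 ≤ (59582961 / 2500000000) := b3 h (T := (7719 / 50000)) v12 z10 (by norm_num) (by norm_num) (by norm_num)
  have u14 : nq a 1 ≤ (1503307 / 2500000) := bW h hsym (W := (15509 / 20000)) v12 (by norm_num) (by norm_num) (by norm_num) (by norm_num)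
  have l0 : (33033 / 62500) ≤ nq a 1 := le_trans (by norm_num) (lowU h hsym u14)
  refine cert_of_bounds h hsym (α := (1 / 2)) (κ := 0) (β := (5249 / 10000)) (ρ := (24 / 25))
    (H := (9341 / 25000)) (g1 := (23 / 10)) (g2 := (138 / 25)) (G := 8)
    (by norm_num) (by norm_num) (by norm_num) (by norm_num) (by norm_num) (by norm_num) (by norm_num)
    (by norm_num) (by norm_num) (by norm_num) u14 (by norm_num) l0 v12 (by norm_num) z13
    ?_ ?_ ?_ ?_ ?_ ?_ ?_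
  · norm_num
  · norm_num
  · norm_num
  · norm_num [Finset.sum_range_succ]
  · norm_num
  · norm_num
  · norm_num

theorem num0_3 (h : Weights 3 a) (hsym : ∀ i, a (-i) = a i) : Cert0 3 a := by
  have v0 : nq a 2 ≤ (237177 / 1000000) := by
    obtain ⟨t, ht0, ht1, hq, hi⟩ := start h hsym (by norm_num)
    have k0 : 0 ≤ (1 - t) * (1 + t ^ 3 - (t ^ 1 + t ^ 2 + t ^ 3 + t ^ 4 + t ^ 5)) := by
      have e : (1 - t) * (1 + t ^ 3 - (t ^ 1 + t ^ 2 + t ^ 3 + t ^ 4 + t ^ 5)) = 1 + t ^ 3 + t ^ (2 * 3) - t * (2 + t ^ 3) := by ring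
      rw [e]; linarith
    have k1 : 0 ≤ 1 + t ^ 3 - (t ^ 1 + t ^ 2 + t ^ 3 + t ^ 4 + t ^ 5) := (mul_nonneg_iff_of_pos_left (by linarith)).1 k0
    have k2 : t + t ^ 2 ≤ 1 := by
      have hp : 0 ≤ t ^ 4 + t ^ 5 := by positivity
      linarith
    have k3 : t ≤ (619 / 1000) := by
      by_contra hc
      push Not at hc
      have h3 : ((619 / 1000) : ℝ) ^ 2 ≤ t ^ 2 := pow_le_pow_left₀ (by norm_num) hc.le 2
      norm_num at h3
      linarith
    rw [hq]
    exact (pow_le_pow_left₀ ht0.le k3 3).trans (by norm_num)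
  have z0 : nq a 3 ≤ (237177 / 1000000) := (nq_anti h 2).trans v0
  have u1 : nq a 1 ≤ (652537 / 1250000) := bW h hsym (W := (80519 / 100000)) v0 (by norm_num) (by norm_num) (by norm_num) (by norm_num)
  have v2 : nq a 2 ≤ (6905221 / 100000000) := b2 h (T := (20513 / 50000)) u1 v0 z0 (by norm_num) (by norm_num) (by norm_num)
  have z3 : nq a 3 ≤ (6905221 / 100000000) := (nq_anti h 2).trans v2
  have z4 : nq a 3 ≤ (823417 / 2500000000) := b3 h (T := (3453 / 50000)) v2 z3 (by norm_num) (by norm_num) (by norm_num)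
  have u5 : nq a 1 ≤ (1165559 / 2500000) := bW h hsym (W := (77541 / 100000)) v2 (by norm_num) (by norm_num) (by norm_num) (by norm_num)
  have v6 : nq a 2 ≤ (3680641 / 100000000) := b2 h (T := (2079 / 6250)) u5 v2 z4 (by norm_num) (by norm_num) (by norm_num)
  have z7 : nq a 3 ≤ (224073 / 5000000000) := b3 h (T := (111 / 3125)) v6 z4 (by norm_num) (by norm_num) (by norm_num)
  have u8 : nq a 1 ≤ (4567109 / 10000000) := bW h hsym (W := (7701 / 10000)) v6 (by norm_num) (by norm_num) (by norm_num) (by norm_num)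
  have l0 : (441253 / 1000000) ≤ nq a 1 := le_trans (by norm_num) (lowU h hsym u8)
  refine cert_of_bounds h hsym (α := (2 / 3)) (κ := 1) (β := (769 / 2000)) (ρ := (17 / 20))
    (H := (15233 / 100000)) (g1 := (49 / 10)) (g2 := (2009 / 100)) (G := 12)
    (by norm_num) (by norm_num) (by norm_num) (by norm_num) (by norm_num) (by norm_num) (by norm_num)
    (by norm_num) (by norm_num) (by norm_num) u8 (by norm_num) l0 v6 (by norm_num) z7
    ?_ ?_ ?_ ?_ ?_ ?_ ?_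
  · norm_num
  · norm_num
  · norm_num
  · norm_num [Finset.sum_range_succ]
  · norm_num
  · norm_num
  · norm_num

theorem num0_4 (h : Weights 4 a) (hsym : ∀ i, a (-i) = a i) : Cert0 4 a := by
  have v0 : nq a 2 ≤ (146813 / 1000000) := by
    obtain ⟨t, ht0, ht1, hq, hi⟩ := start h hsym (by norm_num)
    have k0 : 0 ≤ (1 - t) * (1 + t ^ 4 - (t ^ 1 + t ^ 2 + t ^ 3 + t ^ 4 + t ^ 5 + t ^ 6 + t ^ 7)) := by
      have e : (1 - t) * (1 + t ^ 4 - (t ^ 1 + t ^ 2 + t ^ 3 + t ^ 4 + t ^ 5 + t ^ 6 + t ^ 7)) = 1 + t ^ 4 + t ^ (2 * 4) - t * (2 + t ^ 4) := by ring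
      rw [e]; linarith
    have k1 : 0 ≤ 1 + t ^ 4 - (t ^ 1 + t ^ 2 + t ^ 3 + t ^ 4 + t ^ 5 + t ^ 6 + t ^ 7) := (mul_nonneg_iff_of_pos_left (by linarith)).1 k0
    have k2 : t + t ^ 2 ≤ 1 := by
      have hp : 0 ≤ t ^ 3 + t ^ 5 + t ^ 6 + t ^ 7 := by positivity
      linarith
    have k3 : t ≤ (619 / 1000) := by
      by_contra hc
      push Not at hc
      have h3 : ((619 / 1000) : ℝ) ^ 2 ≤ t ^ 2 := pow_le_pow_left₀ (by norm_num) hc.le 2
      norm_num at h3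
      linarith
    rw [hq]
    exact (pow_le_pow_left₀ ht0.le k3 4).trans (by norm_num)
  have z0 : nq a 3 ≤ (146813 / 1000000) := (nq_anti h 2).trans v0
  have u1 : nq a 1 ≤ (2101561 / 5000000) := bW h hsym (W := (40259 / 50000)) v0 (by norm_num) (by norm_num) (by norm_num) (by norm_num)
  have v2 : nq a 2 ≤ (150699 / 12500000) := b2 h (T := (2071 / 6250)) u1 v0 z0 (by norm_num) (by norm_num) (by norm_num)
  have z3 : nq a 3 ≤ (150699 / 12500000) := (nq_anti h 2).trans v2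
  have z4 : nq a 3 ≤ (53 / 2500000000) := b3 h (T := (603 / 50000)) v2 z3 (by norm_num) (by norm_num) (by norm_num)
  have u5 : nq a 1 ≤ (1909331 / 5000000) := bW h hsym (W := (7861 / 10000)) v2 (by norm_num) (by norm_num) (by norm_num) (by norm_num)
  have v6 : nq a 2 ≤ (301877 / 50000000) := b2 h (T := (223 / 800)) u5 v2 z4 (by norm_num) (by norm_num) (by norm_num)
  have z7 : nq a 3 ≤ (7 / 5000000000) := b3 h (T := (601 / 100000)) v6 z4 (by norm_num) (by norm_num) (by norm_num)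
  have u8 : nq a 1 ≤ (3803141 / 10000000) := bW h hsym (W := (7853 / 10000)) v6 (by norm_num) (by norm_num) (by norm_num) (by norm_num)
  have l0 : (377781 / 1000000) ≤ nq a 1 := le_trans (by norm_num) (lowU h hsym u8)
  refine cert_of_bounds h hsym (α := (2 / 3)) (κ := 1) (β := (199 / 400)) (ρ := (4 / 5))
    (H := (2941 / 25000)) (g1 := (71 / 10)) (g2 := (4473 / 100)) (G := 16)
    (by norm_num) (by norm_num) (by norm_num) (by norm_num) (by norm_num) (by norm_num) (by norm_num)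
    (by norm_num) (by norm_num) (by norm_num) u8 (by norm_num) l0 v6 (by norm_num) z7
    ?_ ?_ ?_ ?_ ?_ ?_ ?_
  · norm_num
  · norm_num
  · norm_num
  · norm_num [Finset.sum_range_succ]
  · norm_num
  · norm_num
  · norm_num

theorem num0_5 (h : Weights 5 a) (hsym : ∀ i, a (-i) = a i) : Cert0 5 a := by
  have v0 : nq a 2 ≤ (90877 / 1000000) := by
    obtain ⟨t, ht0, ht1, hq, hi⟩ := start h hsym (by norm_num)
    have k0 : 0 ≤ (1 - t) * (1 + t ^ 5 - (t ^ 1 + t ^ 2 + t ^ 3 + t ^ 4 + t ^ 5 + t ^ 6 + t ^ 7 + t ^ 8 + t ^ 9)) := by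
      have e : (1 - t) * (1 + t ^ 5 - (t ^ 1 + t ^ 2 + t ^ 3 + t ^ 4 + t ^ 5 + t ^ 6 + t ^ 7 + t ^ 8 + t ^ 9)) = 1 + t ^ 5 + t ^ (2 * 5) - t * (2 + t ^ 5) := by ring
      rw [e]; linarith
    have k1 : 0 ≤ 1 + t ^ 5 - (t ^ 1 + t ^ 2 + t ^ 3 + t ^ 4 + t ^ 5 + t ^ 6 + t ^ 7 + t ^ 8 + t ^ 9) := (mul_nonneg_iff_of_pos_left (by linarith)).1 k0
    have k2 : t + t ^ 2 ≤ 1 := by
      have hp : 0 ≤ t ^ 3 + t ^ 4 + t ^ 6 + t ^ 7 + t ^ 8 + t ^ 9 := by positivity
      linarith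
    have k3 : t ≤ (619 / 1000) := by
      by_contra hc
      push Not at hc
      have h3 : ((619 / 1000) : ℝ) ^ 2 ≤ t ^ 2 := pow_le_pow_left₀ (by norm_num) hc.le 2
      norm_num at h3
      linarith
    rw [hq]
    exact (pow_le_pow_left₀ ht0.le k3 5).trans (by norm_num)
  have z0 : nq a 3 ≤ (90877 / 1000000) := (nq_anti h 2).trans v0
  have u1 : nq a 1 ≤ (3528741 / 10000000) := bW h hsym (W := (40597 / 50000)) v0 (by norm_num) (by norm_num) (by norm_num) (by norm_num)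
  have v2 : nq a 2 ≤ (172289 / 100000000) := b2 h (T := (14003 / 50000)) u1 v0 z0 (by norm_num) (by norm_num) (by norm_num)
  have z3 : nq a 3 ≤ (172289 / 100000000) := (nq_anti h 2).trans v2
  have z4 : nq a 3 ≤ (1 / 10000000000) := b3 h (T := (173 / 100000)) v2 z3 (by norm_num) (by norm_num) (by norm_num)
  have u5 : nq a 1 ≤ (1652477 / 5000000) := bW h hsym (W := (80137 / 100000)) v2 (by norm_num) (by norm_num) (by norm_num) (by norm_num)
  have v6 : nq a 2 ≤ (95201 / 100000000) := b2 h (T := (24873 / 100000)) u5 v2 z4 (by norm_num) (by norm_num) (by norm_num)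
  have u8 : nq a 1 ≤ (660661 / 2000000) := bW h hsym (W := (80129 / 100000)) v6 (by norm_num) (by norm_num) (by norm_num) (by norm_num)
  have l0 : (329907 / 1000000) ≤ nq a 1 := le_trans (by norm_num) (lowU h hsym u8)
  refine cert_of_bounds h hsym (α := (2 / 3)) (κ := 1) (β := (29 / 50)) (ρ := (4 / 5))
    (H := (10401 / 100000)) (g1 := (17 / 2)) (g2 := (255 / 4)) (G := 20)
    (by norm_num) (by norm_num) (by norm_num) (by norm_num) (by norm_num) (by norm_num) (by norm_num)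
    (by norm_num) (by norm_num) (by norm_num) u8 (by norm_num) l0 v6 (by norm_num) z4
    ?_ ?_ ?_ ?_ ?_ ?_ ?_
  · norm_num
  · norm_num
  · norm_num
  · norm_num [Finset.sum_range_succ]
  · norm_num
  · norm_num
  · norm_num

theorem num0_6 (h : Weights 6 a) (hsym : ∀ i, a (-i) = a i) : Cert0 6 a := by
  have v0 : nq a 2 ≤ (56253 / 1000000) := by
    obtain ⟨t, ht0, ht1, hq, hi⟩ := start h hsym (by norm_num)
    have k0 : 0 ≤ (1 - t) * (1 + t ^ 6 - (t ^ 1 + t ^ 2 + t ^ 3 + t ^ 4 + t ^ 5 + t ^ 6 + t ^ 7 + t ^ 8 + t ^ 9 + t ^ 10 + t ^ 11)) := by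
      have e : (1 - t) * (1 + t ^ 6 - (t ^ 1 + t ^ 2 + t ^ 3 + t ^ 4 + t ^ 5 + t ^ 6 + t ^ 7 + t ^ 8 + t ^ 9 + t ^ 10 + t ^ 11)) = 1 + t ^ 6 + t ^ (2 * 6) - t * (2 + t ^ 6) := by ring
      rw [e]; linarith
    have k1 : 0 ≤ 1 + t ^ 6 - (t ^ 1 + t ^ 2 + t ^ 3 + t ^ 4 + t ^ 5 + t ^ 6 + t ^ 7 + t ^ 8 + t ^ 9 + t ^ 10 + t ^ 11) := (mul_nonneg_iff_of_pos_left (by linarith)).1 k0
    have k2 : t + t ^ 2 ≤ 1 := by
      have hp : 0 ≤ t ^ 3 + t ^ 4 + t ^ 5 + t ^ 7 + t ^ 8 + t ^ 9 + t ^ 10 + t ^ 11 := by positivity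
      linarith
    have k3 : t ≤ (619 / 1000) := by
      by_contra hc
      push Not at hc
      have h3 : ((619 / 1000) : ℝ) ^ 2 ≤ t ^ 2 := pow_le_pow_left₀ (by norm_num) hc.le 2
      norm_num at h3
      linarith
    rw [hq]
    exact (pow_le_pow_left₀ ht0.le k3 6).trans (by norm_num)
  have z0 : nq a 3 ≤ (56253 / 1000000) := (nq_anti h 2).trans v0
  have u1 : nq a 1 ≤ (611939 / 2000000) := bW h hsym (W := (10261 / 12500)) v0 (by norm_num) (by norm_num) (by norm_num) (by norm_num)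
  have v2 : nq a 2 ≤ (21617 / 100000000) := b2 h (T := (12249 / 50000)) u1 v0 z0 (by norm_num) (by norm_num) (by norm_num)
  have z3 : nq a 3 ≤ (21617 / 100000000) := (nq_anti h 2).trans v2
  have z4 : nq a 3 ≤ (1 / 10000000000) := b3 h (T := (11 / 50000)) v2 z3 (by norm_num) (by norm_num) (by norm_num)
  have u5 : nq a 1 ≤ (586753 / 2000000) := bW h hsym (W := (16303 / 20000)) v2 (by norm_num) (by norm_num) (by norm_num) (by norm_num)
  have v6 : nq a 2 ≤ (3409 / 25000000) := b2 h (T := (22687 / 100000)) u5 v2 z4 (by norm_num) (by norm_num) (by norm_num)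
  have u8 : nq a 1 ≤ (586753 / 2000000) := bW h hsym (W := (16303 / 20000)) v6 (by norm_num) (by norm_num) (by norm_num) (by norm_num)
  have l0 : (293287 / 1000000) ≤ nq a 1 := le_trans (by norm_num) (lowU h hsym u8)
  refine cert_of_bounds h hsym (α := (2 / 3)) (κ := 1) (β := (1491 / 2500)) (ρ := (17 / 20))
    (H := (1193 / 12500)) (g1 := (47 / 5)) (g2 := (376 / 5)) (G := 24)
    (by norm_num) (by norm_num) (by norm_num) (by norm_num) (by norm_num) (by norm_num) (by norm_num)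
    (by norm_num) (by norm_num) (by norm_num) u8 (by norm_num) l0 v6 (by norm_num) z4
    ?_ ?_ ?_ ?_ ?_ ?_ ?_
  · norm_num
  · norm_num
  · norm_num
  · norm_num [Finset.sum_range_succ]
  · norm_num
  · norm_num
  · norm_num

theorem num0_7 (h : Weights 7 a) (hsym : ∀ i, a (-i) = a i) : Cert0 7 a := by
  have v0 : nq a 2 ≤ (34821 / 1000000) := by
    obtain ⟨t, ht0, ht1, hq, hi⟩ := start h hsym (by norm_num)
    have k0 : 0 ≤ (1 - t) * (1 + t ^ 7 - (t ^ 1 + t ^ 2 + t ^ 3 + t ^ 4 + t ^ 5 + t ^ 6 + t ^ 7 + t ^ 8 + t ^ 9 + t ^ 10 + t ^ 11 + t ^ 12 + t ^ 13)) := by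
      have e : (1 - t) * (1 + t ^ 7 - (t ^ 1 + t ^ 2 + t ^ 3 + t ^ 4 + t ^ 5 + t ^ 6 + t ^ 7 + t ^ 8 + t ^ 9 + t ^ 10 + t ^ 11 + t ^ 12 + t ^ 13)) = 1 + t ^ 7 + t ^ (2 * 7) - t * (2 + t ^ 7) := by ring
      rw [e]; linarith
    have k1 : 0 ≤ 1 + t ^ 7 - (t ^ 1 + t ^ 2 + t ^ 3 + t ^ 4 + t ^ 5 + t ^ 6 + t ^ 7 + t ^ 8 + t ^ 9 + t ^ 10 + t ^ 11 + t ^ 12 + t ^ 13) := (mul_nonneg_iff_of_pos_left (by linarith)).1 k0
    have k2 : t + t ^ 2 ≤ 1 := by
      have hp : 0 ≤ t ^ 3 + t ^ 4 + t ^ 5 + t ^ 6 + t ^ 8 + t ^ 9 + t ^ 10 + t ^ 11 + t ^ 12 + t ^ 13 := by positivity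
      linarith
    have k3 : t ≤ (619 / 1000) := by
      by_contra hc
      push Not at hc
      have h3 : ((619 / 1000) : ℝ) ^ 2 ≤ t ^ 2 := pow_le_pow_left₀ (by norm_num) hc.le 2
      norm_num at h3
      linarith
    rw [hq]
    exact (pow_le_pow_left₀ ht0.le k3 7).trans (by norm_num)
  have z0 : nq a 3 ≤ (34821 / 1000000) := (nq_anti h 2).trans v0
  have u1 : nq a 1 ≤ (2716353 / 10000000) := bW h hsym (W := (20753 / 25000)) v0 (by norm_num) (by norm_num) (by norm_num) (by norm_num)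
  have v2 : nq a 2 ≤ (247 / 10000000) := b2 h (T := (1373 / 6250)) u1 v0 z0 (by norm_num) (by norm_num) (by norm_num)
  have z3 : nq a 3 ≤ (247 / 10000000) := (nq_anti h 2).trans v2
  have z4 : nq a 3 ≤ (1 / 10000000000) := b3 h (T := (3 / 100000)) v2 z3 (by norm_num) (by norm_num) (by norm_num)
  have u5 : nq a 1 ≤ (330711 / 1250000) := bW h hsym (W := (827 / 1000)) v2 (by norm_num) (by norm_num) (by norm_num) (by norm_num)
  have v6 : nq a 2 ≤ (439 / 25000000) := b2 h (T := (20923 / 100000)) u5 v2 z4 (by norm_num) (by norm_num) (by norm_num)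
  have u8 : nq a 1 ≤ (330711 / 1250000) := bW h hsym (W := (827 / 1000)) v6 (by norm_num) (by norm_num) (by norm_num) (by norm_num)
  have l0 : (264527 / 1000000) ≤ nq a 1 := le_trans (by norm_num) (lowU h hsym u8)
  refine cert_of_bounds h hsym (α := (2 / 3)) (κ := 1) (β := (5551 / 10000)) (ρ := (9 / 10))
    (H := (1111 / 12500)) (g1 := 50) (g2 := 420) (G := 28)
    (by norm_num) (by norm_num) (by norm_num) (by norm_num) (by norm_num) (by norm_num) (by norm_num)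
    (by norm_num) (by norm_num) (by norm_num) u8 (by norm_num) l0 v6 (by norm_num) z4
    ?_ ?_ ?_ ?_ ?_ ?_ ?_
  · norm_num
  · norm_num
  · norm_num
  · norm_num [Finset.sum_range_succ]
  · norm_num
  · norm_num
  · norm_num

theorem num0 (d : ℕ) (h2 : 2 ≤ d) (h7 : d ≤ 7) (a : ℤ → ℝ) (h : Weights d a)
    (hsym : ∀ i, a (-i) = a i) : Cert0 d a := by
  interval_cases d
  · exact num0_2 h hsym
  · exact num0_3 h hsym
  · exact num0_4 h hsym
  · exact num0_5 h hsym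
  · exact num0_6 h hsym
  · exact num0_7 h hsym

end Pool.H96.LT
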