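import Pool.Agent.H96.LT.CertDefs

/-!
# Numerical certificates, boundary values `{0, 1}`
-/

set_option autoImplicit false

namespace Pool.H96.LT

namespace N1

variable {d : ℕ} {a : ℤ → ℝ}

/-- The ratios are nonincreasing. -/
lemma ratio_anti (h : Weights d a) : Antitone fun i : ℤ => a (i + 1) / a i := by
  apply antitone_int_of_succ_le
  intro i
  have h1 := h.lc (i + 1)
  have e : i + 1 - 1 = i := by ring
  rw [e] at h1
  rw [div_le_div_iff₀ (h.pos _) (h.pos _)]
  nlinarith [h1]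

lemma a_one (h : Weights d a) (hsym : ∀ i, a (1 - i) = a i) : a 1 = 1 := by
  have := hsym 0
  rw [sub_zero] at this
  rw [this, h.zero]

lemma a_neg (hsym : ∀ i, a (1 - i) = a i) : a (-1) = a 2 := by
  have := hsym 2
  norm_num at this
  exact this

lemma fx (h : Weights d a) (hsym : ∀ i, a (1 - i) = a i) (i : ℤ) :
    a i = ((a (i - 1) + a i + a (i + 1)) / (2 + a 2)) ^ d := by
  have h1 := h.fix i
  rw [a_neg hsym, h.zero, a_one h hsym] at h1
  have e : a 2 + 1 + 1 = 2 + a 2 := by ring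
  rw [e] at h1
  exact h1

lemma v_le_one (h : Weights d a) (hsym : ∀ i, a (1 - i) = a i) : a 2 ≤ 1 := by
  have h1 := h.lc 1
  norm_num at h1
  rw [h.zero, a_one h hsym] at h1
  linarith

lemma v_ne_one (hd : 1 ≤ d) (h : Weights d a) (hsym : ∀ i, a (1 - i) = a i) : a 2 ≠ 1 := by
  intro hv
  have key : ∀ n : ℕ, a n = 1 ∧ a (n + 1) = 1 := by
    intro n
    induction n with
    | zero =>
      refine ⟨by simpa using h.zero, ?_⟩
      simpa using a_one h hsym
    | succ n ih =>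
      obtain ⟨h0, h1⟩ := ih
      refine ⟨by push_cast; exact h1, ?_⟩
      have h2 := fx h hsym ((n : ℤ) + 1)
      have e1 : (n : ℤ) + 1 - 1 = n := by ring
      rw [e1, h0, h1, hv] at h2
      have h3 : 0 ≤ (1 + 1 + a ((n : ℤ) + 1 + 1)) / (2 + 1) := by
        have := h.pos ((n : ℤ) + 1 + 1)
        positivity
      have h4 := (pow_eq_one_iff_of_nonneg h3 (by omega)).mp h2.symm
      rw [div_eq_iff (by norm_num)] at h4
      push_cast
      linarith
  have h5 : Summable fun n : ℕ => a (n : ℤ) := h.sum.comp_injective Nat.cast_injective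
  have h6 := h5.tendsto_atTop_zero
  have h7 : (fun n : ℕ => a (n : ℤ)) = fun _ => (1 : ℝ) := by
    funext n; exact (key n).1
  rw [h7] at h6
  have := tendsto_nhds_unique h6 tendsto_const_nhds
  norm_num at this

/-- The ratio `a 3 / a 2`. -/
noncomputable def p (a : ℤ → ℝ) : ℝ := a 3 / a 2

lemma p_pos (h : Weights d a) : 0 < p a := div_pos (h.pos _) (h.pos _)

lemma a3 (h : Weights d a) : a 3 = a 2 * p a := by
  unfold p; field_simp [(h.pos 2).ne']

lemma p_le (h : Weights d a) (hsym : ∀ i, a (1 - i) = a i) : p a ≤ a 2 := by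
  have h1 := h.lc 2
  norm_num at h1
  rw [a_one h hsym] at h1
  unfold p
  rw [div_le_iff₀ (h.pos 2)]
  nlinarith

lemma eqV (h : Weights d a) (hsym : ∀ i, a (1 - i) = a i) :
    a 2 = ((1 + a 2 + a 2 * p a) / (2 + a 2)) ^ d := by
  have h1 := fx h hsym 2
  norm_num at h1
  rw [a_one h hsym, a3 h] at h1
  exact h1

lemma eqP (h : Weights d a) (hsym : ∀ i, a (1 - i) = a i) :
    p a ≤ (a 2 * (1 + p a + p a ^ 2) / (1 + a 2 * (1 + p a))) ^ d := by
  have h2 := fx h hsym 2
  have h3 := fx h hsym 3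
  norm_num at h2 h3
  rw [a_one h hsym] at h2
  have hv := h.pos 2
  have hp := p_pos h
  have h4 : a 4 ≤ a 2 * p a ^ 2 := by
    have := h.lc 3
    norm_num at this
    rw [a3 h] at this
    have h5 : a 2 * a 4 ≤ a 2 * (a 2 * p a ^ 2) := by nlinarith
    exact le_of_mul_le_mul_left h5 hv
  have h5 : p a = ((a 2 + a 3 + a 4) / (1 + a 2 + a 3)) ^ d := by
    have e : (a 2 + a 3 + a 4) / (1 + a 2 + a 3) =
        ((a 2 + a 3 + a 4) / (2 + a 2)) / ((1 + a 2 + a 3) / (2 + a 2)) := by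
      have := h.pos 3
      field_simp
    rw [e, div_pow, ← h3, ← h2]
    rfl
  have h6 : 0 ≤ (a 2 + a 3 + a 4) / (1 + a 2 + a 3) := by
    have := h.pos 3
    have := h.pos 4
    positivity
  calc p a = ((a 2 + a 3 + a 4) / (1 + a 2 + a 3)) ^ d := h5
    _ ≤ (a 2 * (1 + p a + p a ^ 2) / (1 + a 2 * (1 + p a))) ^ d := by
      apply pow_le_pow_left₀ h6
      rw [a3 h]
      have e1 : 1 + a 2 + a 2 * p a = 1 + a 2 * (1 + p a) := by ring
      rw [e1]
      apply div_le_div_of_nonneg_right _ (by positivity)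
      nlinarith

lemma stepV (h : Weights d a) (hsym : ∀ i, a (1 - i) = a i) {V Q V' : ℝ} (hV : a 2 ≤ V)
    (hQ : p a ≤ Q) (h' : ((1 + V * (1 + Q)) / (2 + V)) ^ d ≤ V') : a 2 ≤ V' := by
  refine le_trans ?_ h'
  have hv := h.pos 2
  have hp := p_pos h
  have hVp : 0 < V := lt_of_lt_of_le hv hV
  have hQp : 0 < Q := lt_of_lt_of_le hp hQ
  conv_lhs => rw [eqV h hsym]
  apply pow_le_pow_left₀ (by positivity)
  rw [div_le_div_iff₀ (by positivity) (by positivity)]
  have h1 : a 2 * p a ≤ V * Q := mul_le_mul hV hQ hp.le hVp.le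
  have h2 : a 2 * V * p a ≤ a 2 * V * Q := mul_le_mul_of_nonneg_left hQ (by positivity)
  nlinarith

lemma stepQ (h : Weights d a) (hsym : ∀ i, a (1 - i) = a i) {V Q Q' : ℝ} (hV : a 2 ≤ V)
    (hQ : p a ≤ Q) (h' : (V * (1 + Q + Q ^ 2) / (1 + V * (1 + Q))) ^ d ≤ Q') : p a ≤ Q' := by
  refine le_trans ?_ h'
  have hv := h.pos 2
  have hp := p_pos h
  have hVp : 0 < V := lt_of_lt_of_le hv hV
  have hQp : 0 < Q := lt_of_lt_of_le hp hQ
  refine le_trans (eqP h hsym) ?_
  apply pow_le_pow_left₀ (by positivity)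
  rw [div_le_div_iff₀ (by positivity) (by positivity)]
  have h1 : p a ^ 2 ≤ Q ^ 2 := pow_le_pow_left₀ hp.le hQ 2
  have h2 : p a ^ 2 * Q ≤ p a * Q ^ 2 := by nlinarith [mul_pos hp hQp]
  have h3 : (1 + p a + p a ^ 2) * (1 + Q) ≤ (1 + Q + Q ^ 2) * (1 + p a) := by nlinarith
  have h4 : a 2 * (1 + p a + p a ^ 2) ≤ V * (1 + Q + Q ^ 2) :=
    mul_le_mul hV (by linarith) (by positivity) hVp.le
  have h5 : a 2 * V * ((1 + p a + p a ^ 2) * (1 + Q)) ≤ a 2 * V * ((1 + Q + Q ^ 2) * (1 + p a)) :=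
    mul_le_mul_of_nonneg_left h3 (by positivity)
  nlinarith

lemma stepL (h : Weights d a) (hsym : ∀ i, a (1 - i) = a i) {L L' : ℝ} (hL0 : 0 ≤ L) (hL : L ≤ a 2)
    (h' : L' ≤ ((1 + L) / (2 + L)) ^ d) : L' ≤ a 2 := by
  refine le_trans h' ?_
  have hv := h.pos 2
  have hp := p_pos h
  conv_rhs => rw [eqV h hsym]
  apply pow_le_pow_left₀ (by positivity)
  rw [div_le_div_iff₀ (by positivity) (by positivity)]
  have h1 : 0 ≤ a 2 * p a * (2 + L) := by positivity
  nlinarith

/-- The first upper bound. -/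
lemma start (h2 : 2 ≤ d) (h7 : d ≤ 7) (h : Weights d a) (hsym : ∀ i, a (1 - i) = a i) :
    a 2 ≤ (7 / 10) ^ d := by
  have hv := h.pos 2
  have hp := p_pos h
  have hlt : a 2 < 1 := lt_of_le_of_ne (v_le_one h hsym) (v_ne_one (by omega) h hsym)
  set t : ℝ := (1 + a 2 + a 2 * p a) / (2 + a 2) with ht
  have htp : 0 < t := by positivity
  have hvt : a 2 = t ^ d := eqV h hsym
  have ht1 : t < 1 := by
    by_contra hc
    push Not at hc
    have := one_le_pow₀ hc (n := d)
    linarith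
  have hmul : t * (2 + a 2) ≤ 1 + a 2 + a 2 ^ 2 := by
    rw [ht, div_mul_cancel₀ _ (by positivity)]
    have := p_le h hsym
    nlinarith
  have key : t ≤ 7 / 10 := by
    rw [hvt] at hmul
    have h1t : 0 < 1 - t := by linarith
    have t2 := pow_pos htp 2
    have t3 := pow_pos htp 3
    have t4 := pow_pos htp 4
    have t5 := pow_pos htp 5
    have t6 := pow_pos htp 6
    have t7 := pow_pos htp 7
    have t8 := pow_pos htp 8
    have t9 := pow_pos htp 9
    have t10 := pow_pos htp 10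
    have t11 := pow_pos htp 11
    have t12 := pow_pos htp 12
    have t13 := pow_pos htp 13
    interval_cases d
    · have h1 : 0 ≤ (1 - t) * (1 - (t + t ^ 3)) := by
        have e : (1 - t) * (1 - (t + t ^ 3)) = 1 + t ^ 2 + (t ^ 2) ^ 2 - t * (2 + t ^ 2) := by ring
        rw [e]; linarith
      have h3 : t + t ^ 3 ≤ 1 := by
        have := nonneg_of_mul_nonneg_right h1 h1t
        linarith
      by_contra hc
      push Not at hc
      have : (7 / 10 : ℝ) ^ 3 < t ^ 3 := pow_lt_pow_left₀ hc (by norm_num) (by norm_num)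
      norm_num at this
      linarith
    all_goals
      have h3 : t + t ^ 2 ≤ 1 := by
        first
        | (have h1 : 0 ≤ (1 - t) * (1 - (t + t ^ 2 + t ^ 4 + t ^ 5)) := by
            have e : (1 - t) * (1 - (t + t ^ 2 + t ^ 4 + t ^ 5)) =
              1 + t ^ 3 + (t ^ 3) ^ 2 - t * (2 + t ^ 3) := by ring
            rw [e]; linarith
           have := nonneg_of_mul_nonneg_right h1 h1t
           linarith)
        | (have h1 : 0 ≤ (1 - t) * (1 - (t + t ^ 2 + t ^ 3 + t ^ 5 + t ^ 6 + t ^ 7)) := by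
            have e : (1 - t) * (1 - (t + t ^ 2 + t ^ 3 + t ^ 5 + t ^ 6 + t ^ 7)) =
              1 + t ^ 4 + (t ^ 4) ^ 2 - t * (2 + t ^ 4) := by ring
            rw [e]; linarith
           have := nonneg_of_mul_nonneg_right h1 h1t
           linarith)
        | (have h1 : 0 ≤ (1 - t) * (1 - (t + t ^ 2 + t ^ 3 + t ^ 4 + t ^ 6 + t ^ 7 + t ^ 8 + t ^ 9)) := by
            have e : (1 - t) * (1 - (t + t ^ 2 + t ^ 3 + t ^ 4 + t ^ 6 + t ^ 7 + t ^ 8 + t ^ 9)) =
              1 + t ^ 5 + (t ^ 5) ^ 2 - t * (2 + t ^ 5) := by ring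
            rw [e]; linarith
           have := nonneg_of_mul_nonneg_right h1 h1t
           linarith)
        | (have h1 : 0 ≤ (1 - t) * (1 - (t + t ^ 2 + t ^ 3 + t ^ 4 + t ^ 5 + t ^ 7 + t ^ 8 + t ^ 9 +
              t ^ 10 + t ^ 11)) := by
            have e : (1 - t) * (1 - (t + t ^ 2 + t ^ 3 + t ^ 4 + t ^ 5 + t ^ 7 + t ^ 8 + t ^ 9 +
              t ^ 10 + t ^ 11)) =
              1 + t ^ 6 + (t ^ 6) ^ 2 - t * (2 + t ^ 6) := by ring
            rw [e]; linarith
           have := nonneg_of_mul_nonneg_right h1 h1t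
           linarith)
        | (have h1 : 0 ≤ (1 - t) * (1 - (t + t ^ 2 + t ^ 3 + t ^ 4 + t ^ 5 + t ^ 6 + t ^ 8 + t ^ 9 +
              t ^ 10 + t ^ 11 + t ^ 12 + t ^ 13)) := by
            have e : (1 - t) * (1 - (t + t ^ 2 + t ^ 3 + t ^ 4 + t ^ 5 + t ^ 6 + t ^ 8 + t ^ 9 +
              t ^ 10 + t ^ 11 + t ^ 12 + t ^ 13)) =
              1 + t ^ 7 + (t ^ 7) ^ 2 - t * (2 + t ^ 7) := by ring
            rw [e]; linarith
           have := nonneg_of_mul_nonneg_right h1 h1t
           linarith)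
      nlinarith
  rw [hvt]
  exact pow_le_pow_left₀ htp.le key d

/-- The function of the certificate. -/
noncomputable def gf (d : ℕ) (g1 r : ℝ) (n : ℕ) : ℝ :=
  if n = 0 then 1 else if n = 1 then g1 else (4 * (d : ℝ)) ^ (n - 2) * (r * g1)

lemma cert (hd : 2 ≤ d) (h : Weights d a) (hsym : ∀ i, a (1 - i) = a i) {L V Q g1 r ρ : ℝ}
    (hL0 : 0 ≤ L) (hL : L ≤ a 2) (hV : a 2 ≤ V) (hV1 : V < 1) (hQ : p a ≤ Q) (hg1one : 1 ≤ g1)
    (hrone : 1 ≤ r) (hρ : 0 < ρ) (hρ1 : ρ < 1)
    (H0 : d * ((V / (2 + V)) ^ 2 / (1 - 2 * (V / (2 + V))) + 2 * (V / (2 + V)) * g1) ≤ ρ)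
    (H1 : d * (1 / (2 + L) + (V * (1 + Q) / (1 + V * (1 + Q)) - L / (2 + L)) * g1 +
      V * Q / (1 + V * (1 + Q)) * (r * g1)) ≤ ρ * g1)
    (H2 : d * (g1 + Q * (r * g1) + Q ^ 2 * (4 * d * (r * g1))) ≤ ρ * (r * g1))
    (H3 : 1 / 4 + d * Q + 4 * d ^ 2 * Q ^ 2 ≤ ρ) : Cert1 d a := by
  have hg1 : 0 < g1 := by linarith
  have hr : 0 < r := by linarith
  have hv := h.pos 2
  have hp := p_pos h
  have hVp : 0 < V := lt_of_lt_of_le hv hV
  have hQp : 0 < Q := lt_of_lt_of_le hp hQ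
  have hdp : (0 : ℝ) < d := by exact_mod_cast (by omega : 0 < d)
  have ha1 := a_one h hsym
  have hs1 : sS a 1 = 2 + a 2 := by
    unfold sS; norm_num; rw [h.zero, ha1]; ring
  have hs2 : sS a 2 = 1 + a 2 + a 2 * p a := by
    unfold sS; norm_num; rw [ha1, a3 h]
  have hpr1 : pr a 1 = a 2 / (2 + a 2) := by
    unfold pr; rw [hs1]; norm_num
  have hpl1 : pl a 1 = 1 / (2 + a 2) := by
    unfold pl; rw [hs1]; norm_num; rw [h.zero]; simp
  have hpl2 : pl a 2 = 1 / (1 + a 2 + a 2 * p a) := by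
    unfold pl; rw [hs2]; norm_num; rw [ha1]; simp
  have hpr2 : pr a 2 = a 2 * p a / (1 + a 2 + a 2 * p a) := by
    unfold pr; rw [hs2]; norm_num; rw [a3 h]
  have hrat : ∀ i : ℤ, 2 ≤ i → a (i + 1) ≤ Q * a i := by
    intro i hi
    have h1 := ratio_anti h hi
    simp only at h1
    have h2 : a (i + 1) / a i ≤ Q := by
      refine le_trans h1 ?_
      norm_num
      exact hQ
    rwa [div_le_iff₀ (h.pos i)] at h2
  have hsp : ∀ i : ℤ, 0 < sS a i := by
    intro i; unfold sS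
    have := h.pos (i - 1); have := h.pos i; have := h.pos (i + 1)
    positivity
  have hpl : ∀ i : ℤ, pl a i ≤ 1 := by
    intro i
    unfold pl
    rw [div_le_one (hsp i)]
    unfold sS
    have := h.pos i; have := h.pos (i + 1)
    linarith
  have hkk : ∀ i : ℤ, 2 ≤ i → kk a i ≤ Q := by
    intro i hi
    have h1 : 0 ≤ pr a i := div_nonneg (h.pos _).le (hsp _).le
    have h2 : 1 - pl a (i + 1) ≤ Q := by
      unfold pl
      rw [sub_le_iff_le_add, ← sub_le_iff_le_add', le_div_iff₀ (hsp _)]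
      unfold sS
      have e : i + 1 - 1 = i := by ring
      rw [e]
      have h3 := hrat i hi
      have h4 := hrat (i + 1) (by omega)
      have := h.pos i
      have := h.pos (i + 1)
      have h5 := h.pos (i + 1 + 1)
      nlinarith [mul_pos hQp h5]
    unfold kk
    linarith
  have hpr : ∀ i : ℤ, 2 ≤ i → pr a (i + 1) ≤ Q ^ 2 := by
    intro i hi
    unfold pr
    rw [div_le_iff₀ (hsp _)]
    unfold sS
    have e : i + 1 - 1 = i := by ring
    rw [e]
    have h3 := hrat i hi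
    have h4 := hrat (i + 1) (by omega)
    have h5 := h.pos (i + 1)
    have h6 := h.pos (i + 1 + 1)
    have h7 : a (i + 1 + 1) ≤ Q * (Q * a i) := h4.trans (mul_le_mul_of_nonneg_left h3 hQp.le)
    have h8 : 0 ≤ Q ^ 2 * (a (i + 1) + a (i + 1 + 1)) := by positivity
    nlinarith
  have hg0 : gf d g1 r 0 = 1 := by simp [gf]
  have hg1' : gf d g1 r 1 = g1 := by simp [gf]
  have hg2 : gf d g1 r 2 = r * g1 := by simp [gf]
  have hgs : ∀ n : ℕ, 2 ≤ n → gf d g1 r (n + 1) = 4 * d * gf d g1 r n := by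
    intro n hn
    obtain ⟨m, rfl⟩ := Nat.exists_eq_add_of_le hn
    have e1 : gf d g1 r (2 + m + 1) = (4 * (d : ℝ)) ^ (m + 1) * (r * g1) := by
      unfold gf
      rw [if_neg (by omega), if_neg (by omega)]
      congr 2
      omega
    have e2 : gf d g1 r (2 + m) = (4 * (d : ℝ)) ^ m * (r * g1) := by
      unfold gf
      rw [if_neg (by omega), if_neg (by omega)]
      congr 2
      omega
    rw [e1, e2]; ring
  have hgpos : ∀ n : ℕ, 0 < gf d g1 r n := by
    intro n
    unfold gf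
    split_ifs <;> positivity
  have hgone : ∀ n : ℕ, 1 ≤ gf d g1 r n := by
    intro n
    unfold gf
    split_ifs
    · exact le_rfl
    · exact hg1one
    · have h1 : (1 : ℝ) ≤ (4 * (d : ℝ)) ^ (n - 2) := by
        refine one_le_pow₀ ?_
        have : (2 : ℝ) ≤ d := by exact_mod_cast hd
        linarith
      have h2 : 1 ≤ r * g1 := by nlinarith
      nlinarith
  refine ⟨ρ, gf d g1 r, hρ, hρ1, hgone, ?_, ?_⟩
  · -- row 0
    rw [hg0, hg1', mul_one, mul_one, hpr1]
    refine le_trans ?_ H0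
    have hx : a 2 / (2 + a 2) ≤ V / (2 + V) := by
      rw [div_le_div_iff₀ (by positivity) (by positivity)]
      nlinarith
    have hx0 : 0 < a 2 / (2 + a 2) := by positivity
    have hX : V / (2 + V) < 1 / 2 := by
      rw [div_lt_div_iff₀ (by positivity) (by norm_num)]
      linarith
    apply mul_le_mul_of_nonneg_left _ hdp.le
    apply add_le_add
    · apply div_le_div₀ (by positivity) (pow_le_pow_left₀ hx0.le hx 2) (by linarith) (by linarith)
    · apply mul_le_mul_of_nonneg_right _ hg1.le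
      linarith
  · intro i hi
    rcases Nat.lt_or_ge i 3 with h3 | h3
    · interval_cases i
      · -- row 1
        have e0 : (1 : ℕ) - 1 = 0 := rfl
        rw [e0, hg0, hg1', hg2]
        have e1 : pr a (((1 : ℕ) : ℤ) + 1) = a 2 * p a / (1 + a 2 + a 2 * p a) := by
          rw [← hpr2]; norm_num
        have e2 : pl a ((1 : ℕ) : ℤ) = 1 / (2 + a 2) := by rw [← hpl1]; norm_num
        have e3 : kk a ((1 : ℕ) : ℤ) = 1 - a 2 / (2 + a 2) - 1 / (1 + a 2 + a 2 * p a) := by
          rw [← hpr1, ← hpl2]; unfold kk; norm_num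
        rw [e1, e2, e3, mul_one]
        refine le_trans ?_ H1
        apply mul_le_mul_of_nonneg_left _ hdp.le
        have hvq : a 2 + a 2 * p a ≤ V * (1 + Q) := by
          have : a 2 * p a ≤ V * Q := mul_le_mul hV hQ hp.le hVp.le
          linarith
        have hvp : a 2 * p a ≤ V * Q := mul_le_mul hV hQ hp.le hVp.le
        apply add_le_add
        · apply add_le_add
          · exact one_div_le_one_div_of_le (by positivity) (by linarith)
          · apply mul_le_mul_of_nonneg_right _ hg1.le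
            have f1 : L / (2 + L) ≤ a 2 / (2 + a 2) := by
              rw [div_le_div_iff₀ (by positivity) (by positivity)]
              nlinarith
            have f2 : 1 - 1 / (1 + a 2 + a 2 * p a) ≤ V * (1 + Q) / (1 + V * (1 + Q)) := by
              have g1 : V * (1 + Q) / (1 + V * (1 + Q)) = 1 - 1 / (1 + V * (1 + Q)) := by
                field_simp
                ring
              rw [g1]
              have : 1 / (1 + V * (1 + Q)) ≤ 1 / (1 + a 2 + a 2 * p a) :=
                one_div_le_one_div_of_le (by positivity) (by linarith)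
              linarith
            linarith
        · apply mul_le_mul_of_nonneg_right _ (by positivity)
          rw [div_le_div_iff₀ (by positivity) (by positivity)]
          have f3 : a 2 * p a * V * Q ≤ V * Q * (a 2 * p a) := le_of_eq (by ring)
          have f4 : a 2 * p a * V ≤ V * Q * a 2 := by
            have : a 2 * V * p a ≤ a 2 * V * Q := mul_le_mul_of_nonneg_left hQ (by positivity)
            nlinarith
          nlinarith
      · -- row 2
        have e0 : (2 : ℕ) - 1 = 1 := rfl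
        have e1 : gf d g1 r (2 + 1) = 4 * d * (r * g1) := by rw [hgs 2 le_rfl, hg2]
        rw [e0, hg1', hg2, e1]
        refine le_trans ?_ H2
        apply mul_le_mul_of_nonneg_left _ hdp.le
        have f1 := hpl ((2 : ℕ) : ℤ)
        have f2 := hkk ((2 : ℕ) : ℤ) (by norm_num)
        have f3 := hpr ((2 : ℕ) : ℤ) (by norm_num)
        have c1 : pl a ((2 : ℕ) : ℤ) * g1 ≤ g1 := by nlinarith
        have c2 : kk a ((2 : ℕ) : ℤ) * (r * g1) ≤ Q * (r * g1) :=
          mul_le_mul_of_nonneg_right f2 (by positivity)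
        have c3 : pr a (((2 : ℕ) : ℤ) + 1) * (4 * d * (r * g1)) ≤ Q ^ 2 * (4 * d * (r * g1)) :=
          mul_le_mul_of_nonneg_right f3 (by positivity)
        linarith
    · obtain ⟨n, rfl⟩ : ∃ n, i = n + 1 := ⟨i - 1, by omega⟩
      have hn : 2 ≤ n := by omega
      have e0 : n + 1 - 1 = n := by omega
      have e1 := hgs n hn
      have e2 := hgs (n + 1) (by omega)
      rw [e0, e2, e1]
      set G := gf d g1 r n with hG
      have hGp : 0 < G := hgpos n
      have f1 := hpl ((n + 1 : ℕ) : ℤ)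
      have f2 := hkk ((n + 1 : ℕ) : ℤ) (by push_cast; omega)
      have f3 := hpr ((n + 1 : ℕ) : ℤ) (by push_cast; omega)
      have c1 : pl a ((n + 1 : ℕ) : ℤ) * G ≤ 1 * G := mul_le_mul_of_nonneg_right f1 hGp.le
      have c2 : kk a ((n + 1 : ℕ) : ℤ) * (4 * d * G) ≤ Q * (4 * d * G) :=
        mul_le_mul_of_nonneg_right f2 (by positivity)
      have c3 : pr a (((n + 1 : ℕ) : ℤ) + 1) * (4 * d * (4 * d * G)) ≤ Q ^ 2 * (4 * d * (4 * d * G)) :=
        mul_le_mul_of_nonneg_right f3 (by positivity)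
      have c4 : (1 / 4 + d * Q + 4 * d ^ 2 * Q ^ 2) * (4 * d * G) ≤ ρ * (4 * d * G) :=
        mul_le_mul_of_nonneg_right H3 (by positivity)
      have c5 : (d : ℝ) * (pl a ((n + 1 : ℕ) : ℤ) * G + kk a ((n + 1 : ℕ) : ℤ) * (4 * d * G) +
          pr a (((n + 1 : ℕ) : ℤ) + 1) * (4 * d * (4 * d * G))) ≤
          d * (1 * G + Q * (4 * d * G) + Q ^ 2 * (4 * d * (4 * d * G))) :=
        mul_le_mul_of_nonneg_left (by linarith) hdp.le
      have c6 : (d : ℝ) * (1 * G + Q * (4 * d * G) + Q ^ 2 * (4 * d * (4 * d * G))) =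
          (1 / 4 + d * Q + 4 * d ^ 2 * Q ^ 2) * (4 * d * G) := by ring
      linarith

end N1

theorem num1_2 (a : ℤ → ℝ) (h : Weights 2 a) (hsym : ∀ i, a (1 - i) = a i) :
    Cert1 2 a := by
  have V0 : a 2 ≤ (49 / 100) := by
    have := N1.start (by norm_num) (by norm_num) h hsym
    norm_num at this ⊢
    exact this
  have Q0 : N1.p a ≤ (49 / 100) := (N1.p_le h hsym).trans V0
  have V1 : a 2 ≤ (1207 / 2500) := N1.stepV h hsym V0 Q0 (by norm_num)
  have Q1 : N1.p a ≤ (2401 / 10000) := N1.stepQ h hsym V0 Q0 (by norm_num)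
  have V2 : a 2 ≤ (4147 / 10000) := N1.stepV h hsym V1 Q1 (by norm_num)
  have Q2 : N1.p a ≤ (96 / 625) := N1.stepQ h hsym V1 Q1 (by norm_num)
  have V3 : a 2 ≤ (3749 / 10000) := N1.stepV h hsym V2 Q2 (by norm_num)
  have Q3 : N1.p a ≤ (1091 / 10000) := N1.stepQ h hsym V2 Q2 (by norm_num)
  have V4 : a 2 ≤ (1777 / 5000) := N1.stepV h hsym V3 Q3 (by norm_num)
  have Q4 : N1.p a ≤ (2203 / 25000) := N1.stepQ h hsym V3 Q3 (by norm_num)
  have V5 : a 2 ≤ (3467 / 10000) := N1.stepV h hsym V4 Q4 (by norm_num)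
  have Q5 : N1.p a ≤ (7889 / 100000) := N1.stepQ h hsym V4 Q4 (by norm_num)
  have L0 : (0 : ℝ) ≤ a 2 := (h.pos 2).le
  have L1 : (1 / 4 : ℝ) ≤ a 2 := N1.stepL h hsym (by norm_num) L0 (by norm_num)
  have L2 : (1543 / 5000 : ℝ) ≤ a 2 := N1.stepL h hsym (by norm_num) L1 (by norm_num)
  have L3 : (3213 / 10000 : ℝ) ≤ a 2 := N1.stepL h hsym (by norm_num) L2 (by norm_num)
  exact N1.cert (g1 := (3 / 2)) (r := (29 / 10)) (ρ := (49 / 50)) (by norm_num) h hsym (by norm_num) L3 V5 (by norm_num) Q5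
    (by norm_num) (by norm_num) (by norm_num) (by norm_num) (by norm_num) (by norm_num) (by norm_num) (by norm_num)

theorem num1_3 (a : ℤ → ℝ) (h : Weights 3 a) (hsym : ∀ i, a (1 - i) = a i) :
    Cert1 3 a := by
  have V0 : a 2 ≤ (343 / 1000) := by
    have := N1.start (by norm_num) (by norm_num) h hsym
    norm_num at this ⊢
    exact this
  have Q0 : N1.p a ≤ (343 / 1000) := (N1.p_le h hsym).trans V0
  have V1 : a 2 ≤ (2423 / 10000) := N1.stepV h hsym V0 Q0 (by norm_num)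
  have Q1 : N1.p a ≤ (1009 / 25000) := N1.stepQ h hsym V0 Q0 (by norm_num)
  have V2 : a 2 ≤ (871 / 5000) := N1.stepV h hsym V1 Q1 (by norm_num)
  have Q2 : N1.p a ≤ (8199 / 1000000) := N1.stepQ h hsym V1 Q1 (by norm_num)
  have V3 : a 2 ≤ (1581 / 10000) := N1.stepV h hsym V2 Q2 (by norm_num)
  have Q3 : N1.p a ≤ (667 / 200000) := N1.stepQ h hsym V2 Q2 (by norm_num)
  have L0 : (0 : ℝ) ≤ a 2 := (h.pos 2).le
  have L1 : (1 / 8 : ℝ) ≤ a 2 := N1.stepL h hsym (by norm_num) L0 (by norm_num)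
  have L2 : (1483 / 10000 : ℝ) ≤ a 2 := N1.stepL h hsym (by norm_num) L1 (by norm_num)
  exact N1.cert (g1 := 2) (r := (17 / 5)) (ρ := (19 / 20)) (by norm_num) h hsym (by norm_num) L2 V3 (by norm_num) Q3
    (by norm_num) (by norm_num) (by norm_num) (by norm_num) (by norm_num) (by norm_num) (by norm_num) (by norm_num)

theorem num1_4 (a : ℤ → ℝ) (h : Weights 4 a) (hsym : ∀ i, a (1 - i) = a i) :
    Cert1 4 a := by
  have V0 : a 2 ≤ (2401 / 10000) := by
    have := N1.start (by norm_num) (by norm_num) h hsym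
    norm_num at this ⊢
    exact this
  have Q0 : N1.p a ≤ (2401 / 10000) := (N1.p_le h hsym).trans V0
  have V1 : a 2 ≤ (1127 / 10000) := N1.stepV h hsym V0 Q0 (by norm_num)
  have Q1 : N1.p a ≤ (831 / 250000) := N1.stepQ h hsym V0 Q0 (by norm_num)
  have V2 : a 2 ≤ (1541 / 20000) := N1.stepV h hsym V1 Q1 (by norm_num)
  have Q2 : N1.p a ≤ (533 / 5000000) := N1.stepQ h hsym V1 Q1 (by norm_num)
  have L0 : (0 : ℝ) ≤ a 2 := (h.pos 2).le
  have L1 : (1 / 16 : ℝ) ≤ a 2 := N1.stepL h hsym (by norm_num) L0 (by norm_num)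
  have L2 : (3521 / 50000 : ℝ) ≤ a 2 := N1.stepL h hsym (by norm_num) L1 (by norm_num)
  exact N1.cert (g1 := (14 / 5)) (r := (24 / 5)) (ρ := (9 / 10)) (by norm_num) h hsym (by norm_num) L2 V2 (by norm_num) Q2
    (by norm_num) (by norm_num) (by norm_num) (by norm_num) (by norm_num) (by norm_num) (by norm_num) (by norm_num)

theorem num1_5 (a : ℤ → ℝ) (h : Weights 5 a) (hsym : ∀ i, a (1 - i) = a i) :
    Cert1 5 a := by
  have V0 : a 2 ≤ (16807 / 100000) := by
    have := N1.start (by norm_num) (by norm_num) h hsym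
    norm_num at this ⊢
    exact this
  have Q0 : N1.p a ≤ (16807 / 100000) := (N1.p_le h hsym).trans V0
  have V1 : a 2 ≤ (1279 / 25000) := N1.stepV h hsym V0 Q0 (by norm_num)
  have Q1 : N1.p a ≤ (671 / 5000000) := N1.stepQ h hsym V0 Q0 (by norm_num)
  have V2 : a 2 ≤ (707 / 20000) := N1.stepV h hsym V1 Q1 (by norm_num)
  have Q2 : N1.p a ≤ (2733 / 10000000000) := N1.stepQ h hsym V1 Q1 (by norm_num)
  have L0 : (0 : ℝ) ≤ a 2 := (h.pos 2).le
  have L1 : (1 / 32 : ℝ) ≤ a 2 := N1.stepL h hsym (by norm_num) L0 (by norm_num)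
  have L2 : (843 / 25000 : ℝ) ≤ a 2 := N1.stepL h hsym (by norm_num) L1 (by norm_num)
  exact N1.cert (g1 := 4) (r := (71 / 10)) (ρ := (4 / 5)) (by norm_num) h hsym (by norm_num) L2 V2 (by norm_num) Q2
    (by norm_num) (by norm_num) (by norm_num) (by norm_num) (by norm_num) (by norm_num) (by norm_num) (by norm_num)

theorem num1_6 (a : ℤ → ℝ) (h : Weights 6 a) (hsym : ∀ i, a (1 - i) = a i) :
    Cert1 6 a := by
  have V0 : a 2 ≤ (117649 / 1000000) := by
    have := N1.start (by norm_num) (by norm_num) h hsym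
    norm_num at this ⊢
    exact this
  have Q0 : N1.p a ≤ (117649 / 1000000) := (N1.p_le h hsym).trans V0
  have V1 : a 2 ≤ (2327 / 100000) := N1.stepV h hsym V0 Q0 (by norm_num)
  have Q1 : N1.p a ≤ (663 / 250000000) := N1.stepQ h hsym V0 Q0 (by norm_num)
  have V2 : a 2 ≤ (837 / 50000) := N1.stepV h hsym V1 Q1 (by norm_num)
  have Q2 : N1.p a ≤ (173 / 1250000000000) := N1.stepQ h hsym V1 Q1 (by norm_num)
  have L0 : (0 : ℝ) ≤ a 2 := (h.pos 2).le
  have L1 : (781 / 50000 : ℝ) ≤ a 2 := N1.stepL h hsym (by norm_num) L0 (by norm_num)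
  have L2 : (409 / 25000 : ℝ) ≤ a 2 := N1.stepL h hsym (by norm_num) L1 (by norm_num)
  exact N1.cert (g1 := (57 / 10)) (r := (103 / 10)) (ρ := (7 / 10)) (by norm_num) h hsym (by norm_num) L2 V2 (by norm_num) Q2
    (by norm_num) (by norm_num) (by norm_num) (by norm_num) (by norm_num) (by norm_num) (by norm_num) (by norm_num)

theorem num1_7 (a : ℤ → ℝ) (h : Weights 7 a) (hsym : ∀ i, a (1 - i) = a i) :
    Cert1 7 a := by
  have V0 : a 2 ≤ (823543 / 10000000) := by
    have := N1.start (by norm_num) (by norm_num) h hsym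
    norm_num at this ⊢
    exact this
  have Q0 : N1.p a ≤ (823543 / 10000000) := (N1.p_le h hsym).trans V0
  have V1 : a 2 ≤ (1071 / 100000) := N1.stepV h hsym V0 Q0 (by norm_num)
  have Q1 : N1.p a ≤ (257 / 10000000000) := N1.stepQ h hsym V0 Q0 (by norm_num)
  have V2 : a 2 ≤ (8109 / 1000000) := N1.stepV h hsym V1 Q1 (by norm_num)
  have Q2 : N1.p a ≤ (1501 / 100000000000000000) := N1.stepQ h hsym V1 Q1 (by norm_num)
  have L0 : (0 : ℝ) ≤ a 2 := (h.pos 2).le
  have L1 : (1953 / 250000 : ℝ) ≤ a 2 := N1.stepL h hsym (by norm_num) L0 (by norm_num)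
  have L2 : (8027 / 1000000 : ℝ) ≤ a 2 := N1.stepL h hsym (by norm_num) L1 (by norm_num)
  exact N1.cert (g1 := 8) (r := (149 / 10)) (ρ := (3 / 5)) (by norm_num) h hsym (by norm_num) L2 V2 (by norm_num) Q2
    (by norm_num) (by norm_num) (by norm_num) (by norm_num) (by norm_num) (by norm_num) (by norm_num) (by norm_num)

theorem num1 (d : ℕ) (h2 : 2 ≤ d) (h7 : d ≤ 7) (a : ℤ → ℝ) (h : Weights d a)
    (hsym : ∀ i, a (1 - i) = a i) : Cert1 d a := by
  interval_cases d
  · exact num1_2 a h hsym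
  · exact num1_3 a h hsym
  · exact num1_4 a h hsym
  · exact num1_5 a h hsym
  · exact num1_6 a h hsym
  · exact num1_7 a h hsym

end Pool.H96.LT
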