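import Pool.Agent.H96.LT.Contr1
import Pool.Agent.H96.LT.Chain
import Pool.Agent.H96.LT.ExtLam
import Pool.Agent.H96.LT.ExtDLR
import Pool.Agent.H96.LT.Gibbs
import Pool.Agent.H96.LT.Lim
import Pool.Agent.H96.LT.Num0
import Pool.Agent.H96.LT.Num1

/-!
# Assembly
-/

open MeasureTheory

namespace Pool.H96.LT
open Finset

variable {d : ℕ} {a : ℤ → ℝ}

theorem hL_of_fam {c : ℤ} (hc : 0 ≤ c)
    (h : ∀ (b : Bool) (i : ℕ), ∀ ε > (0 : ℝ), ∃ k0 : ℕ, ∀ k ≥ k0, ∃ N0 : ℕ, ∀ N ≥ N0,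
      ∑ y ∈ Om d N k, |fam d a c b k i y - fam d a c b k (i + 1) y| ≤ ε) :
    ∀ i : ℤ, ∀ ε > (0 : ℝ), ∃ k0 : ℕ, ∀ k ≥ k0, ∃ N0 : ℕ, ∀ N ≥ N0,
      ∑ y ∈ Om d N k, |Lam d a k i y - Lam d a k (i + 1) y| ≤ ε := by
  intro i ε hε
  rcases le_or_gt 0 i with hi | hi
  · obtain ⟨j, rfl⟩ := Int.eq_ofNat_of_zero_le hi
    exact h true j ε hε
  · obtain ⟨j, hj⟩ := Int.eq_ofNat_of_zero_le (show 0 ≤ c - (i + 1) by omega)
    obtain ⟨k0, hk0⟩ := h false j ε hε
    refine ⟨k0, fun k hk => ?_⟩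
    obtain ⟨N0, hN0⟩ := hk0 k hk
    refine ⟨N0, fun N hN => ?_⟩
    refine le_trans (le_of_eq ?_) (hN0 N hN)
    refine sum_congr rfl fun y _ => ?_
    have e1 : fam d a c false k (j : ℤ) = Lam d a k (i + 1) := by
      unfold fam
      simp only [Bool.false_eq_true, if_false]
      congr 1
      omega
    have e2 : fam d a c false k ((j : ℤ) + 1) = Lam d a k i := by
      unfold fam
      simp only [Bool.false_eq_true, if_false]
      congr 1
      omega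
    rw [e1, e2, abs_sub_comm]

theorem extremal0 (hd : 2 ≤ d) (h7 : d ≤ 7) (μ : Measure (V d → ℤ)) [IsProbabilityMeasure μ]
    (h : IsLocalLimit d {0} μ) : IsExtremalGibbs d μ := by
  obtain ⟨a, w, hM, h0, hlc, hsum, hs, -⟩ := marg_of_limit d hd {0} (Or.inl rfl) μ h
  have hsym := hs rfl
  have W : Weights d a := ⟨hM.pos, h0, hM.fix, hlc, hsum⟩
  have C := num0 d hd h7 a W hsym
  obtain ⟨α, ρ, g, hα, hα', hρ, hρ', hh⟩ := contr0 W hsym C
  have htv := tv_of_contr (d := d) (a := a) (c := 0) (by norm_num) W.pos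
    (fun i => if i = 0 then α else 1 / 2)
    (by intro i; split_ifs; exacts [⟨hα, hα'⟩, by norm_num]) hρ hρ' hh
  have hL := hL_of_fam (d := d) (a := a) (c := 0) le_rfl htv
  have hTV := hTV_of hM.pos hL
  exact extremal_of_lam d a μ (gibbs_of_marg d (by omega) a w μ hM)
    (lam_formula d (by omega) a w μ hM) hTV

theorem extremal1 (hd : 2 ≤ d) (h7 : d ≤ 7) (μ : Measure (V d → ℤ)) [IsProbabilityMeasure μ]
    (h : IsLocalLimit d {0, 1} μ) : IsExtremalGibbs d μ := by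
  obtain ⟨a, w, hM, h0, hlc, hsum, -, hs⟩ := marg_of_limit d hd {0, 1} (Or.inr rfl) μ h
  have hsym := hs rfl
  have W : Weights d a := ⟨hM.pos, h0, hM.fix, hlc, hsum⟩
  have C := num1 d hd h7 a W hsym
  obtain ⟨ρ, g, hρ, hρ', hh⟩ := contr1 W hsym C
  have htv := tv_of_contr (d := d) (a := a) (c := 1) (by norm_num) W.pos
    (fun _ => 1 / 2) (by intro i; norm_num) hρ hρ' hh
  have hL := hL_of_fam (d := d) (a := a) (c := 1) (by norm_num) htv
  have hTV := hTV_of hM.pos hL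
  exact extremal_of_lam d a μ (gibbs_of_marg d (by omega) a w μ hM)
    (lam_formula d (by omega) a w μ hM) hTV

end Pool.H96.LT
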