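import Pool.Agent.H96.LT.CertDefs

/-!
# Numerical certificates for `S = {0}`, `2 ≤ d ≤ 7`
-/

namespace Pool.H96.LT

namespace N0

/-- ratios of consecutive weights -/
noncomputable def nq (a : ℤ → ℝ) (i : ℤ) : ℝ := a i / a (i - 1)

variable {d : ℕ} {a : ℤ → ℝ}

lemma nq_pos (h : Weights d a) (i : ℤ) : 0 < nq a i := div_pos (h.pos _) (h.pos _)

lemma nq_anti (h : Weights d a) (i : ℤ) : nq a (i + 1) ≤ nq a i := by
  unfold nq
  rw [div_le_div_iff₀ (h.pos _) (h.pos _)]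
  have := h.lc i
  have e : i + 1 - 1 = i := by ring
  rw [e]
  nlinarith [this]

lemma nq_mul (h : Weights d a) (i : ℤ) : a (i - 1) * nq a i = a i := by
  unfold nq
  have := (h.pos (i - 1)).ne'
  field_simp

lemma nq_mul' (h : Weights d a) (i : ℤ) : a i * nq a (i + 1) = a (i + 1) := by
  have := nq_mul h (i + 1)
  have e : i + 1 - 1 = i := by ring
  rwa [e] at this

lemma sS_eq (h : Weights d a) (i : ℤ) :
    sS a i = a (i - 1) * (1 + nq a i * (1 + nq a (i + 1))) := by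
  unfold sS
  have h1 := nq_mul h i
  have h2 := nq_mul' h i
  have : a (i - 1) * (1 + nq a i * (1 + nq a (i + 1)))
      = a (i - 1) + a (i - 1) * nq a i + (a (i - 1) * nq a i) * nq a (i + 1) := by ring
  rw [this, h1, h2]

lemma pl_eq (h : Weights d a) (i : ℤ) :
    pl a i = 1 / (1 + nq a i * (1 + nq a (i + 1))) := by
  unfold pl
  rw [sS_eq h]
  have := (h.pos (i - 1)).ne'
  have h1 := nq_pos h i
  have h2 := nq_pos h (i + 1)
  have h3 : 0 < 1 + nq a i * (1 + nq a (i + 1)) := by positivity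
  field_simp

lemma pm_eq (h : Weights d a) (i : ℤ) :
    pm a i = nq a i / (1 + nq a i * (1 + nq a (i + 1))) := by
  unfold pm
  rw [sS_eq h]
  have h0 := (h.pos (i - 1)).ne'
  have h1 := nq_pos h i
  have h2 := nq_pos h (i + 1)
  have h3 : 0 < 1 + nq a i * (1 + nq a (i + 1)) := by positivity
  have h4 := nq_mul h i
  rw [div_eq_div_iff (by positivity) (by positivity)]
  rw [← h4]
  ring

lemma pr_eq (h : Weights d a) (i : ℤ) :
    pr a i = nq a i * nq a (i + 1) / (1 + nq a i * (1 + nq a (i + 1))) := by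
  unfold pr
  rw [sS_eq h]
  have h0 := (h.pos (i - 1)).ne'
  have h1 := nq_pos h i
  have h2 := nq_pos h (i + 1)
  have h3 : 0 < 1 + nq a i * (1 + nq a (i + 1)) := by positivity
  have h4 := nq_mul h i
  have h5 := nq_mul' h i
  rw [div_eq_div_iff (by positivity) (by positivity)]
  rw [← h5, ← h4]
  ring

lemma sS_pos (h : Weights d a) (i : ℤ) : 0 < sS a i := by
  unfold sS
  have := h.pos (i - 1)
  have := h.pos i
  have := h.pos (i + 1)
  positivity

lemma nq_rec (h : Weights d a) (i : ℤ) :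
    nq a i = (nq a (i - 1) * (1 + nq a i * (1 + nq a (i + 1)))
      / (1 + nq a (i - 1) * (1 + nq a i))) ^ d := by
  have h1 := h.fix i
  have h2 := h.fix (i - 1)
  have hc : 0 < a (-1) + a 0 + a 1 := by
    have := h.pos (-1); have := h.pos 0; have := h.pos 1; positivity
  have e1 : a (i - 1) + a i + a (i + 1) = sS a i := rfl
  have e2 : a (i - 1 - 1) + a (i - 1) + a (i - 1 + 1) = sS a (i - 1) := rfl
  rw [e1] at h1
  rw [e2] at h2
  have h3 : nq a i = (sS a i / sS a (i - 1)) ^ d := by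
    unfold nq
    rw [h1, h2, ← div_pow]
    congr 1
    have := sS_pos h i
    have := sS_pos h (i - 1)
    field_simp
  have h4 := sS_eq h i
  have h5 := sS_eq h (i - 1)
  have e3 : i - 1 + 1 = i := by ring
  rw [e3] at h5
  have h6 := nq_mul h (i - 1)
  have hp := nq_pos h (i - 1)
  have hp0 := nq_pos h i
  have hp1 := nq_pos h (i + 1)
  have hA := h.pos (i - 1 - 1)
  calc nq a i = (sS a i / sS a (i - 1)) ^ d := h3
    _ = _ := by
      congr 1
      rw [h4, h5, ← h6]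
      field_simp

lemma stepT (h : Weights d a) (i : ℤ) {X Y Z T : ℝ} (hx : nq a (i - 1) ≤ X)
    (hy : nq a i ≤ Y) (hz : nq a (i + 1) ≤ Z) (hT : T ≤ 1)
    (hc : X * (1 + Y * (1 + Z)) ≤ T * (1 + X * (1 + Y))) : nq a i ≤ T ^ d := by
  have hp := nq_pos h (i - 1)
  have hp0 := nq_pos h i
  have hp1 := nq_pos h (i + 1)
  rw [nq_rec h i]
  refine pow_le_pow_left₀ (by positivity) ?_ d
  rw [div_le_iff₀ (by positivity)]
  set x := nq a (i - 1)
  set y := nq a i
  set z := nq a (i + 1)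
  have hX : 0 < X := lt_of_lt_of_le hp hx
  have hY : 0 < Y := lt_of_lt_of_le hp0 hy
  have hZ : 0 < Z := lt_of_lt_of_le hp1 hz
  have h1 : y * z ≤ Y * Z := mul_le_mul hy hz hp1.le hY.le
  have h2 : x * ((1 - T) * (1 + y) + Y * Z) ≤ X * ((1 - T) * (1 + Y) + Y * Z) := by
    apply mul_le_mul hx _ _ hX.le
    · have : (1 - T) * (1 + y) ≤ (1 - T) * (1 + Y) :=
        mul_le_mul_of_nonneg_left (by linarith) (by linarith)
      linarith
    · have : 0 ≤ (1 - T) * (1 + y) := mul_nonneg (by linarith) (by linarith)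
      positivity
  have h3 : X * ((1 - T) * (1 + Y) + Y * Z) ≤ T := by nlinarith [hc]
  have h4 : x * (y * z) ≤ x * (Y * Z) := mul_le_mul_of_nonneg_left h1 hp.le
  nlinarith [h2, h3, h4]

lemma nq_zero (h : Weights d a) : nq a 1 = a 1 := by
  unfold nq
  have : (1 : ℤ) - 1 = 0 := by norm_num
  rw [this, h.zero]
  simp

lemma one_eq (h : Weights d a) (hsym : ∀ i, a (-i) = a i) :
    nq a 1 = ((1 + nq a 1 * (1 + nq a 2)) / (1 + 2 * nq a 1)) ^ d := by
  have h1 := h.fix 1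
  have h2 := sS_eq h 1
  have e1 : a (1 - 1) + a 1 + a (1 + 1) = sS a 1 := rfl
  rw [e1, h2] at h1
  have e2 : (1 : ℤ) - 1 = 0 := by norm_num
  have e3 : (1 : ℤ) + 1 = 2 := by norm_num
  rw [e2, e3, h.zero, hsym 1] at h1
  have h3 := nq_zero h
  rw [← h3] at h1
  nth_rewrite 1 [h1]
  congr 1
  ring

lemma one_lt (h : Weights d a) (hsym : ∀ i, a (-i) = a i) (hd : d ≠ 0) : nq a 1 < 1 := by
  have hle : a 1 ≤ 1 := by
    have h0 := h.lc 0
    have e2 : (0 : ℤ) - 1 = -1 := by norm_num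
    have e3 : (0 : ℤ) + 1 = 1 := by norm_num
    rw [e2, e3, h.zero, hsym 1] at h0
    have := h.pos 1
    nlinarith
  rw [nq_zero h]
  refine lt_of_le_of_ne hle ?_
  intro h1
  have key : ∀ n : ℕ, a (n : ℤ) = 1 ∧ a ((n : ℤ) + 1) = 1 := by
    intro n
    induction n with
    | zero => exact ⟨by simpa using h.zero, by simpa using h1⟩
    | succ n ih =>
      obtain ⟨i1, i2⟩ := ih
      refine ⟨by push_cast; exact i2, ?_⟩
      have hf := h.fix ((n : ℤ) + 1)
      have e2 : (n : ℤ) + 1 - 1 = n := by ring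
      rw [e2, i1, i2, h.zero, hsym 1, h1] at hf
      have hp := h.pos ((n : ℤ) + 1 + 1)
      have hb : (0 : ℝ) ≤ (1 + 1 + a ((n : ℤ) + 1 + 1)) / (1 + 1 + 1) := by positivity
      have hq : (1 + 1 + a ((n : ℤ) + 1 + 1)) / (1 + 1 + 1) = 1 :=
        (pow_eq_one_iff_of_nonneg hb hd).1 hf.symm
      have : a ((n : ℤ) + 1 + 1) = 1 := by
        rw [div_eq_one_iff_eq (by norm_num)] at hq
        linarith
      push_cast
      exact this
  have hs : Summable (fun n : ℕ => a (n : ℤ)) := h.sum.comp_injective Nat.cast_injective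
  have : (fun n : ℕ => a (n : ℤ)) = fun _ => (1 : ℝ) := by
    funext n; exact (key n).1
  rw [this] at hs
  have := hs.tendsto_atTop_zero
  have h2 := tendsto_nhds_unique this tendsto_const_nhds
  norm_num at h2

lemma stepW (h : Weights d a) (hsym : ∀ i, a (-i) = a i) {W Q2 : ℝ}
    (h2 : nq a 2 ≤ Q2) (hW0 : 0 ≤ W) (hW : 1 + Q2 ≤ 2 * W)
    (hc : 1 ≤ W + W ^ d * (2 * W - 1 - Q2)) : nq a 1 ≤ W ^ d := by
  have hu := nq_pos h 1
  have hv := nq_pos h 2
  have he := one_eq h hsym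
  set u := nq a 1 with hudef
  set v := nq a 2 with hvdef
  set w := (1 + u * (1 + v)) / (1 + 2 * u) with hw
  have hw0 : 0 < w := by positivity
  have hww : w * (1 + 2 * u) = 1 + u * (1 + v) := by
    rw [hw]; field_simp
  rw [he]
  refine pow_le_pow_left₀ hw0.le ?_ d
  by_contra hcon
  push Not at hcon
  rw [he] at hww
  have h3 : W ^ d ≤ w ^ d := pow_le_pow_left₀ hW0 hcon.le d
  have h4 : 0 ≤ W ^ d := pow_nonneg hW0 d
  have h5 : W ^ d * (2 * W - 1 - Q2) ≤ w ^ d * (2 * w - 1 - v) :=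
    mul_le_mul h3 (by linarith) (by linarith) (by positivity)
  nlinarith [h5, hww, hc, hcon]

lemma lowU (h : Weights d a) (hsym : ∀ i, a (-i) = a i) {U : ℝ}
    (hU : nq a 1 ≤ U) : ((1 + U) / (1 + 2 * U)) ^ d ≤ nq a 1 := by
  have hu := nq_pos h 1
  have hv := nq_pos h 2
  rw [one_eq h hsym]
  have hUp : 0 < U := lt_of_lt_of_le hu hU
  refine pow_le_pow_left₀ (by positivity) ?_ d
  set u := nq a 1 with hudef
  set v := nq a 2 with hvdef
  rw [div_le_div_iff₀ (by positivity) (by positivity)]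
  have : 0 ≤ u * v * (1 + 2 * U) := by positivity
  nlinarith [this]

lemma two_lt (h : Weights d a) (hsym : ∀ i, a (-i) = a i) (hd : d ≠ 0) : nq a 2 < 1 :=
  lt_of_le_of_lt (nq_anti h 1) (one_lt h hsym hd)

/-- the starting inequality -/
lemma start (h : Weights d a) (hsym : ∀ i, a (-i) = a i) (hd : d ≠ 0) :
    ∃ t : ℝ, 0 < t ∧ t < 1 ∧ nq a 2 = t ^ d ∧ t * (2 + t ^ d) ≤ 1 + t ^ d + t ^ (2 * d) := by
  have hx := nq_pos h 1
  have hy := nq_pos h 2
  have hz := nq_pos h 3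
  have hx1 := one_lt h hsym hd
  have hy1 := two_lt h hsym hd
  have hzy : nq a 3 ≤ nq a 2 := nq_anti h 2
  have hr := nq_rec h 2
  have e2 : (2 : ℤ) - 1 = 1 := by norm_num
  have e3 : (2 : ℤ) + 1 = 3 := by norm_num
  rw [e2, e3] at hr
  set x := nq a 1 with hxd
  set y := nq a 2 with hyd
  set z := nq a 3 with hzd
  set t := x * (1 + y * (1 + z)) / (1 + x * (1 + y)) with ht
  have ht0 : 0 < t := by positivity
  have ht1 : t < 1 := by
    by_contra hcon
    push Not at hcon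
    have := one_le_pow₀ (n := d) hcon
    linarith
  refine ⟨t, ht0, ht1, hr, ?_⟩
  have htt : t * (1 + x * (1 + y)) = x * (1 + y * (1 + z)) := by
    rw [ht]; field_simp
  have e4 : t ^ (2 * d) = y * y := by rw [hr]; ring
  rw [e4, ← hr]
  -- t (1/x + 1 + y) = 1 + y (1+z) , 1/x >= 1
  have h1 : t * (2 + y) * x ≤ (1 + y + y * y) * x := by
    have : t * x ≤ t := by nlinarith
    have h2 : x * (y * z) ≤ x * (y * y) :=
      mul_le_mul_of_nonneg_left (mul_le_mul_of_nonneg_left hzy hy.le) hx.le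
    nlinarith
  exact le_of_mul_le_mul_right h1 hx

/-- the function `g` -/
noncomputable def gf (g1 g2 G : ℝ) : ℕ → ℝ
  | 0 => 1
  | 1 => g1
  | (n + 2) => g2 * G ^ n

lemma gf_one_le {g1 g2 G : ℝ} (h1 : 1 ≤ g1) (h2 : 1 ≤ g2) (hG : 1 ≤ G) (i : ℕ) :
    1 ≤ gf g1 g2 G i := by
  match i with
  | 0 => exact le_refl _
  | 1 => exact h1
  | (n + 2) =>
    show 1 ≤ g2 * G ^ n
    exact one_le_mul_of_one_le_of_one_le h2 (one_le_pow₀ hG)

lemma pr0_eq (h : Weights d a) (hsym : ∀ i, a (-i) = a i) :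
    pr a 0 = nq a 1 / (1 + 2 * nq a 1) := by
  rw [nq_zero h]
  unfold pr sS
  have e2 : (0 : ℤ) - 1 = -1 := by norm_num
  have e3 : (0 : ℤ) + 1 = 1 := by norm_num
  rw [e2, e3, hsym 1, h.zero]
  congr 1
  ring

lemma pm0_eq (h : Weights d a) (hsym : ∀ i, a (-i) = a i) :
    pm a 0 = 1 / (1 + 2 * nq a 1) := by
  rw [nq_zero h]
  unfold pm sS
  have e2 : (0 : ℤ) - 1 = -1 := by norm_num
  have e3 : (0 : ℤ) + 1 = 1 := by norm_num
  rw [e2, e3, hsym 1, h.zero]
  congr 1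
  ring

lemma nq_le_of_le (h : Weights d a) (i : ℤ) (n : ℕ) : nq a (i + n) ≤ nq a i := by
  induction n with
  | zero => simp
  | succ n ih =>
    have := nq_anti h (i + n)
    have e : i + ((n + 1 : ℕ) : ℤ) = i + n + 1 := by push_cast; ring
    rw [e]
    linarith

lemma pl_pos (h : Weights d a) (i : ℤ) : 0 < pl a i := div_pos (h.pos _) (sS_pos h i)

lemma pr_pos (h : Weights d a) (i : ℤ) : 0 < pr a i := div_pos (h.pos _) (sS_pos h i)

lemma pl_le_one (h : Weights d a) (i : ℤ) : pl a i ≤ 1 := by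
  unfold pl
  rw [div_le_one (sS_pos h i)]
  unfold sS
  have := h.pos i
  have := h.pos (i + 1)
  linarith

lemma pr_le (h : Weights d a) (i : ℤ) : pr a i ≤ nq a i * nq a (i + 1) := by
  rw [pr_eq h]
  have h1 := nq_pos h i
  have h2 := nq_pos h (i + 1)
  apply div_le_self (by positivity)
  have : 0 < nq a i * (1 + nq a (i + 1)) := by positivity
  linarith

lemma kk_le (h : Weights d a) (i : ℤ) :
    kk a i ≤ nq a (i + 1) * (1 + nq a (i + 1 + 1)) / (1 + nq a (i + 1) * (1 + nq a (i + 1 + 1))) := by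
  unfold kk
  rw [pl_eq h (i + 1)]
  have h1 := nq_pos h (i + 1)
  have h2 := nq_pos h (i + 1 + 1)
  have h3 := pr_pos h i
  have h4 : 0 < 1 + nq a (i + 1) * (1 + nq a (i + 1 + 1)) := by positivity
  have : nq a (i + 1) * (1 + nq a (i + 1 + 1)) / (1 + nq a (i + 1) * (1 + nq a (i + 1 + 1)))
      = 1 - 1 / (1 + nq a (i + 1) * (1 + nq a (i + 1 + 1))) := by
    field_simp
    ring
  rw [this]
  linarith

lemma kk_le' (h : Weights d a) (i : ℤ) : kk a i ≤ nq a (i + 1) := by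
  refine (kk_le h i).trans ?_
  have h1 := nq_pos h (i + 1)
  have h2 := nq_pos h (i + 1 + 1)
  have h3 := nq_anti h (i + 1)
  rw [div_le_iff₀ (by positivity)]
  have h4 : 0 ≤ nq a (i + 1) * (nq a (i + 1) - nq a (i + 1 + 1)) := mul_nonneg h1.le (by linarith)
  have h5 : 0 ≤ nq a (i + 1) * nq a (i + 1) * nq a (i + 1 + 1) := by positivity
  nlinarith [h4, h5]

/-- `t/(1+c t)` is increasing -/
lemma frac_mono {x y c : ℝ} (hx : 0 ≤ x) (hxy : x ≤ y) (hc : 0 ≤ c) :
    x / (1 + c * x) ≤ y / (1 + c * y) := by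
  have hy : 0 ≤ y := hx.trans hxy
  rw [div_le_div_iff₀ (by positivity) (by positivity)]
  nlinarith

theorem cert_of_bounds (h : Weights d a) (hsym : ∀ i, a (-i) = a i)
    {α κ β ρ H g1 g2 G U L Q2 Q3 : ℝ}
    (hα : 1 / 2 ≤ α) (hα1 : α < 1) (hκ : 0 ≤ κ) (hακ : 2 * α - 1 ≤ κ * (1 - α)) (hβ : 0 < β)
    (hρ : 0 < ρ) (hρ1 : ρ < 1) (hg1 : 1 ≤ g1) (hg2 : 1 ≤ g2) (hG : 1 ≤ G)
    (hU : nq a 1 ≤ U) (hL0 : 0 ≤ L) (hL : L ≤ nq a 1) (hQ2 : nq a 2 ≤ Q2) (hQ21 : Q2 ≤ 1)
    (hQ3 : nq a 3 ≤ Q3)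
    (N2 : α * (α * (U / (1 + 2 * U)) / (1 - α)) + β * α
      ≤ α * (1 / (1 + 2 * U)) + (1 - α) * (1 / (1 + U * (1 + Q2))))
    (N3 : β * (1 - α) ≤ α * (L / (1 + 2 * L)) + (1 - α) * (L * (1 - Q2) / (1 + L * (1 + Q2))))
    (N4 : U / (1 + 2 * U) * (1 - α) / α + (1 - 1 / (1 + U * (1 + Q2)) - U / (1 + 2 * U)) ^ 2 / β
      + 2 * α * (U * Q2 / (1 + U * (1 + Q2))) ≤ H)
    (N5 : (∑ m ∈ Finset.range d, (1 + κ * H) ^ m) *
      ((U / (1 + 2 * U) * (1 - α) / α + (1 - 1 / (1 + U * (1 + Q2)) - U / (1 + 2 * U)) ^ 2 / β) * 1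
        + 2 * α * (U * Q2 / (1 + U * (1 + Q2))) * g1) ≤ ρ * 1)
    (N6 : d * (1 / (1 + L) / (2 * (1 - α)) * 1 + Q2 * (1 + Q3) / (1 + Q2 * (1 + Q3)) * g1
      + Q2 * Q3 * g2) ≤ ρ * g1)
    (N7 : d * (g1 + Q3 * g2 + Q3 * Q3 * (g2 * G)) ≤ ρ * g2)
    (N8 : d * (1 / G + Q3 + Q3 * Q3 * G) ≤ ρ) : Cert0 d a := by
  have hu := nq_pos h 1
  have hv := nq_pos h 2
  have hz := nq_pos h 3
  have hUp : 0 < U := lt_of_lt_of_le hu hU
  have hQ2p : 0 < Q2 := lt_of_lt_of_le hv hQ2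
  have hQ3p : 0 < Q3 := lt_of_lt_of_le hz hQ3
  have hv1 : nq a 2 ≤ 1 := hQ2.trans hQ21
  have hGp : 0 < G := by linarith
  have hg1p : 0 < g1 := by linarith
  have hg2p : 0 < g2 := by linarith
  have hαp : 0 < α := by linarith
  have h1α : 0 < 1 - α := by linarith
  have e12 : (1 : ℤ) + 1 = 2 := by norm_num
  have e23 : (2 : ℤ) + 1 = 3 := by norm_num
  have e01 : (0 : ℤ) + 1 = 1 := by norm_num
  set u := nq a 1 with hudef
  set v := nq a 2 with hvdef
  set z := nq a 3 with hzdef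
  have hpr0 : pr a 0 = u / (1 + 2 * u) := pr0_eq h hsym
  have hpm0 : pm a 0 = 1 / (1 + 2 * u) := pm0_eq h hsym
  have hpl1 : pl a 1 = 1 / (1 + u * (1 + v)) := by
    have := pl_eq h 1; rwa [e12] at this
  have hpm1 : pm a 1 = u / (1 + u * (1 + v)) := by
    have := pm_eq h 1; rwa [e12] at this
  have hpr1 : pr a 1 = u * v / (1 + u * (1 + v)) := by
    have := pr_eq h 1; rwa [e12] at this
  -- upper bounds
  have bpr0 : pr a 0 ≤ U / (1 + 2 * U) := by
    rw [hpr0]; exact frac_mono hu.le hU (by norm_num)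
  have bpr0' : L / (1 + 2 * L) ≤ pr a 0 := by
    rw [hpr0]; exact frac_mono hL0 hL (by norm_num)
  have bpm0 : 1 / (1 + 2 * U) ≤ pm a 0 := by
    rw [hpm0]
    exact one_div_le_one_div_of_le (by positivity) (by linarith)
  have huv : u * (1 + v) ≤ U * (1 + Q2) := mul_le_mul hU (by linarith) (by positivity) hUp.le
  have bpl1 : 1 / (1 + U * (1 + Q2)) ≤ pl a 1 := by
    rw [hpl1]
    exact one_div_le_one_div_of_le (by positivity) (by linarith)
  have bpl1' : pl a 1 ≤ 1 / (1 + L) := by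
    rw [hpl1]
    have : 0 ≤ u * v := by positivity
    exact one_div_le_one_div_of_le (by positivity) (by nlinarith)
  have bpr1 : pr a 1 ≤ U * Q2 / (1 + U * (1 + Q2)) := by
    rw [hpr1, div_le_div_iff₀ (by positivity) (by positivity)]
    have k1 : u * v ≤ U * Q2 := mul_le_mul hU hQ2 hv.le hUp.le
    have k2 : u * v * U ≤ U * Q2 * u := by
      have : u * v * U = (u * U) * v := by ring
      rw [this]
      have : U * Q2 * u = (u * U) * Q2 := by ring
      rw [this]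
      exact mul_le_mul_of_nonneg_left hQ2 (by positivity)
    nlinarith [k1, k2]
  have bkk0 : kk a 0 ≤ 1 - 1 / (1 + U * (1 + Q2)) - U / (1 + 2 * U) := by
    unfold kk
    rw [e01, hpr0, hpl1]
    have s1 : 1 / (1 + u * (1 + Q2)) ≤ 1 / (1 + u * (1 + v)) :=
      one_div_le_one_div_of_le (by positivity)
        (by nlinarith [mul_le_mul_of_nonneg_left hQ2 hu.le])
    have s2 : 1 / (1 + u * (1 + Q2)) - 1 / (1 + U * (1 + Q2))
        = (1 + Q2) * (U - u) / ((1 + u * (1 + Q2)) * (1 + U * (1 + Q2))) := by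
      field_simp
      ring
    have s3 : U / (1 + 2 * U) - u / (1 + 2 * u)
        = (U - u) / ((1 + 2 * u) * (1 + 2 * U)) := by
      field_simp
      ring
    have s4 : (U - u) / ((1 + 2 * u) * (1 + 2 * U))
        ≤ (1 + Q2) * (U - u) / ((1 + u * (1 + Q2)) * (1 + U * (1 + Q2))) := by
      apply div_le_div₀
      · have : 0 ≤ U - u := by linarith
        positivity
      · have : 0 ≤ Q2 * (U - u) := mul_nonneg hQ2p.le (by linarith)
        linarith
      · positivity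
      · apply mul_le_mul
        · nlinarith [mul_le_mul_of_nonneg_left hQ21 hu.le]
        · nlinarith [mul_le_mul_of_nonneg_left hQ21 hUp.le]
        · positivity
        · positivity
    linarith
  have bkk0' : 0 ≤ kk a 0 := by
    unfold kk
    rw [e01, hpr0, hpl1]
    have s1 : 1 - u / (1 + 2 * u) - 1 / (1 + u * (1 + v))
        = u * (1 + v) / (1 + u * (1 + v)) - u / (1 + 2 * u) := by
      field_simp
      ring
    rw [s1]
    have s2 : u / (1 + 2 * u) ≤ u * (1 + v) / (1 + u * (1 + v)) := by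
      apply div_le_div₀
      · positivity
      · nlinarith [mul_pos hu hv]
      · positivity
      · nlinarith [mul_le_mul_of_nonneg_left hv1 hu.le]
    linarith
  have bkk0sq : kk a 0 ^ 2 ≤ (1 - 1 / (1 + U * (1 + Q2)) - U / (1 + 2 * U)) ^ 2 :=
    pow_le_pow_left₀ bkk0' bkk0 2
  set KK := 1 - 1 / (1 + U * (1 + Q2)) - U / (1 + 2 * U) with hKK
  have ppr0 := pr_pos h 0
  have ppr1 := pr_pos h 1
  have ppl1 := pl_pos h 1
  have hA : pr a 0 * (1 - α) / α + kk a 0 ^ 2 / β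
      ≤ U / (1 + 2 * U) * (1 - α) / α + KK ^ 2 / β := by
    have t1 : pr a 0 * (1 - α) / α ≤ U / (1 + 2 * U) * (1 - α) / α := by gcongr
    have t2 : kk a 0 ^ 2 / β ≤ KK ^ 2 / β := by gcongr
    linarith
  have hB : 2 * α * pr a 1 ≤ 2 * α * (U * Q2 / (1 + U * (1 + Q2))) := by gcongr
  have hH : 0 ≤ H := by
    refine le_trans ?_ N4
    have : 0 ≤ (1 - α) := h1α.le
    positivity
  refine ⟨α, κ, β, ρ, H, gf g1 g2 G, hα, hα1, hκ, hακ, hβ, hρ, hρ1,
    gf_one_le hg1 hg2 hG, ?_, ?_, ?_, ?_, ?_, ?_⟩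
  · -- N2
    have t1 : α * (α * pr a 0 / (1 - α)) ≤ α * (α * (U / (1 + 2 * U)) / (1 - α)) := by gcongr
    have t2 : α * (1 / (1 + 2 * U)) ≤ α * pm a 0 := by gcongr
    have t3 : (1 - α) * (1 / (1 + U * (1 + Q2))) ≤ (1 - α) * pl a 1 := by gcongr
    linarith
  · -- N3
    have t1 : α * (L / (1 + 2 * L)) ≤ α * pr a 0 := by gcongr
    have t2 : L * (1 - Q2) / (1 + L * (1 + Q2)) ≤ pm a 1 - pr a 1 := by
      rw [hpm1, hpr1, ← sub_div]
      have : u - u * v = u * (1 - v) := by ring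
      rw [this]
      rw [div_le_div_iff₀ (by positivity) (by positivity)]
      have k1 : L * (1 - Q2) ≤ u * (1 - v) := mul_le_mul hL (by linarith) (by linarith) hu.le
      have k2 : (1 - Q2) * (1 + v) ≤ (1 - v) * (1 + Q2) := by nlinarith
      have k3 : (u * L) * ((1 - Q2) * (1 + v)) ≤ (u * L) * ((1 - v) * (1 + Q2)) :=
        mul_le_mul_of_nonneg_left k2 (by positivity)
      nlinarith [k1, k3]
    have t3 : (1 - α) * (L * (1 - Q2) / (1 + L * (1 + Q2))) ≤ (1 - α) * (pm a 1 - pr a 1) :=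
      mul_le_mul_of_nonneg_left t2 h1α.le
    nlinarith [t1, t3, N3]
  · -- N4
    linarith
  · -- N5
    show _ ≤ ρ * 1
    refine le_trans ?_ N5
    have hs : 0 ≤ ∑ m ∈ Finset.range d, (1 + κ * H) ^ m := by
      apply Finset.sum_nonneg
      intro m _
      positivity
    apply mul_le_mul_of_nonneg_left _ hs
    show (pr a 0 * (1 - α) / α + kk a 0 ^ 2 / β) * 1 + 2 * α * pr a 1 * g1 ≤ _
    have := mul_le_mul_of_nonneg_right hB hg1p.le
    linarith
  · -- N6
    show (d : ℝ) * (pl a 1 / (2 * (1 - α)) * 1 + kk a 1 * g1 + pr a 2 * (g2 * G ^ 0)) ≤ ρ * g1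
    refine le_trans ?_ N6
    apply mul_le_mul_of_nonneg_left _ (Nat.cast_nonneg d)
    have t1 : pl a 1 / (2 * (1 - α)) * 1 ≤ 1 / (1 + L) / (2 * (1 - α)) * 1 := by gcongr
    have t2 : kk a 1 ≤ Q2 * (1 + Q3) / (1 + Q2 * (1 + Q3)) := by
      have := kk_le h 1
      rw [e12, e23] at this
      refine this.trans ?_
      have k1 : v * (1 + z) ≤ Q2 * (1 + Q3) := mul_le_mul hQ2 (by linarith) (by positivity) hQ2p.le
      have := frac_mono (x := v * (1 + z)) (y := Q2 * (1 + Q3)) (c := 1) (by positivity) k1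
        (by norm_num)
      rwa [one_mul, one_mul] at this
    have t3 : pr a 2 ≤ Q2 * Q3 := by
      have := pr_le h 2
      rw [e23] at this
      refine this.trans ?_
      exact mul_le_mul hQ2 hQ3 hz.le hQ2p.le
    have t4 := mul_le_mul_of_nonneg_right t2 hg1p.le
    have t5 := mul_le_mul_of_nonneg_right t3 hg2p.le
    rw [pow_zero, mul_one]
    linarith
  · -- N7, N8
    intro i hi
    obtain ⟨n, rfl⟩ : ∃ n, i = n + 2 := ⟨i - 2, by omega⟩
    have hq3 : nq a (((n + 2 : ℕ) : ℤ) + 1) ≤ Q3 := by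
      have := nq_le_of_le h 3 n
      have e : ((n + 2 : ℕ) : ℤ) + 1 = 3 + n := by push_cast; ring
      rw [e]
      linarith
    have hq4 : nq a (((n + 2 : ℕ) : ℤ) + 1 + 1) ≤ Q3 :=
      (nq_anti h _).trans hq3
    have hq3p := nq_pos h (((n + 2 : ℕ) : ℤ) + 1)
    have hq4p := nq_pos h (((n + 2 : ℕ) : ℤ) + 1 + 1)
    have bk : kk a ((n + 2 : ℕ) : ℤ) ≤ Q3 := (kk_le' h _).trans hq3
    have bp : pr a (((n + 2 : ℕ) : ℤ) + 1) ≤ Q3 * Q3 :=
      (pr_le h _).trans (mul_le_mul hq3 hq4 hq4p.le hQ3p.le)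
    have bl := pl_le_one h ((n + 2 : ℕ) : ℤ)
    have hG1 : gf g1 g2 G (n + 2) = g2 * G ^ n := rfl
    have hG2 : gf g1 g2 G (n + 2 + 1) = g2 * G ^ (n + 1) := rfl
    rw [hG1, hG2]
    match n with
    | 0 =>
      have hG3 : gf g1 g2 G (0 + 2 - 1) = g1 := rfl
      rw [hG3, pow_zero, zero_add, pow_one, mul_one]
      refine le_trans ?_ N7
      apply mul_le_mul_of_nonneg_left _ (Nat.cast_nonneg d)
      have t1 := mul_le_mul_of_nonneg_right bl hg1p.le
      have t2 := mul_le_mul_of_nonneg_right bk hg2p.le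
      have t3 := mul_le_mul_of_nonneg_right bp (mul_pos hg2p hGp).le
      rw [zero_add] at t1 t2 t3
      linarith
    | (n + 1) =>
      have hG3 : gf g1 g2 G (n + 1 + 2 - 1) = g2 * G ^ n := rfl
      rw [hG3]
      have hP : 0 < g2 * G ^ n := by positivity
      have t1 := mul_le_mul_of_nonneg_right bl hP.le
      have t2 := mul_le_mul_of_nonneg_right bk (mul_pos hP hGp).le
      have t3 := mul_le_mul_of_nonneg_right bp (mul_pos hP (mul_pos hGp hGp)).le
      have e1 : g2 * G ^ (n + 1) = g2 * G ^ n * G := by ring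
      have e2 : g2 * G ^ (n + 1 + 1) = g2 * G ^ n * (G * G) := by ring
      rw [e1, e2]
      have t4 : (d : ℝ) * (1 / G + Q3 + Q3 * Q3 * G) * (g2 * G ^ n * G) ≤ ρ * (g2 * G ^ n * G) :=
        mul_le_mul_of_nonneg_right N8 (mul_pos hP hGp).le
      refine le_trans ?_ t4
      rw [mul_assoc (d : ℝ)]
      apply mul_le_mul_of_nonneg_left _ (Nat.cast_nonneg d)
      have e3 : (1 / G + Q3 + Q3 * Q3 * G) * (g2 * G ^ n * G)
          = 1 * (g2 * G ^ n) + Q3 * (g2 * G ^ n * G) + Q3 * Q3 * (g2 * G ^ n * (G * G)) := by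
        field_simp
      rw [e3]
      linarith

end N0

end Pool.H96.LT
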