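import Pool.Agent.H96.LT.Div

/-!
# One-step comparison of mixtures (Cauchy-Schwarz)
-/

namespace Pool.H96.LT
open Finset

/-- Cauchy-Schwarz for three terms. -/
theorem cs3 {A1 A2 A3 B1 B2 B3 C1 C2 C3 : ℝ} (hB1 : 0 ≤ B1) (hB2 : 0 ≤ B2) (hB3 : 0 ≤ B3)
    (hC1 : 0 ≤ C1) (hC2 : 0 ≤ C2) (hC3 : 0 ≤ C3)
    (h1 : A1 ^ 2 ≤ B1 * C1) (h2 : A2 ^ 2 ≤ B2 * C2) (h3 : A3 ^ 2 ≤ B3 * C3) :
    (A1 + A2 + A3) ^ 2 ≤ (B1 + B2 + B3) * (C1 + C2 + C3) := by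
  have key : ∀ {a b x y z w : ℝ}, 0 ≤ x → 0 ≤ y → 0 ≤ z → 0 ≤ w → a ^ 2 ≤ x * y → b ^ 2 ≤ z * w →
      2 * (a * b) ≤ x * w + z * y := by
    intro a b x y z w hx hy hz hw ha hb
    have h : (2 * (a * b)) ^ 2 ≤ (x * w + z * y) ^ 2 := by
      have e1 : (a * b) ^ 2 ≤ (x * y) * (z * w) := by
        rw [mul_pow]
        exact mul_le_mul ha hb (sq_nonneg _) (mul_nonneg hx hy)
      nlinarith [sq_nonneg (x * w - z * y)]
    exact (abs_le_of_sq_le_sq' h (by positivity)).2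
  have e12 := key hB1 hC1 hB2 hC2 h1 h2
  have e13 := key hB1 hC1 hB3 hC3 h1 h3
  have e23 := key hB2 hC2 hB3 hC3 h2 h3
  nlinarith

theorem term_sq {K u β M : ℝ} (hβ : 0 < β) (hM : 0 ≤ M) (h : M = 0 → u = 0) :
    (K * u) ^ 2 ≤ (β * M) * (K ^ 2 / β * (u ^ 2 / M)) := by
  rcases eq_or_lt_of_le hM with h0 | h0
  · rw [h h0.symm]; simp
  · have : (β * M) * (K ^ 2 / β * (u ^ 2 / M)) = (K * u) ^ 2 := by
      field_simp
    rw [this]

theorem cs_point {x0 x1 x2 x3 α1 α2 α3 K1 K2 K3 β1 β2 β3 Dn : ℝ}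
    (hx0 : 0 ≤ x0) (hx1 : 0 ≤ x1) (hx2 : 0 ≤ x2) (hx3 : 0 ≤ x3)
    (h1 : 0 < α1) (h1' : α1 < 1) (h2 : 0 < α2) (h2' : α2 < 1) (h3 : 0 < α3) (h3' : α3 < 1)
    (hβ1 : 0 < β1) (hβ2 : 0 < β2) (hβ3 : 0 < β3)
    (hD : β1 * (α1 * x0 + (1 - α1) * x1) + β2 * (α2 * x1 + (1 - α2) * x2)
      + β3 * (α3 * x2 + (1 - α3) * x3) ≤ Dn) :
    (K1 * (x0 - x1) + K2 * (x1 - x2) + K3 * (x2 - x3)) ^ 2 / Dn ≤
      K1 ^ 2 / β1 * ((x0 - x1) ^ 2 / (α1 * x0 + (1 - α1) * x1))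
      + K2 ^ 2 / β2 * ((x1 - x2) ^ 2 / (α2 * x1 + (1 - α2) * x2))
      + K3 ^ 2 / β3 * ((x2 - x3) ^ 2 / (α3 * x2 + (1 - α3) * x3)) := by
  have nn : ∀ {α x y : ℝ}, 0 < α → α < 1 → 0 ≤ x → 0 ≤ y → 0 ≤ α * x + (1 - α) * y := by
    intro α x y h h' hx hy
    have : 0 ≤ 1 - α := by linarith
    positivity
  have zz : ∀ {α x y : ℝ}, 0 < α → α < 1 → 0 ≤ x → 0 ≤ y → α * x + (1 - α) * y = 0 →
      x - y = 0 := by
    intro α x y h h' hx hy e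
    have h'' : 0 < 1 - α := by linarith
    have e1 : 0 ≤ α * x := by positivity
    have e2 : 0 ≤ (1 - α) * y := by positivity
    have e3 : α * x = 0 := by linarith
    have e4 : (1 - α) * y = 0 := by linarith
    have e5 : x = 0 := by
      rcases mul_eq_zero.mp e3 with h | h
      · linarith
      · exact h
    have e6 : y = 0 := by
      rcases mul_eq_zero.mp e4 with h | h
      · linarith
      · exact h
    rw [e5, e6]; simp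
  have M1 := nn h1 h1' hx0 hx1
  have M2 := nn h2 h2' hx1 hx2
  have M3 := nn h3 h3' hx2 hx3
  set N1 := α1 * x0 + (1 - α1) * x1 with hN1
  set N2 := α2 * x1 + (1 - α2) * x2 with hN2
  set N3 := α3 * x2 + (1 - α3) * x3 with hN3
  have t1 := term_sq (K := K1) (u := x0 - x1) hβ1 M1 (fun e => zz h1 h1' hx0 hx1 e)
  have t2 := term_sq (K := K2) (u := x1 - x2) hβ2 M2 (fun e => zz h2 h2' hx1 hx2 e)
  have t3 := term_sq (K := K3) (u := x2 - x3) hβ3 M3 (fun e => zz h3 h3' hx2 hx3 e)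
  have C1 : 0 ≤ K1 ^ 2 / β1 * ((x0 - x1) ^ 2 / N1) := by positivity
  have C2 : 0 ≤ K2 ^ 2 / β2 * ((x1 - x2) ^ 2 / N2) := by positivity
  have C3 : 0 ≤ K3 ^ 2 / β3 * ((x2 - x3) ^ 2 / N3) := by positivity
  have B1 : 0 ≤ β1 * N1 := by positivity
  have B2 : 0 ≤ β2 * N2 := by positivity
  have B3 : 0 ≤ β3 * N3 := by positivity
  have main := cs3 B1 B2 B3 C1 C2 C3 t1 t2 t3
  have hDn : 0 ≤ Dn := by linarith
  rcases eq_or_lt_of_le hDn with h0 | h0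
  · rw [← h0, div_zero]; positivity
  · rw [div_le_iff₀ h0]
    refine main.trans ?_
    rw [mul_comm]
    exact mul_le_mul_of_nonneg_left hD (by positivity)

/-- Comparison of the divergence of two mixtures with the divergences of the links. -/
theorem hat_mix {X : Type} {s : Finset X} {x0 x1 x2 x3 p q : X → ℝ}
    {α α1 α2 α3 β1 β2 β3 l m r l' m' r' : ℝ}
    (hx0 : ∀ x ∈ s, 0 ≤ x0 x) (hx1 : ∀ x ∈ s, 0 ≤ x1 x)
    (hx2 : ∀ x ∈ s, 0 ≤ x2 x) (hx3 : ∀ x ∈ s, 0 ≤ x3 x)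
    (h : 0 < α) (h' : α < 1)
    (h1 : 0 < α1) (h1' : α1 < 1) (h2 : 0 < α2) (h2' : α2 < 1) (h3 : 0 < α3) (h3' : α3 < 1)
    (hβ1 : 0 < β1) (hβ2 : 0 < β2) (hβ3 : 0 < β3)
    (hlmr : l + m + r = 1) (hlmr' : l' + m' + r' = 1)
    (hp : ∀ x ∈ s, p x = l * x0 x + m * x1 x + r * x2 x)
    (hq : ∀ x ∈ s, q x = l' * x1 x + m' * x2 x + r' * x3 x)
    (c0 : β1 * α1 ≤ α * l) (c1 : β1 * (1 - α1) + β2 * α2 ≤ α * m + (1 - α) * l')
    (c2 : β2 * (1 - α2) + β3 * α3 ≤ α * r + (1 - α) * m') (c3 : β3 * (1 - α3) ≤ (1 - α) * r') :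
    hat α s p q ≤
      (α * (1 - α) / (α1 * (1 - α1))) * (l ^ 2 / β1) * hat α1 s x0 x1
      + (α * (1 - α) / (α2 * (1 - α2))) * ((l + m - l') ^ 2 / β2) * hat α2 s x1 x2
      + (α * (1 - α) / (α3 * (1 - α3))) * (r' ^ 2 / β3) * hat α3 s x2 x3 := by
  have e1 : α1 * (1 - α1) ≠ 0 := by
    have : 0 < 1 - α1 := by linarith
    positivity
  have e2 : α2 * (1 - α2) ≠ 0 := by
    have : 0 < 1 - α2 := by linarith
    positivity
  have e3 : α3 * (1 - α3) ≠ 0 := by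
    have : 0 < 1 - α3 := by linarith
    positivity
  have hα : 0 ≤ α * (1 - α) := by
    have : 0 < 1 - α := by linarith
    positivity
  have step : ∑ x ∈ s, (p x - q x) ^ 2 / (α * p x + (1 - α) * q x) ≤
      l ^ 2 / β1 * (∑ x ∈ s, (x0 x - x1 x) ^ 2 / (α1 * x0 x + (1 - α1) * x1 x))
      + (l + m - l') ^ 2 / β2 * (∑ x ∈ s, (x1 x - x2 x) ^ 2 / (α2 * x1 x + (1 - α2) * x2 x))
      + r' ^ 2 / β3 * (∑ x ∈ s, (x2 x - x3 x) ^ 2 / (α3 * x2 x + (1 - α3) * x3 x)) := by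
    rw [mul_sum, mul_sum, mul_sum, ← sum_add_distrib, ← sum_add_distrib]
    refine sum_le_sum fun x hx => ?_
    have y0 := hx0 x hx
    have y1 := hx1 x hx
    have y2 := hx2 x hx
    have y3 := hx3 x hx
    have hD : β1 * (α1 * x0 x + (1 - α1) * x1 x) + β2 * (α2 * x1 x + (1 - α2) * x2 x)
      + β3 * (α3 * x2 x + (1 - α3) * x3 x) ≤ α * p x + (1 - α) * q x := by
      rw [hp x hx, hq x hx]
      have i0 := mul_le_mul_of_nonneg_right c0 y0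
      have i1 := mul_le_mul_of_nonneg_right c1 y1
      have i2 := mul_le_mul_of_nonneg_right c2 y2
      have i3 := mul_le_mul_of_nonneg_right c3 y3
      nlinarith
    have main := cs_point (K1 := l) (K2 := l + m - l') (K3 := r') y0 y1 y2 y3 h1 h1' h2 h2' h3 h3'
      hβ1 hβ2 hβ3 hD
    have e : p x - q x = l * (x0 x - x1 x) + (l + m - l') * (x1 x - x2 x) + r' * (x2 x - x3 x) := by
      rw [hp x hx, hq x hx]
      have : r = 1 - l - m := by linarith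
      have : m' = 1 - l' - r' := by linarith
      subst r m'
      ring
    rw [e]
    exact main
  unfold hat
  calc α * (1 - α) * ∑ x ∈ s, (p x - q x) ^ 2 / (α * p x + (1 - α) * q x)
      ≤ α * (1 - α) * (l ^ 2 / β1 * (∑ x ∈ s, (x0 x - x1 x) ^ 2 / (α1 * x0 x + (1 - α1) * x1 x))
      + (l + m - l') ^ 2 / β2 * (∑ x ∈ s, (x1 x - x2 x) ^ 2 / (α2 * x1 x + (1 - α2) * x2 x))
      + r' ^ 2 / β3 * (∑ x ∈ s, (x2 x - x3 x) ^ 2 / (α3 * x2 x + (1 - α3) * x3 x))) :=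
        mul_le_mul_of_nonneg_left step hα
    _ = _ := by
      have aux : ∀ {e a S : ℝ}, e ≠ 0 → α * (1 - α) / e * a * (e * S) = α * (1 - α) * (a * S) := by
        intro e a S he
        field_simp
      rw [aux e1, aux e2, aux e3]
      ring

end Pool.H96.LT
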