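import Pool.Agent.H96.LT.CertDefs

/-!
# Elementary facts on the transition probabilities
-/

namespace Pool.H96.LT

variable {d : ℕ} {a : ℤ → ℝ}

theorem sS_pos (h : ∀ i, 0 < a i) (i : ℤ) : 0 < sS a i := by
  unfold sS
  have := h (i - 1); have := h i; have := h (i + 1)
  positivity

theorem pl_pos (h : ∀ i, 0 < a i) (i : ℤ) : 0 < pl a i := div_pos (h _) (sS_pos h i)
theorem pm_pos (h : ∀ i, 0 < a i) (i : ℤ) : 0 < pm a i := div_pos (h _) (sS_pos h i)
theorem pr_pos (h : ∀ i, 0 < a i) (i : ℤ) : 0 < pr a i := div_pos (h _) (sS_pos h i)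

theorem p_sum (h : ∀ i, 0 < a i) (i : ℤ) : pl a i + pm a i + pr a i = 1 := by
  unfold pl pm pr
  rw [← add_div, ← add_div]
  exact div_self (sS_pos h i).ne'

theorem lc3 (h : ∀ i, 0 < a i) (hlc : ∀ i, a (i - 1) * a (i + 1) ≤ a i ^ 2) (i : ℤ) :
    a (i - 1) * a (i + 2) ≤ a i * a (i + 1) := by
  have h1 := hlc i
  have h2 := hlc (i + 1)
  have e1 : i + 1 - 1 = i := by ring
  have e2 : i + 1 + 1 = i + 2 := by ring
  rw [e1, e2] at h2
  have p0 := h (i - 1)
  have p1 := h i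
  have p2 := h (i + 1)
  have p3 := h (i + 2)
  have h3 : (a (i - 1) * a (i + 1)) * (a i * a (i + 2)) ≤ a i ^ 2 * a (i + 1) ^ 2 :=
    mul_le_mul h1 h2 (by positivity) (by positivity)
  have h4 : (a (i - 1) * a (i + 2)) * (a i * a (i + 1)) ≤ (a i * a (i + 1)) * (a i * a (i + 1)) := by
    nlinarith
  exact le_of_mul_le_mul_right h4 (by positivity)

theorem pl_mono (h : ∀ i, 0 < a i) (hlc : ∀ i, a (i - 1) * a (i + 1) ≤ a i ^ 2) (i : ℤ) :
    pl a i ≤ pl a (i + 1) := by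
  unfold pl
  rw [div_le_div_iff₀ (sS_pos h i) (sS_pos h (i + 1))]
  unfold sS
  have e1 : i + 1 - 1 = i := by ring
  have e2 : i + 1 + 1 = i + 2 := by ring
  rw [e1, e2]
  have := lc3 h hlc i
  have := hlc i
  nlinarith

theorem pr_anti (h : ∀ i, 0 < a i) (hlc : ∀ i, a (i - 1) * a (i + 1) ≤ a i ^ 2) (i : ℤ) :
    pr a (i + 1) ≤ pr a i := by
  unfold pr
  rw [div_le_div_iff₀ (sS_pos h (i + 1)) (sS_pos h i)]
  unfold sS
  have e1 : i + 1 - 1 = i := by ring
  have e2 : i + 1 + 1 = i + 2 := by ring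
  rw [e1, e2]
  have := lc3 h hlc i
  have h2 := hlc (i + 1)
  rw [e1, e2] at h2
  nlinarith

theorem kk_pos (h : ∀ i, 0 < a i) (i : ℤ) : 0 < kk a i := by
  unfold kk pr pl
  have e1 : i + 1 - 1 = i := by ring
  rw [e1]
  have p0 := h (i - 1)
  have p1 := h i
  have p2 := h (i + 1)
  have p3 := h (i + 2)
  have s0 := sS_pos h i
  have s1 := sS_pos h (i + 1)
  have e2 : i + 1 + 1 = i + 2 := by ring
  have h1 : a (i + 1) / sS a i < a (i + 1) / (a i + a (i + 1)) := by
    apply div_lt_div_of_pos_left p2 (by positivity)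
    unfold sS; linarith
  have h2 : a i / sS a (i + 1) < a i / (a i + a (i + 1)) := by
    apply div_lt_div_of_pos_left p1 (by positivity)
    unfold sS; rw [e1, e2]; linarith
  have h3 : a (i + 1) / (a i + a (i + 1)) + a i / (a i + a (i + 1)) = 1 := by
    rw [← add_div, add_comm (a (i + 1))]
    exact div_self (by positivity)
  linarith

end Pool.H96.LT
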