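import Pool.Agent.H96.LT.Row
import Pool.Agent.H96.LT.WFacts

/-!
# The rows of the contraction system
-/

namespace Pool.H96.LT
open Finset

theorem hat_swap {X : Type} (α : ℝ) (s : Finset X) (p q : X → ℝ) :
    hat α s p q = hat (1 - α) s q p := by
  unfold hat
  have e : (1 - (1 - α)) = α := by ring
  rw [e, mul_comm (1 - α) α]
  congr 1
  refine sum_congr rfl fun x _ => ?_
  congr 1
  · ring
  · ring

/-- mixture over the child's value -/
noncomputable def mx {X : Type} (a : ℤ → ℝ) (L : ℤ → X → ℝ) (i : ℤ) (x : X) : ℝ :=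
  pl a i * L (i - 1) x + pm a i * L i x + pr a i * L (i + 1) x

theorem hat_tail {X : Type} {s : Finset X} {a : ℤ → ℝ} (h : ∀ i, 0 < a i)
    (hlc : ∀ i, a (i - 1) * a (i + 1) ≤ a i ^ 2) {L : ℤ → X → ℝ}
    (hL : ∀ i, ∀ x ∈ s, 0 ≤ L i x) (i : ℤ) :
    hat (1 / 2) s (mx a L i) (mx a L (i + 1)) ≤
      pl a i * hat (1 / 2) s (L (i - 1)) (L i) + kk a i * hat (1 / 2) s (L i) (L (i + 1))
        + pr a (i + 1) * hat (1 / 2) s (L (i + 1)) (L (i + 2)) := by
  have l0 := pl_pos h i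
  have k0 := kk_pos h i
  have r0 := pr_pos h (i + 1)
  have s0 := p_sum h i
  have s1 := p_sum h (i + 1)
  have hm := pl_mono h hlc i
  have ha := pr_anti h hlc i
  have hk : kk a i = 1 - pr a i - pl a (i + 1) := rfl
  have e1 : i + 1 - 1 = i := by ring
  have e2 : i + 1 + 1 = i + 2 := by ring
  have main := hat_mix (s := s) (x0 := L (i - 1)) (x1 := L i) (x2 := L (i + 1)) (x3 := L (i + 2))
    (p := mx a L i) (q := mx a L (i + 1))
    (α := 1 / 2) (α1 := 1 / 2) (α2 := 1 / 2) (α3 := 1 / 2)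
    (β1 := pl a i) (β2 := kk a i) (β3 := pr a (i + 1))
    (l := pl a i) (m := pm a i) (r := pr a i)
    (l' := pl a (i + 1)) (m' := pm a (i + 1)) (r' := pr a (i + 1))
    (hL _) (hL _) (hL _) (hL _) (by norm_num) (by norm_num) (by norm_num) (by norm_num)
    (by norm_num) (by norm_num) (by norm_num) (by norm_num) l0 k0 r0 s0 s1
    (fun x _ => rfl) (fun x _ => by unfold mx; rw [e1, e2])
    (by linarith) (by linarith) (by linarith) (by linarith)
  have c1 : pl a i ^ 2 / pl a i = pl a i := by field_simp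
  have c2 : (pl a i + pm a i - pl a (i + 1)) ^ 2 / kk a i = kk a i := by
    have : pl a i + pm a i - pl a (i + 1) = kk a i := by linarith
    rw [this]; field_simp
  have c3 : pr a (i + 1) ^ 2 / pr a (i + 1) = pr a (i + 1) := by field_simp
  rw [c1, c2, c3] at main
  have c4 : (1 / 2 * (1 - 1 / 2) / (1 / 2 * (1 - 1 / 2)) : ℝ) = 1 := by norm_num
  rw [c4] at main
  linarith

theorem hat_one {X : Type} {s : Finset X} {a : ℤ → ℝ} (h : ∀ i, 0 < a i)
    (hlc : ∀ i, a (i - 1) * a (i + 1) ≤ a i ^ 2) {L : ℤ → X → ℝ}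
    (hL : ∀ i, ∀ x ∈ s, 0 ≤ L i x) {α : ℝ} (hα : 1 / 2 ≤ α) (hα' : α < 1) :
    hat (1 / 2) s (mx a L 1) (mx a L 2) ≤
      pl a 1 / (2 * (1 - α)) * hat α s (L 0) (L 1) + kk a 1 * hat (1 / 2) s (L 1) (L 2)
        + pr a 2 * hat (1 / 2) s (L 2) (L 3) := by
  have l0 := pl_pos h 1
  have k0 := kk_pos h 1
  have r0 := pr_pos h 2
  have s0 := p_sum h 1
  have s1 := p_sum h 2
  have hm := pl_mono h hlc 1
  have ha := pr_anti h hlc 1
  have hk : kk a 1 = 1 - pr a 1 - pl a (1 + 1) := rfl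
  have e2 : (1 + 1 : ℤ) = 2 := by norm_num
  rw [e2] at hm ha hk
  have hα0 : 0 < α := by linarith
  have hα1 : 0 < 1 - α := by linarith
  have main := hat_mix (s := s) (x0 := L 0) (x1 := L 1) (x2 := L 2) (x3 := L 3)
    (p := mx a L 1) (q := mx a L 2)
    (α := 1 / 2) (α1 := α) (α2 := 1 / 2) (α3 := 1 / 2)
    (β1 := pl a 1 / (2 * α)) (β2 := kk a 1) (β3 := pr a 2)
    (l := pl a 1) (m := pm a 1) (r := pr a 1)
    (l' := pl a 2) (m' := pm a 2) (r' := pr a 2)
    (hL _) (hL _) (hL _) (hL _) (by norm_num) (by norm_num) hα0 hα'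
    (by norm_num) (by norm_num) (by norm_num) (by norm_num) (by positivity) k0 r0 s0 s1
    (fun x _ => by unfold mx; norm_num) (fun x _ => by unfold mx; norm_num)
    (by
      have : pl a 1 / (2 * α) * α = 1 / 2 * pl a 1 := by field_simp
      rw [this])
    (by
      have h1 : pl a 1 / (2 * α) * (1 - α) ≤ 1 / 2 * pl a 1 := by
        rw [div_mul_eq_mul_div, div_le_iff₀ (by positivity)]
        nlinarith
      linarith)
    (by linarith) (by linarith)
  have c1 : (1 / 2 * (1 - 1 / 2) / (α * (1 - α)) : ℝ) * (pl a 1 ^ 2 / (pl a 1 / (2 * α)))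
      = pl a 1 / (2 * (1 - α)) := by
    field_simp
    norm_num
  have c2 : (pl a 1 + pm a 1 - pl a 2) ^ 2 / kk a 1 = kk a 1 := by
    have : pl a 1 + pm a 1 - pl a 2 = kk a 1 := by linarith
    rw [this]; field_simp
  have c3 : pr a 2 ^ 2 / pr a 2 = pr a 2 := by field_simp
  rw [c1, c2, c3] at main
  have c4 : (1 / 2 * (1 - 1 / 2) / (1 / 2 * (1 - 1 / 2)) : ℝ) = 1 := by norm_num
  rw [c4] at main
  linarith

theorem hat_zero {X : Type} {s : Finset X} {a : ℤ → ℝ} (h : ∀ i, 0 < a i)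
    {L : ℤ → X → ℝ} (hsym : a (-1) = a 1)
    (hL : ∀ i, ∀ x ∈ s, 0 ≤ L i x) {α β : ℝ} (hα : 1 / 2 ≤ α) (hα' : α < 1) (hβ : 0 < β)
    (c1 : α * (α * pr a 0 / (1 - α)) + β * α ≤ α * pm a 0 + (1 - α) * pl a 1)
    (c2 : β * (1 - α) + (1 - α) * pr a 1 ≤ α * pr a 0 + (1 - α) * pm a 1) :
    hat α s (mx a L 0) (mx a L 1) ≤
      pr a 0 * (1 - α) / α * hat α s (L 0) (L (-1)) + kk a 0 ^ 2 / β * hat α s (L 0) (L 1)
        + 2 * α * pr a 1 * hat (1 / 2) s (L 1) (L 2) := by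
  have l0 := pl_pos h 0
  have r0 := pr_pos h 1
  have s0 := p_sum h 0
  have s1 := p_sum h 1
  have hk : kk a 0 = 1 - pr a 0 - pl a (0 + 1) := rfl
  rw [zero_add] at hk
  have hα0 : 0 < α := by linarith
  have hα1 : 0 < 1 - α := by linarith
  have hlr : pl a 0 = pr a 0 := by
    unfold pl pr
    norm_num
    rw [hsym]
  rw [hat_swap α s (L 0) (L (-1))]
  have main := hat_mix (s := s) (x0 := L (-1)) (x1 := L 0) (x2 := L 1) (x3 := L 2)
    (p := mx a L 0) (q := mx a L 1)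
    (α := α) (α1 := 1 - α) (α2 := α) (α3 := 1 / 2)
    (β1 := α * pr a 0 / (1 - α)) (β2 := β) (β3 := 2 * (1 - α) * pr a 1)
    (l := pl a 0) (m := pm a 0) (r := pr a 0)
    (l' := pl a 1) (m' := pm a 1) (r' := pr a 1)
    (hL _) (hL _) (hL _) (hL _) hα0 hα' hα1 (by linarith) hα0 hα'
    (by norm_num) (by norm_num) (by rw [← hlr]; positivity) hβ (by positivity) s0 s1
    (fun x _ => by unfold mx; norm_num) (fun x _ => by unfold mx; norm_num)
    (by
      have : α * pr a 0 / (1 - α) * (1 - α) = α * pl a 0 := by rw [hlr]; field_simp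
      rw [this])
    (by
      have : α * pr a 0 / (1 - α) * (1 - (1 - α)) = α * (α * pr a 0 / (1 - α)) := by ring
      rw [this]; exact c1)
    (by linarith) (by linarith)
  have e1 : (α * (1 - α) / ((1 - α) * (1 - (1 - α))) : ℝ)
      * (pl a 0 ^ 2 / (α * pr a 0 / (1 - α))) = pr a 0 * (1 - α) / α := by
    rw [← hlr]
    have : (1 - (1 - α)) = α := by ring
    rw [this]
    field_simp
  have e2 : (α * (1 - α) / (α * (1 - α)) : ℝ) = 1 := div_self (by positivity)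
  have e3 : pl a 0 + pm a 0 - pl a 1 = kk a 0 := by linarith
  have e4 : (α * (1 - α) / (1 / 2 * (1 - 1 / 2)) : ℝ)
      * (pr a 1 ^ 2 / (2 * (1 - α) * pr a 1)) = 2 * α * pr a 1 := by
    field_simp
    norm_num
  rw [e1, e2, e3, e4] at main
  linarith

theorem hat_zero' {X : Type} {s : Finset X} {a : ℤ → ℝ} (h : ∀ i, 0 < a i)
    (hlc : ∀ i, a (i - 1) * a (i + 1) ≤ a i ^ 2)
    {L : ℤ → X → ℝ} (h0 : a 0 = 1) (hs0 : a 1 = 1) (hs1 : a (-1) = a 2)
    (hL : ∀ i, ∀ x ∈ s, 0 ≤ L i x) :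
    hat (1 / 2) s (mx a L 0) (mx a L 1) ≤
      pr a 1 * hat (1 / 2) s (L 0) (L (-1))
        + pr a 1 ^ 2 / (1 - 2 * pr a 1) * hat (1 / 2) s (L 0) (L 1)
        + pr a 1 * hat (1 / 2) s (L 1) (L 2) := by
  have l0 := pl_pos h 0
  have r0 := pr_pos h 1
  have s0 := p_sum h 0
  have s1 := p_sum h 1
  have hv : a 2 ≤ 1 := by
    have := hlc 1
    norm_num [h0, hs0] at this
    exact this
  have hv0 := h 2
  have epl0 : pl a 0 = a 2 / (2 + a 2) := by
    unfold pl sS; norm_num [h0, hs0, hs1]; congr 1; ring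
  have epm0 : pm a 0 = 1 / (2 + a 2) := by
    unfold pm sS; norm_num [h0, hs0, hs1]; ring
  have epr0 : pr a 0 = 1 / (2 + a 2) := by
    unfold pr sS; norm_num [h0, hs0, hs1]; ring
  have epl1 : pl a 1 = 1 / (2 + a 2) := by
    unfold pl sS; norm_num [h0, hs0, hs1]
  have epm1 : pm a 1 = 1 / (2 + a 2) := by
    unfold pm sS; norm_num [h0, hs0, hs1]
  have epr1 : pr a 1 = a 2 / (2 + a 2) := by
    unfold pr sS; norm_num [h0, hs0, hs1]
  have hx : pr a 1 < 1 / 2 := by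
    rw [epr1, div_lt_iff₀ (by positivity)]; linarith
  have hb : 0 < 1 - 2 * pr a 1 := by linarith
  have h2v : 2 * (1 / (2 + a 2)) = 1 - pr a 1 := by
    rw [epr1]; field_simp; ring
  rw [hat_swap (1 / 2) s (L 0) (L (-1))]
  have e0 : (1 - 1 / 2 : ℝ) = 1 / 2 := by norm_num
  rw [e0]
  have main := hat_mix (s := s) (x0 := L (-1)) (x1 := L 0) (x2 := L 1) (x3 := L 2)
    (p := mx a L 0) (q := mx a L 1)
    (α := 1 / 2) (α1 := 1 / 2) (α2 := 1 / 2) (α3 := 1 / 2)
    (β1 := pr a 1) (β2 := 1 - 2 * pr a 1) (β3 := pr a 1)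
    (l := pl a 0) (m := pm a 0) (r := pr a 0)
    (l' := pl a 1) (m' := pm a 1) (r' := pr a 1)
    (hL _) (hL _) (hL _) (hL _) (by norm_num) (by norm_num) (by norm_num) (by norm_num)
    (by norm_num) (by norm_num)
    (by norm_num) (by norm_num) r0 hb r0 s0 s1
    (fun x _ => by unfold mx; norm_num) (fun x _ => by unfold mx; norm_num)
    (by rw [epl0, epr1]; linarith) (by rw [epm0, epl1]; linarith) (by rw [epr0, epm1]; linarith)
    (by linarith)
  have c1 : pl a 0 ^ 2 / pr a 1 = pr a 1 := by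
    have : pl a 0 = pr a 1 := by rw [epl0, epr1]
    rw [this]; field_simp
  have c2 : (pl a 0 + pm a 0 - pl a 1) = pr a 1 := by
    rw [epl0, epm0, epl1, epr1]; ring
  have c3 : pr a 1 ^ 2 / pr a 1 = pr a 1 := by field_simp
  rw [c1, c2, c3] at main
  have c4 : (1 / 2 * (1 - 1 / 2) / (1 / 2 * (1 - 1 / 2)) : ℝ) = 1 := by norm_num
  rw [c4] at main
  linarith

end Pool.H96.LT
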